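import Mathlib
import Pool.Agent.Y314.CT3.Prim1

/-!
# Clifford's theorem for normal subgroups with commutative image
-/

set_option autoImplicit false

namespace Pool.Agent.U350.PG

open Module

section

variable {V : Type} [AddCommGroup V] [Module ℂ V] [FiniteDimensional ℂ V]

theorem eig_common [Nontrivial V] (S : Set (V →ₗ[ℂ] V)) (hc : ∀ a ∈ S, ∀ b ∈ S, a * b = b * a) :
    ∃ v : V, v ≠ 0 ∧ ∀ a ∈ S, ∃ c : ℂ, a v = c • v := by
  classical
  have hex : ∃ n, ∃ U : Submodule ℂ V, U ≠ ⊥ ∧ (∀ a ∈ S, ∀ u ∈ U, a u ∈ U) ∧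
      Module.finrank ℂ U = n :=
    ⟨_, ⊤, top_ne_bot, fun _ _ _ _ => Submodule.mem_top, rfl⟩
  obtain ⟨U, hU, hinv, hn⟩ := Nat.find_spec hex
  have hmin := fun m => Nat.find_min (m := m) hex
  have key : ∀ a ∈ S, ∃ c : ℂ, ∀ u ∈ U, a u = c • u := by
    intro a ha
    have hnt : Nontrivial U := Submodule.nontrivial_iff_ne_bot.2 hU
    obtain ⟨c, hcv⟩ := Module.End.exists_eigenvalue (K := ℂ) (V := U) (a.restrict (hinv a ha))
    obtain ⟨w, hw⟩ := hcv.exists_hasEigenvector
    have hw1 : a w = c • (w : V) := by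
      have := congrArg Subtype.val hw.apply_eq_smul
      simpa using this
    set U' : Submodule ℂ V := U ⊓ LinearMap.ker (a - c • (1 : V →ₗ[ℂ] V)) with hU'
    have hmem : ∀ x, x ∈ U' ↔ x ∈ U ∧ a x = c • x := by
      intro x
      rw [hU', Submodule.mem_inf, LinearMap.mem_ker]
      simp [sub_eq_zero]
    have h1 : U' ≠ ⊥ := by
      intro h0
      have : (w : V) ∈ U' := (hmem _).2 ⟨w.2, hw1⟩
      rw [h0, Submodule.mem_bot] at this
      exact hw.2 (Subtype.ext this)
    have h2 : ∀ b ∈ S, ∀ u ∈ U', b u ∈ U' := by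
      intro b hb u hu
      obtain ⟨hu1, hu2⟩ := (hmem u).1 hu
      refine (hmem _).2 ⟨hinv b hb u hu1, ?_⟩
      have := congrArg (fun T : V →ₗ[ℂ] V => T u) (hc a ha b hb)
      simp only [Module.End.mul_apply] at this
      rw [this, hu2, map_smul]
    have h3 : ¬ Module.finrank ℂ U' < Nat.find hex := fun hlt => hmin _ hlt ⟨U', h1, h2, rfl⟩
    have h4 : U' = U := by
      refine Submodule.eq_of_le_of_finrank_le inf_le_left ?_
      rw [hn]; omega
    refine ⟨c, fun u hu => ?_⟩
    rw [← h4] at hu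
    exact ((hmem u).1 hu).2
  obtain ⟨v, hv, hv0⟩ := Submodule.exists_mem_ne_zero_of_ne_bot hU
  exact ⟨v, hv0, fun a ha => (key a ha).imp fun c hc => hc v hv⟩

variable {G : Type} [Group G] (ρ : G →* (V →ₗ[ℂ] V))

omit [FiniteDimensional ℂ V] in
theorem eig_inv (g : G) (v : V) : ρ g⁻¹ (ρ g v) = v := by
  have : ρ (g⁻¹ * g) = 1 := by simp
  rw [map_mul] at this
  exact congrArg (fun T : V →ₗ[ℂ] V => T v) this

omit [FiniteDimensional ℂ V] in
theorem eig_ne (g : G) {v : V} (hv : v ≠ 0) : ρ g v ≠ 0 := by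
  intro h
  apply hv
  rw [← eig_inv ρ g v, h, map_zero]

theorem clif [Nontrivial V] (A : Subgroup G) (hA : A.Normal)
    (hcomm : ∀ a ∈ A, ∀ b ∈ A, ρ a * ρ b = ρ b * ρ a)
    (hns : ∃ a ∈ A, ∀ c : ℂ, ρ a ≠ c • (1 : V →ₗ[ℂ] V)) :
    ∃ (K : Subgroup G) (W : Submodule ℂ V), K.index ≠ 0 ∧ W ≠ ⊥ ∧ W ≠ ⊤ ∧
      (∀ g ∈ K, ∀ w ∈ W, ρ g w ∈ W) ∧ K.index * finrank ℂ W ≤ finrank ℂ V := by
  classical
  obtain ⟨v, hv, hχ⟩ := eig_common (ρ '' (A : Set G)) (by
    rintro _ ⟨a, ha, rfl⟩ _ ⟨b, hb, rfl⟩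
    exact hcomm a ha b hb)
  have hχ' : ∀ a : G, ∃ c : ℂ, a ∈ A → ρ a v = c • v := by
    intro a
    by_cases ha : a ∈ A
    · obtain ⟨c, hc⟩ := hχ _ ⟨a, ha, rfl⟩
      exact ⟨c, fun _ => hc⟩
    · exact ⟨0, fun h => absurd h ha⟩
  choose χ hχ using hχ'
  have hconj : ∀ g a, a ∈ A → g⁻¹ * a * g ∈ A := fun g a ha => by
    simpa using hA.conj_mem a ha g⁻¹
  let K : Subgroup G :=
    { carrier := {g | ∀ a ∈ A, χ (g⁻¹ * a * g) = χ a}
      one_mem' := by intro a _; simp
      mul_mem' := by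
        intro g h hg hh a ha
        have h1 := hh _ (hconj g a ha)
        rw [hg a ha] at h1
        rw [← h1]
        congr 1
        group
      inv_mem' := by
        intro g hg a ha
        have h1 : g * a * g⁻¹ ∈ A := hA.conj_mem a ha g
        have h2 := hg _ h1
        have h3 : g⁻¹ * (g * a * g⁻¹) * g = a := by group
        rw [h3] at h2
        rw [inv_inv, ← h2] }
  let W : Submodule ℂ V :=
    { carrier := {w | ∀ a ∈ A, ρ a w = χ a • w}
      zero_mem' := by intro a _; simp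
      add_mem' := by
        intro x y hx hy a ha
        rw [map_add, hx a ha, hy a ha, smul_add]
      smul_mem' := by
        intro c x hx a ha
        rw [map_smul, hx a ha, smul_comm] }
  have hvW : v ∈ W := fun a ha => hχ a ha
  have hact : ∀ g a, a ∈ A → ∀ w ∈ W, ρ a (ρ g w) = χ (g⁻¹ * a * g) • ρ g w := by
    intro g a ha w hw
    have h1 : ρ a * ρ g = ρ g * ρ (g⁻¹ * a * g) := by
      rw [← map_mul, ← map_mul]; congr 1; group
    have h2 := congrArg (fun T : V →ₗ[ℂ] V => T w) h1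
    simp only [Module.End.mul_apply] at h2
    rw [h2, hw _ (hconj g a ha), map_smul]
  have hne : ∀ q q' : G ⧸ K, (∀ a : A, χ (q.out⁻¹ * a * q.out) = χ (q'.out⁻¹ * a * q'.out)) →
      q = q' := by
    intro q q' h
    have h1 : q.out⁻¹ * q'.out ∈ K := by
      intro a ha
      have h2 := h ⟨q.out * a * q.out⁻¹, hA.conj_mem a ha _⟩
      have h3 : q.out⁻¹ * (q.out * a * q.out⁻¹) * q.out = a := by group
      simp only at h2
      rw [h3] at h2
      rw [h2]
      congr 1
      group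
    rw [← QuotientGroup.out_eq' q, ← QuotientGroup.out_eq' q']
    exact QuotientGroup.eq.2 h1
  have hfin : Finite (G ⧸ K) := by
    have h1 : LinearIndependent ℂ (fun q : G ⧸ K => ρ q.out v) :=
      Pool.Agent.Y314.CT3.indep_eig (fun a : A => ρ a) (fun q : G ⧸ K => ρ q.out v)
        (fun a q => χ (q.out⁻¹ * a * q.out)) (fun a q => hact _ _ a.2 v hvW)
        (fun q => eig_ne ρ _ hv) hne
    exact h1.finite
  have hK : K.index ≠ 0 := by
    have := Subgroup.index_ne_zero_of_finite (H := K)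
    exact this
  refine ⟨K, W, hK, ?_, ?_, ?_, ?_⟩
  · intro h0
    rw [h0, Submodule.mem_bot] at hvW
    exact hv hvW
  · intro h0
    obtain ⟨a, ha, h1⟩ := hns
    apply h1 (χ a)
    apply LinearMap.ext
    intro w
    have : w ∈ W := by rw [h0]; exact Submodule.mem_top
    simpa using this a ha
  · intro g hg w hw a ha
    rw [hact g a ha w hw, hg a ha]
  · have := Fintype.ofFinite (G ⧸ K)
    let F : ((G ⧸ K) → W) →ₗ[ℂ] V := ∑ q : G ⧸ K, (ρ q.out).comp (W.subtype.comp (LinearMap.proj q))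
    have hF : ∀ w, F w = ∑ q : G ⧸ K, ρ q.out (w q) := by
      intro w
      simp [F]
    have hinj : Function.Injective F := by
      rw [← LinearMap.ker_eq_bot, LinearMap.ker_eq_bot']
      intro w hw
      by_contra hne0
      obtain ⟨q0, hq0⟩ := Function.ne_iff.1 hne0
      let ι := {q : G ⧸ K // w q ≠ 0}
      have h1 : LinearIndependent ℂ (fun q : ι => ρ q.1.out (w q.1)) :=
        Pool.Agent.Y314.CT3.indep_eig (fun a : A => ρ a) (fun q : ι => ρ q.1.out (w q.1))
          (fun a q => χ (q.1.out⁻¹ * a * q.1.out)) (fun a q => hact _ _ a.2 _ (w q.1).2)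
          (fun q => eig_ne ρ _ (fun h => q.2 (Subtype.ext h)))
          (fun q q' h => Subtype.ext (hne _ _ h))
      rw [hF] at hw
      have h2 : ∑ q : ι, (1 : ℂ) • ρ q.1.out (w q.1) = 0 := by
        simp only [one_smul]
        rw [← hw]
        have h3 := Finset.sum_subtype_of_mem (s := Finset.univ.filter fun q : G ⧸ K => w q ≠ 0)
          (p := fun q => w q ≠ 0) (f := fun q => ρ q.out (w q : V)) (fun q hq => by simpa using hq)
        have h4 : ∑ q ∈ Finset.univ.filter (fun q : G ⧸ K => w q ≠ 0), ρ q.out (w q : V) =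
            ∑ q : G ⧸ K, ρ q.out (w q : V) := by
          apply Finset.sum_filter_of_ne
          intro q _ hq h0
          apply hq
          rw [h0]
          simp
        rw [← h4, ← h3]
        apply Finset.sum_congr
        · ext q
          exact ⟨fun _ => Finset.mem_subtype.2 (Finset.mem_filter.2 ⟨Finset.mem_univ _, q.2⟩),
            fun _ => Finset.mem_univ _⟩
        · intro q _
          rfl
      have h5 := Fintype.linearIndependent_iff.1 h1 (fun _ => 1) h2 ⟨q0, hq0⟩
      exact one_ne_zero h5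
    have h1 := LinearMap.finrank_le_finrank_of_injective hinj
    rw [Module.finrank_pi_fintype, Finset.sum_const, Finset.card_univ, smul_eq_mul] at h1
    have h2 : K.index = Fintype.card (G ⧸ K) := by
      rw [Subgroup.index, Nat.card_eq_fintype_card]
    rw [h2]
    exact h1

end

end Pool.Agent.U350.PG
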