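import Mathlib
import Pool.Agent.U350.PG.Clif

/-!
# The finite cover of determinant one of a projective image
-/

set_option autoImplicit false

namespace Pool.Agent.U350.PG

open Module

noncomputable section

variable {V : Type} [AddCommGroup V] [Module ℂ V] {G : Type} [Group G]
  (ρ : G →* (V →ₗ[ℂ] V))

/-- the scalars -/
def sc (V : Type) [AddCommGroup V] [Module ℂ V] : ℂˣ →* (V →ₗ[ℂ] V)ˣ :=
  Units.map ((algebraMap ℂ (Module.End ℂ V)) : ℂ →* (V →ₗ[ℂ] V))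

lemma sc_val (c : ℂˣ) : ((sc V c : (V →ₗ[ℂ] V)ˣ) : V →ₗ[ℂ] V) = (c : ℂ) • (1 : V →ₗ[ℂ] V) := by
  show algebraMap ℂ (Module.End ℂ V) c = _
  rw [Algebra.algebraMap_eq_smul_one]

lemma sc_comm (c : ℂˣ) (u : (V →ₗ[ℂ] V)ˣ) : sc V c * u = u * sc V c := by
  apply Units.ext
  rw [Units.val_mul, Units.val_mul, sc_val, smul_mul_assoc, mul_smul_comm, one_mul, mul_one]

lemma sc_inj [Nontrivial V] : Function.Injective (sc V) := by
  intro a b h
  obtain ⟨v, hv⟩ := exists_ne (0 : V)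
  have h1 := congrArg (fun u : (V →ₗ[ℂ] V)ˣ => (u : V →ₗ[ℂ] V) v) h
  simp only [sc_val, LinearMap.smul_apply, Module.End.one_apply] at h1
  exact Units.ext (smul_left_injective ℂ hv h1)

lemma sc_mem [Nontrivial V] (u : (V →ₗ[ℂ] V)ˣ) {c : ℂ}
    (h : (u : V →ₗ[ℂ] V) = c • (1 : V →ₗ[ℂ] V)) : u ∈ (sc V).range := by
  have hc : c ≠ 0 := by
    rintro rfl
    obtain ⟨v, hv⟩ := exists_ne (0 : V)
    have h1 : ((u⁻¹ : (V →ₗ[ℂ] V)ˣ) : V →ₗ[ℂ] V) * (u : V →ₗ[ℂ] V) = 1 := by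
      rw [← Units.val_mul]; simp
    rw [h, zero_smul, mul_zero] at h1
    have h2 := congrArg (fun T : V →ₗ[ℂ] V => T v) h1
    simp only [LinearMap.zero_apply, Module.End.one_apply] at h2
    exact hv h2.symm
  refine ⟨Units.mk0 c hc, Units.ext ?_⟩
  rw [sc_val, h]
  rfl

/-- scalars times `G` -/
def phi : ℂˣ × G →* (V →ₗ[ℂ] V)ˣ where
  toFun p := sc V p.1 * ρ.toHomUnits p.2
  map_one' := by simp
  map_mul' p q := by
    simp only [Prod.fst_mul, Prod.snd_mul, map_mul]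
    calc sc V p.1 * sc V q.1 * (ρ.toHomUnits p.2 * ρ.toHomUnits q.2)
        = sc V p.1 * (sc V q.1 * ρ.toHomUnits p.2) * ρ.toHomUnits q.2 := by
          simp only [mul_assoc]
      _ = sc V p.1 * (ρ.toHomUnits p.2 * sc V q.1) * ρ.toHomUnits q.2 := by rw [sc_comm q.1 (ρ.toHomUnits p.2)]
      _ = _ := by simp only [mul_assoc]

lemma phi_apply (c : ℂˣ) (g : G) : phi ρ (c, g) = sc V c * ρ.toHomUnits g := rfl

lemma phi_val (c : ℂˣ) (g : G) :
    ((phi ρ (c, g) : (V →ₗ[ℂ] V)ˣ) : V →ₗ[ℂ] V) = (c : ℂ) • ρ g := by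
  rw [phi_apply, Units.val_mul, sc_val, smul_mul_assoc, one_mul]
  rfl

/-- the elements of determinant one in the group generated by the scalars and the image -/
def Gam : Subgroup (V →ₗ[ℂ] V)ˣ :=
  (phi ρ).range ⊓ (Units.map (LinearMap.det (M := V) (A := ℂ) : (V →ₗ[ℂ] V) →* ℂ)).ker

lemma mem_Gam (u : (V →ₗ[ℂ] V)ˣ) :
    u ∈ Gam ρ ↔ (∃ c g, phi ρ (c, g) = u) ∧ LinearMap.det (u : V →ₗ[ℂ] V) = 1 := by
  unfold Gam
  rw [Subgroup.mem_inf, MonoidHom.mem_range, MonoidHom.mem_ker]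
  refine and_congr ⟨?_, ?_⟩ ?_
  · rintro ⟨⟨c, g⟩, h⟩
    exact ⟨c, g, h⟩
  · rintro ⟨c, g, h⟩
    exact ⟨(c, g), h⟩
  · rw [Units.ext_iff]
    rfl

lemma exists_phi (u : Gam ρ) : ∃ c g, phi ρ (c, g) = u := ((mem_Gam ρ _).1 u.2).1

lemma exists_lift [FiniteDimensional ℂ V] [Nontrivial V] (g : G) : ∃ c, phi ρ (c, g) ∈ Gam ρ := by
  have hn : 0 < finrank ℂ V := finrank_pos
  set D : ℂ := LinearMap.det (ρ g) with hD
  have hD0 : D ≠ 0 := by
    intro h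
    have h1 : LinearMap.det (ρ g * ρ g⁻¹) = 1 := by rw [← map_mul]; simp
    rw [map_mul, ← hD, h, zero_mul] at h1
    exact zero_ne_one h1
  obtain ⟨c, hc⟩ := IsAlgClosed.exists_pow_nat_eq (D⁻¹) hn
  have hc0 : c ≠ 0 := by
    rintro rfl
    rw [zero_pow hn.ne'] at hc
    exact inv_ne_zero hD0 hc.symm
  refine ⟨Units.mk0 c hc0, (mem_Gam ρ _).2 ⟨⟨_, _, rfl⟩, ?_⟩⟩
  rw [phi_val, LinearMap.det_smul, Units.val_mk0, hc, ← hD, inv_mul_cancel₀ hD0]

/-- the preimage in `G` of a subgroup of the cover -/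
def pull (L : Subgroup (Gam ρ)) : Subgroup G where
  carrier := {g | ∃ (c : ℂˣ) (u : Gam ρ), u ∈ L ∧ phi ρ (c, g) = u}
  one_mem' := ⟨1, 1, L.one_mem, by
    show phi ρ (1, 1) = 1
    exact map_one (phi ρ)⟩
  mul_mem' := by
    rintro g g' ⟨c, u, hu, h⟩ ⟨c', u', hu', h'⟩
    refine ⟨c * c', u * u', L.mul_mem hu hu', ?_⟩
    rw [Subgroup.coe_mul, ← h, ← h', ← map_mul]
    rfl
  inv_mem' := by
    rintro g ⟨c, u, hu, h⟩
    refine ⟨c⁻¹, u⁻¹, L.inv_mem hu, ?_⟩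
    rw [Subgroup.coe_inv, ← h, ← map_inv]
    rfl

lemma pull_normal [FiniteDimensional ℂ V] [Nontrivial V] (L : Subgroup (Gam ρ)) (hL : L.Normal) :
    (pull ρ L).Normal := by
  constructor
  rintro g ⟨c, u, hu, h⟩ x
  obtain ⟨cx, hx⟩ := exists_lift ρ x
  refine ⟨cx * c * cx⁻¹, ⟨_, hx⟩ * u * (⟨_, hx⟩ : Gam ρ)⁻¹, hL.conj_mem u hu _, ?_⟩
  rw [Subgroup.coe_mul, Subgroup.coe_mul, Subgroup.coe_inv, ← h]
  show _ = phi ρ (cx, x) * phi ρ (c, g) * (phi ρ (cx, x))⁻¹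
  rw [← map_inv, ← map_mul, ← map_mul]
  rfl

lemma pull_comm (L : Subgroup (Gam ρ)) (hL : ∀ a ∈ L, ∀ b ∈ L, a * b = b * a) :
    ∀ a ∈ pull ρ L, ∀ b ∈ pull ρ L, ρ a * ρ b = ρ b * ρ a := by
  rintro a ⟨c, u, hu, h⟩ b ⟨c', u', hu', h'⟩
  have h1 := congrArg Subtype.val (hL u hu u' hu')
  rw [Subgroup.coe_mul, Subgroup.coe_mul, ← h, ← h'] at h1
  have h2 := congrArg (fun u : (V →ₗ[ℂ] V)ˣ => (u : V →ₗ[ℂ] V)) h1
  simp only [Units.val_mul, phi_val, smul_mul_assoc, mul_smul_comm] at h2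
  rw [smul_smul, smul_smul, mul_comm (c' : ℂ)] at h2
  have hcc : (c : ℂ) * (c' : ℂ) ≠ 0 := mul_ne_zero c.ne_zero c'.ne_zero
  exact smul_right_injective (V →ₗ[ℂ] V) hcc h2

lemma pull_index [FiniteDimensional ℂ V] [Nontrivial V] [Finite (Gam ρ)] (L : Subgroup (Gam ρ)) :
    (pull ρ L).index ≠ 0 ∧ (pull ρ L).index ≤ L.index := by
  choose s hs using exists_lift ρ
  let f : G ⧸ pull ρ L → Gam ρ ⧸ L := fun q => QuotientGroup.mk ⟨_, hs q.out⟩
  have hf : Function.Injective f := by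
    intro q q' h
    have h1 := QuotientGroup.eq.1 h
    rw [← QuotientGroup.out_eq' q, ← QuotientGroup.out_eq' q']
    apply QuotientGroup.eq.2
    refine ⟨(s q.out)⁻¹ * s q'.out, _, h1, ?_⟩
    rw [Subgroup.coe_mul, Subgroup.coe_inv]
    show _ = (phi ρ (s q.out, q.out))⁻¹ * phi ρ (s q'.out, q'.out)
    rw [← map_inv, ← map_mul]
    rfl
  have hfin : Finite (G ⧸ pull ρ L) := Finite.of_injective f hf
  exact ⟨Subgroup.index_ne_zero_of_finite, Nat.card_le_card_of_injective f hf⟩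

lemma Gam_solvable (hs : Group.IsSolvable G) : Group.IsSolvable (Gam ρ) := by
  have h1 : Group.IsSolvable (phi ρ).range :=
    Group.isSolvable_of_surjective (f := (phi ρ).rangeRestrict) (phi ρ).rangeRestrict_surjective
  exact Group.isSolvable_of_isSolvable_injective
    (f := Subgroup.inclusion (inf_le_left : Gam ρ ≤ (phi ρ).range))
    (Subgroup.inclusion_injective _)

/-- the scalars in the cover -/
def Bsc : Subgroup (Gam ρ) := (sc V).range.subgroupOf (Gam ρ)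

lemma Bsc_central (b : Gam ρ) (hb : b ∈ Bsc ρ) (u : Gam ρ) : b * u = u * b := by
  obtain ⟨c, hc⟩ := Subgroup.mem_subgroupOf.1 hb
  apply Subtype.ext
  rw [Subgroup.coe_mul, Subgroup.coe_mul, ← hc]
  exact sc_comm c _

lemma Bsc_normal : (Bsc ρ).Normal := by
  constructor
  intro b hb g
  rw [← Bsc_central ρ b hb g, mul_assoc, mul_inv_cancel, mul_one]
  exact hb

/-- the value of a scalar -/
def sig [Nontrivial V] : Bsc ρ →* ℂˣ :=
  (MonoidHom.ofInjective (sc_inj (V := V))).symm.toMonoidHom.comp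
    { toFun := fun b => (⟨((b : Gam ρ) : (V →ₗ[ℂ] V)ˣ), Subgroup.mem_subgroupOf.1 b.2⟩ :
        (sc V).range)
      map_one' := rfl
      map_mul' := fun _ _ => rfl }

lemma sig_inj [Nontrivial V] : Function.Injective (sig ρ) := by
  intro a b h
  have h1 := (MonoidHom.ofInjective (sc_inj (V := V))).symm.injective h
  have h2 := congrArg (fun x : (sc V).range => (x : (V →ₗ[ℂ] V)ˣ)) h1
  exact Subtype.ext (Subtype.ext h2)

lemma sig_spec [Nontrivial V] (b : Bsc ρ) : sc V (sig ρ b) = ((b : Gam ρ) : (V →ₗ[ℂ] V)ˣ) := by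
  have h1 := MonoidHom.apply_ofInjective_symm (sc_inj (V := V))
    (⟨((b : Gam ρ) : (V →ₗ[ℂ] V)ˣ), Subgroup.mem_subgroupOf.1 b.2⟩ : (sc V).range)
  exact h1

end

end Pool.Agent.U350.PG
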