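import Mathlib
import Pool.Agent.U350.PG.Cover
import Pool.Agent.H652.SR.Jeigen

/-!
# Finiteness of the cover for quasi-primitive solvable groups
-/

set_option autoImplicit false

namespace Pool.Agent.U350.PG

open Module
open scoped commutatorElement

noncomputable section

variable {V : Type} [AddCommGroup V] [Module ℂ V] [FiniteDimensional ℂ V] [Nontrivial V]
  {G : Type} [Group G] (ρ : G →* (V →ₗ[ℂ] V))

/-- no invariant subspaces -/
def IrrR : Prop := ∀ W : Submodule ℂ V, W ≠ ⊥ → (∀ g, ∀ w ∈ W, ρ g w ∈ W) → W = ⊤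

/-- commutative normal subgroups act by scalars -/
def QP : Prop := ∀ A : Subgroup G, A.Normal → (∀ a ∈ A, ∀ b ∈ A, ρ a * ρ b = ρ b * ρ a) →
  ∀ a ∈ A, ∃ c : ℂ, ρ a = c • (1 : V →ₗ[ℂ] V)

/-- the elements acting by scalars -/
def Zs : Subgroup G where
  carrier := {g | ∃ c : ℂˣ, ρ.toHomUnits g = sc V c}
  one_mem' := ⟨1, by simp⟩
  mul_mem' := by
    rintro a b ⟨c, hc⟩ ⟨d, hd⟩
    exact ⟨c * d, by rw [map_mul, hc, hd, map_mul]⟩
  inv_mem' := by
    rintro a ⟨c, hc⟩
    exact ⟨c⁻¹, by rw [map_inv, hc, map_inv]⟩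

omit [FiniteDimensional ℂ V] in
lemma mem_Zs {g : G} {c : ℂ} (h : ρ g = c • (1 : V →ₗ[ℂ] V)) : g ∈ Zs ρ := by
  obtain ⟨d, hd⟩ := sc_mem (ρ.toHomUnits g) (c := c) h
  exact ⟨d, hd.symm⟩

lemma Zs_index (hs : Group.IsSolvable G) (hirr : IrrR ρ) (hqp : QP ρ) : (Zs ρ).index ≠ 0 := by
  obtain ⟨H, hH, v, hv, hχ⟩ := Pool.Agent.H652.SR.eigen G hs V ρ
  set K := H.normalCore with hK
  have hKn : K.Normal := Subgroup.normalCore_normal H
  have hKH : K ≤ H := Subgroup.normalCore_le H
  have hfi : H.FiniteIndex := ⟨hH⟩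
  have hK0 : K.index ≠ 0 := (Subgroup.finiteIndex_normalCore (H := H)).index_ne_zero
  have hne : ∀ k ∈ K, ∃ c : ℂ, c ≠ 0 ∧ ρ k v = c • v := by
    intro k hk
    obtain ⟨c, hc⟩ := hχ k (hKH hk)
    refine ⟨c, ?_, hc⟩
    rintro rfl
    rw [zero_smul] at hc
    exact eig_ne ρ k hv hc
  have hfix : ∀ a ∈ ⁅K, K⁆, ρ a v = v := by
    let F : Subgroup G :=
      { carrier := {a | ρ a v = v}
        one_mem' := by simp
        mul_mem' := by
          intro a b ha hb
          show ρ (a * b) v = v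
          rw [map_mul, Module.End.mul_apply]
          rw [show ρ b v = v from hb, show ρ a v = v from ha]
        inv_mem' := by
          intro a ha
          show ρ a⁻¹ v = v
          conv_lhs => rw [← show ρ a v = v from ha]
          exact eig_inv ρ a v }
    have h1 : ⁅K, K⁆ ≤ F := by
      rw [Subgroup.commutator_le]
      intro a ha b hb
      obtain ⟨c, hc0, hc⟩ := hne a ha
      obtain ⟨d, hd0, hd⟩ := hne b hb
      have ha' : ρ a⁻¹ v = c⁻¹ • v := by
        have h2 := eig_inv ρ a v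
        rw [hc, map_smul] at h2
        rw [eq_inv_smul_iff₀ hc0]
        exact h2
      have hb' : ρ b⁻¹ v = d⁻¹ • v := by
        have h2 := eig_inv ρ b v
        rw [hd, map_smul] at h2
        rw [eq_inv_smul_iff₀ hd0]
        exact h2
      show ρ ⁅a, b⁆ v = v
      simp only [commutatorElement_def, map_mul, Module.End.mul_apply, hb', map_smul, ha', hd, hc,
        smul_smul]
      have : d⁻¹ * (c⁻¹ * (d * c)) = 1 := by field_simp
      rw [this, one_smul]
    intro a ha
    exact h1 ha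
  have hKK : ⁅K, K⁆.Normal := Subgroup.commutator_normal K K
  let W : Submodule ℂ V :=
    { carrier := {w | ∀ a ∈ ⁅K, K⁆, ρ a w = w}
      zero_mem' := by intro a _; simp
      add_mem' := by
        intro x y hx hy a ha
        rw [map_add, hx a ha, hy a ha]
      smul_mem' := by
        intro c x hx a ha
        rw [map_smul, hx a ha] }
  have hW : W = ⊤ := by
    apply hirr W
    · intro h0
      have : v ∈ W := hfix
      rw [h0, Submodule.mem_bot] at this
      exact hv this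
    · intro g w hw a ha
      have h1 : ρ a * ρ g = ρ g * ρ (g⁻¹ * a * g) := by
        rw [← map_mul, ← map_mul]; congr 1; group
      have h2 := congrArg (fun T : V →ₗ[ℂ] V => T w) h1
      simp only [Module.End.mul_apply] at h2
      have h3 : g⁻¹ * a * g ∈ ⁅K, K⁆ := by simpa using hKK.conj_mem a ha g⁻¹
      rw [h2, hw _ h3]
  have hcomm : ∀ a ∈ K, ∀ b ∈ K, ρ a * ρ b = ρ b * ρ a := by
    intro a ha b hb
    have h1 : ρ ⁅a, b⁆ = 1 := by
      apply LinearMap.ext
      intro w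
      have : w ∈ W := by rw [hW]; exact Submodule.mem_top
      exact this _ (Subgroup.commutator_mem_commutator ha hb)
    have h2 : a * b = ⁅a, b⁆ * (b * a) := by rw [commutatorElement_def]; group
    rw [← map_mul, h2, map_mul, h1, one_mul, map_mul]
  have hle : K ≤ Zs ρ := by
    intro a ha
    obtain ⟨c, hc⟩ := hqp K hKn hcomm a ha
    exact mem_Zs ρ hc
  exact fun h => hK0 (by
    have h1 := Subgroup.index_dvd_of_le hle
    rw [h] at h1
    exact Nat.eq_zero_of_zero_dvd h1)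

lemma Gam_finite (hs : Group.IsSolvable G) (hirr : IrrR ρ) (hqp : QP ρ) : Finite (Gam ρ) := by
  have hZ := Zs_index ρ hs hirr hqp
  have hZfi : (Zs ρ).FiniteIndex := ⟨hZ⟩
  have hfq : Finite (G ⧸ Zs ρ) := Subgroup.finite_quotient_of_finiteIndex
  have hn : 0 < finrank ℂ V := finrank_pos
  have hB : Finite (Bsc ρ) := by
    have h1 : Finite {c : ℂ | c ^ finrank ℂ V = 1} := by
      have : {c : ℂ | c ^ finrank ℂ V = 1}.Finite := by
        refine ((Polynomial.nthRoots (finrank ℂ V) (1 : ℂ)).toFinset.finite_toSet).subset ?_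
        intro c hc
        simpa [Polynomial.mem_nthRoots hn] using hc
      exact this
    refine Finite.of_injective (fun b : Bsc ρ => (⟨(sig ρ b : ℂˣ), ?_⟩ :
      {c : ℂ | c ^ finrank ℂ V = 1})) ?_
    · have h2 := ((mem_Gam ρ _).1 b.1.2).2
      rw [← sig_spec ρ b, sc_val, LinearMap.det_smul] at h2
      simpa using h2
    · intro a b hab
      apply sig_inj ρ
      exact Units.ext (congrArg Subtype.val hab)
  choose cc gg hcg using exists_phi ρ
  have hQ : Finite (Gam ρ ⧸ Bsc ρ) := by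
    refine Finite.of_injective (fun q : Gam ρ ⧸ Bsc ρ =>
      (QuotientGroup.mk (gg q.out) : G ⧸ Zs ρ)) ?_
    intro q q' h
    obtain ⟨c, hc⟩ := QuotientGroup.eq.1 h
    rw [← QuotientGroup.out_eq' q, ← QuotientGroup.out_eq' q']
    apply QuotientGroup.eq.2
    refine Subgroup.mem_subgroupOf.2 ⟨(cc q.out)⁻¹ * cc q'.out * c, ?_⟩
    rw [Subgroup.coe_mul, Subgroup.coe_inv, ← hcg q.out, ← hcg q'.out, ← map_inv, ← map_mul]
    show _ = phi ρ ((cc q.out)⁻¹ * cc q'.out, (gg q.out)⁻¹ * gg q'.out)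
    rw [phi_apply, hc, map_mul]
  exact Finite.of_equiv _ (Subgroup.groupEquivQuotientProdSubgroup (s := Bsc ρ)).symm

/-- maximality of the scalars -/
lemma Bsc_max (hqp : QP ρ) (B' : Subgroup (Gam ρ)) (hB' : B'.Normal)
    (hc : ∀ a ∈ B', ∀ b ∈ B', a * b = b * a) : B' ≤ Bsc ρ := by
  intro u hu
  obtain ⟨c, g, h⟩ := exists_phi ρ u
  have hg : g ∈ pull ρ B' := ⟨c, u, hu, h⟩
  obtain ⟨d, hd⟩ := hqp (pull ρ B') (pull_normal ρ B' hB') (pull_comm ρ B' hc) g hg
  obtain ⟨e, he⟩ := sc_mem (ρ.toHomUnits g) (c := d) hd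
  refine Subgroup.mem_subgroupOf.2 ⟨c * e, ?_⟩
  rw [map_mul, he, ← h, phi_apply]

end

end Pool.Agent.U350.PG
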