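import Mathlib

/-!
# Pairings of finite groups with values in the scalars
-/

set_option autoImplicit false

namespace Pool.Agent.U350.PG

/-- the pairing given by the commutators -/
theorem pair_bound {Γ : Type*} [Group Γ] [Finite Γ] (B X Y K : Subgroup Γ)
    (hBc : ∀ b ∈ B, ∀ g, b * g = g * b) (σ : B →* ℂˣ) (hσ : Function.Injective σ) (hBY : B ≤ Y)
    (hXY : ∀ x ∈ X, ∀ y ∈ Y, x * y * x⁻¹ * y⁻¹ ∈ B)
    (hK : ∀ x ∈ X, (∀ y ∈ Y, x * y = y * x) → x ∈ K) :
    Nat.card X * Nat.card B ≤ Nat.card Y * Nat.card K := by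
  classical
  let Ψ : X →* (Y →* ℂˣ) :=
    { toFun := fun x =>
        { toFun := fun y => σ ⟨x * y * (x : Γ)⁻¹ * (y : Γ)⁻¹, hXY x x.2 y y.2⟩
          map_one' := by
            have : (⟨x * (1 : Y) * (x : Γ)⁻¹ * ((1 : Y) : Γ)⁻¹, hXY x x.2 _ (1 : Y).2⟩ : B) = 1 := by
              apply Subtype.ext; simp
            rw [this, map_one]
          map_mul' := by
            intro y z
            rw [← map_mul]
            congr 1
            apply Subtype.ext
            have h1 := hBc _ (hXY x x.2 z z.2) (y : Γ)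
            simp only [Subgroup.coe_mul]
            calc (x : Γ) * (y * z) * (x : Γ)⁻¹ * (y * z : Γ)⁻¹
                = (x * y * (x : Γ)⁻¹) * (x * z * (x : Γ)⁻¹ * (z : Γ)⁻¹) * (y : Γ)⁻¹ := by group
              _ = (x * y * (x : Γ)⁻¹) * ((x * z * (x : Γ)⁻¹ * (z : Γ)⁻¹) * (y : Γ)⁻¹) := by
                  simp only [mul_assoc]
              _ = (x * y * (x : Γ)⁻¹) * ((y : Γ)⁻¹ * (x * z * (x : Γ)⁻¹ * (z : Γ)⁻¹)) := by
                  rw [hBc _ (hXY x x.2 z z.2) (y : Γ)⁻¹]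
              _ = _ := by simp only [mul_assoc] }
      map_one' := by
        ext y
        have : (⟨(1 : X) * y * ((1 : X) : Γ)⁻¹ * (y : Γ)⁻¹, hXY _ (1 : X).2 y y.2⟩ : B) = 1 := by
          apply Subtype.ext; simp
        simp only [MonoidHom.coe_mk, OneHom.coe_mk, MonoidHom.one_apply]
        rw [this, map_one]
      map_mul' := by
        intro x z
        apply MonoidHom.ext
        intro y
        simp only [MonoidHom.coe_mk, OneHom.coe_mk, MonoidHom.mul_apply]
        rw [← map_mul]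
        congr 1
        apply Subtype.ext
        simp only [Subgroup.coe_mul]
        calc (x * z : Γ) * y * (x * z : Γ)⁻¹ * (y : Γ)⁻¹
            = x * (z * y * (z : Γ)⁻¹ * (y : Γ)⁻¹) * (y * (x : Γ)⁻¹ * (y : Γ)⁻¹) := by group
          _ = (z * y * (z : Γ)⁻¹ * (y : Γ)⁻¹) * x * (y * (x : Γ)⁻¹ * (y : Γ)⁻¹) := by
              rw [hBc _ (hXY z z.2 y y.2) (x : Γ)]
          _ = (z * y * (z : Γ)⁻¹ * (y : Γ)⁻¹) * (x * y * (x : Γ)⁻¹ * (y : Γ)⁻¹) := by
              simp only [mul_assoc]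
          _ = (x * y * (x : Γ)⁻¹ * (y : Γ)⁻¹) * (z * y * (z : Γ)⁻¹ * (y : Γ)⁻¹) := by
              rw [hBc _ (hXY z z.2 y y.2)] }
  have hΨ : ∀ (x : X) (y : Y), Ψ x y = σ ⟨x * y * (x : Γ)⁻¹ * (y : Γ)⁻¹, hXY x x.2 y y.2⟩ :=
    fun _ _ => rfl
  -- the kernel
  have hker : Nat.card Ψ.ker ≤ Nat.card K := by
    have hf : ∀ x : Ψ.ker, ((x : X) : Γ) ∈ K := by
      intro x
      apply hK _ x.1.2
      intro y hy
      have h1 : Ψ x.1 ⟨y, hy⟩ = 1 := by
        have := x.2
        rw [MonoidHom.mem_ker] at this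
        rw [this]; rfl
      rw [hΨ, ← map_one σ] at h1
      have h2 := congrArg Subtype.val (hσ h1)
      simp only [Subgroup.coe_one] at h2
      have h3 : ((x : X) : Γ) * y * ((x : X) : Γ)⁻¹ * y⁻¹ = 1 := h2
      have h4 : ((x : X) : Γ) * y = y * (x : X) := by
        rw [mul_inv_eq_one, mul_inv_eq_iff_eq_mul] at h3
        exact h3
      exact h4
    exact Nat.card_le_card_of_injective (fun x : Ψ.ker => (⟨((x : X) : Γ), hf x⟩ : K))
      (fun a b hab => Subtype.ext (Subtype.ext (congrArg (fun k : K => (k : Γ)) hab)))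
  -- the range
  set B' : Subgroup Y := B.subgroupOf Y with hB'
  have hfinY : Finite (Y ⧸ B') := inferInstance
  have := Fintype.ofFinite (Y ⧸ B')
  have hfR : Finite Ψ.range := by
    have : Finite (Set.range Ψ) := Set.finite_range Ψ
    exact this
  have := Fintype.ofFinite Ψ.range
  have htriv : ∀ χ : Ψ.range, ∀ b : B', (χ : Y →* ℂˣ) b = 1 := by
    rintro ⟨_, x, rfl⟩ b
    show Ψ x b = 1
    rw [hΨ]
    have hb : ((b : Y) : Γ) ∈ B := Subgroup.mem_subgroupOf.1 b.2
    have : (⟨x * (b : Y) * (x : Γ)⁻¹ * ((b : Y) : Γ)⁻¹, hXY x x.2 b b.1.2⟩ : B) = 1 := by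
      apply Subtype.ext
      show (x : Γ) * (b : Y) * (x : Γ)⁻¹ * ((b : Y) : Γ)⁻¹ = 1
      rw [← hBc _ hb x]
      group
    rw [this, map_one]
  have hR : Nat.card Ψ.range ≤ Nat.card (Y ⧸ B') := by
    let ι : Ψ.range → (Y →* ℂ) := fun χ => (Units.coeHom ℂ).comp (χ : Y →* ℂˣ)
    have hι : Function.Injective ι := by
      intro χ ψ h
      apply Subtype.ext
      apply MonoidHom.ext
      intro y
      have := DFunLike.congr_fun h y
      exact Units.ext this
    have h1 : LinearIndependent ℂ (fun χ : Ψ.range => (ι χ : Y → ℂ)) :=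
      (linearIndependent_monoidHom Y ℂ).comp ι hι
    let P : ((Y ⧸ B') → ℂ) →ₗ[ℂ] (Y → ℂ) :=
      LinearMap.funLeft ℂ ℂ (fun y : Y => (QuotientGroup.mk y : Y ⧸ B'))
    let v : Ψ.range → ((Y ⧸ B') → ℂ) := fun χ q => ι χ q.out
    have h2 : ∀ χ, P (v χ) = (ι χ : Y → ℂ) := by
      intro χ
      funext y
      show ι χ (Quotient.out (QuotientGroup.mk y : Y ⧸ B')) = ι χ y
      have h3 : (QuotientGroup.mk (Quotient.out (QuotientGroup.mk y : Y ⧸ B')) : Y ⧸ B') =
          QuotientGroup.mk y := QuotientGroup.out_eq' _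
      have h4 := QuotientGroup.eq.1 h3
      have h5 : (χ : Y →* ℂˣ) ((Quotient.out (QuotientGroup.mk y : Y ⧸ B'))⁻¹ * y) = 1 :=
        htriv χ ⟨_, h4⟩
      rw [map_mul, map_inv, inv_mul_eq_one] at h5
      show (((χ : Y →* ℂˣ) _ : ℂˣ) : ℂ) = (((χ : Y →* ℂˣ) y : ℂˣ) : ℂ)
      rw [h5]
    have h3 : LinearIndependent ℂ v := by
      apply LinearIndependent.of_comp P
      have : (⇑P ∘ v) = fun χ : Ψ.range => (ι χ : Y → ℂ) := funext h2
      rw [this]; exact h1
    have h4 := h3.fintype_card_le_finrank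
    rw [Module.finrank_fintype_fun_eq_card] at h4
    rwa [Nat.card_eq_fintype_card, Nat.card_eq_fintype_card]
  have hX : Nat.card X = Nat.card Ψ.range * Nat.card Ψ.ker := by
    rw [Subgroup.card_eq_card_quotient_mul_card_subgroup Ψ.ker,
      Nat.card_congr (QuotientGroup.quotientKerEquivRange Ψ).toEquiv]
  have hY : Nat.card Y = Nat.card (Y ⧸ B') * Nat.card B := by
    rw [Subgroup.card_eq_card_quotient_mul_card_subgroup B',
      Nat.card_congr (Subgroup.subgroupOfEquivOfLe hBY).toEquiv]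
  calc Nat.card X * Nat.card B = Nat.card Ψ.range * Nat.card Ψ.ker * Nat.card B := by rw [hX]
    _ ≤ Nat.card (Y ⧸ B') * Nat.card K * Nat.card B :=
        Nat.mul_le_mul_right _ (Nat.mul_le_mul hR hker)
    _ = Nat.card Y * Nat.card K := by rw [hY]; ring

end Pool.Agent.U350.PG
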