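import Mathlib
import Pool.Agent.U350.PG.Fin
import Pool.Agent.U350.PG.Pair
import Pool.Agent.R683.OrdE

/-!
# Quasi-primitive solvable groups: a large subgroup with commutative image
-/

set_option autoImplicit false

namespace Pool.Agent.U350.PG

open Module Pool.Agent.R683.Ord Pool.Agent.Y552.CT

noncomputable section

/-- a maximal commutative subgroup -/
lemma exists_max_comm {Γ : Type} [Group Γ] [Finite Γ] (B E : Subgroup Γ) (hBE : B ≤ E)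
    (hB : ∀ a ∈ B, ∀ b ∈ B, a * b = b * a) :
    ∃ L : Subgroup Γ, B ≤ L ∧ L ≤ E ∧ (∀ a ∈ L, ∀ b ∈ L, a * b = b * a) ∧
      ∀ x ∈ E, (∀ y ∈ L, x * y = y * x) → x ∈ L := by
  classical
  obtain ⟨L, hL⟩ := (Set.toFinite {L : Subgroup Γ | B ≤ L ∧ L ≤ E ∧
    ∀ a ∈ L, ∀ b ∈ L, a * b = b * a}).exists_maximal ⟨B, le_rfl, hBE, hB⟩
  obtain ⟨h1, h2, h3⟩ := hL.prop
  refine ⟨L, h1, h2, h3, ?_⟩
  intro x hx hxL
  set k : Set Γ := (L : Set Γ) ∪ {x} with hk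
  have hcomm : ∀ a ∈ k, ∀ b ∈ k, a * b = b * a := by
    rintro a (ha | ha) b (hb | hb)
    · exact h3 a ha b hb
    · rw [Set.mem_singleton_iff.1 hb]; exact (hxL a ha).symm
    · rw [Set.mem_singleton_iff.1 ha]; exact hxL b hb
    · rw [Set.mem_singleton_iff.1 ha, Set.mem_singleton_iff.1 hb]
  have hc1 : Subgroup.closure k ≤ Subgroup.centralizer k := by
    rw [Subgroup.closure_le]
    intro a ha
    exact Subgroup.mem_centralizer_iff.2 fun b hb => hcomm b hb a ha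
  have hc2 : Subgroup.closure k ≤ Subgroup.centralizer (Subgroup.closure k : Set Γ) := by
    rw [Subgroup.closure_le]
    intro a ha
    refine Subgroup.mem_centralizer_iff.2 fun b hb => ?_
    exact (Subgroup.mem_centralizer_iff.1 (hc1 hb) a ha).symm
  have hmem : Subgroup.closure k ∈ {L : Subgroup Γ | B ≤ L ∧ L ≤ E ∧
      ∀ a ∈ L, ∀ b ∈ L, a * b = b * a} := by
    refine ⟨h1.trans ?_, ?_, ?_⟩
    · intro a ha
      exact Subgroup.subset_closure (Or.inl ha)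
    · rw [Subgroup.closure_le]
      rintro a (ha | ha)
      · exact h2 ha
      · rw [Set.mem_singleton_iff.1 ha]; exact hx
    · intro a ha b hb
      exact Subgroup.mem_centralizer_iff.1 (hc2 hb) a ha
  have hle : L ≤ Subgroup.closure k := fun a ha => Subgroup.subset_closure (Or.inl ha)
  have := hL.le_of_ge hmem hle
  exact this (Subgroup.subset_closure (Or.inr rfl))

variable {V : Type} [AddCommGroup V] [Module ℂ V] [FiniteDimensional ℂ V] [Nontrivial V]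
  {G : Type} [Group G] (ρ : G →* (V →ₗ[ℂ] V))

/-- elements of a section of class two are independent operators -/
lemma card_E [Finite (Gam ρ)] (E : Subgroup (Gam ρ)) (hBE : Bsc ρ ≤ E)
    (hEE : ∀ a ∈ E, ∀ b ∈ E, a * b * a⁻¹ * b⁻¹ ∈ Bsc ρ)
    (hC : ∀ c ∈ E, (∀ a ∈ E, c * a = a * c) → c ∈ Bsc ρ) :
    Nat.card E ≤ finrank ℂ V ^ 2 * Nat.card (Bsc ρ) := by
  classical
  set B' : Subgroup E := (Bsc ρ).subgroupOf E with hB'
  have hfinE : Finite (E ⧸ B') := inferInstance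
  have := Fintype.ofFinite (E ⧸ B')
  let op : Gam ρ → (V →ₗ[ℂ] V) := fun u => ((u : (V →ₗ[ℂ] V)ˣ) : V →ₗ[ℂ] V)
  have hop : ∀ a b : Gam ρ, op (a * b) = op a * op b := fun a b => by
    show (((a * b : Gam ρ) : (V →ₗ[ℂ] V)ˣ) : V →ₗ[ℂ] V) = _
    rw [Subgroup.coe_mul, Units.val_mul]
  have hop0 : ∀ a : Gam ρ, op a ≠ 0 := by
    intro a h
    have h1 : op a * op a⁻¹ = 1 := by
      rw [← hop, mul_inv_cancel]; rfl
    rw [h, zero_mul] at h1
    exact zero_ne_one h1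
  have hbop : ∀ b : Bsc ρ, op b = (sig ρ b : ℂ) • (1 : V →ₗ[ℂ] V) := by
    intro b
    show (((b : Gam ρ) : (V →ₗ[ℂ] V)ˣ) : V →ₗ[ℂ] V) = _
    rw [← sig_spec ρ b, sc_val]
  let T : E → (V →ₗ[ℂ] V) →ₗ[ℂ] (V →ₗ[ℂ] V) := fun a =>
    (LinearMap.mulLeft ℂ (op a)).comp (LinearMap.mulRight ℂ (op (a : Gam ρ)⁻¹))
  have hT : ∀ (a : E) (m : V →ₗ[ℂ] V), T a m = op a * (m * op (a : Gam ρ)⁻¹) := fun _ _ => rfl
  let v : E ⧸ B' → (V →ₗ[ℂ] V) := fun q => op (q.out : E)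
  let β : E → E ⧸ B' → ℂ := fun a q => (sig ρ ⟨_, hEE a a.2 (q.out : E) (q.out : E).2⟩ : ℂˣ)
  have hTv : ∀ a q, T a (v q) = β a q • v q := by
    intro a q
    rw [hT]
    show op a * (op (q.out : E) * op (a : Gam ρ)⁻¹) = _
    have h1 : (a : Gam ρ) * ((q.out : E) * (a : Gam ρ)⁻¹) =
        ((a : Gam ρ) * (q.out : E) * (a : Gam ρ)⁻¹ * ((q.out : E) : Gam ρ)⁻¹) * (q.out : E) := by
      group
    rw [← hop, ← hop, h1, hop, hbop ⟨_, hEE a a.2 (q.out : E) (q.out : E).2⟩, smul_mul_assoc,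
      one_mul]
  have hne : ∀ q q' : E ⧸ B', (∀ a, β a q = β a q') → q = q' := by
    intro q q' h
    rw [← QuotientGroup.out_eq' q, ← QuotientGroup.out_eq' q']
    apply QuotientGroup.eq.2
    apply Subgroup.mem_subgroupOf.2
    apply hC _ ((q.out : E)⁻¹ * q'.out).2
    intro a ha
    have h1 := h ⟨a, ha⟩
    have h2 := sig_inj ρ (Units.ext h1)
    have h3 : a * (q.out : E) * a⁻¹ * ((q.out : E) : Gam ρ)⁻¹ =
        a * (q'.out : E) * a⁻¹ * ((q'.out : E) : Gam ρ)⁻¹ := congrArg Subtype.val h2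
    rw [Subgroup.coe_mul, Subgroup.coe_inv]
    generalize ((q.out : E) : Gam ρ) = x at h3 ⊢
    generalize ((q'.out : E) : Gam ρ) = y at h3 ⊢
    have h4 : a * y * a⁻¹ = a * x * a⁻¹ * x⁻¹ * y := by rw [h3]; group
    calc x⁻¹ * y * a = (a * x⁻¹ * a⁻¹) * (a * x * a⁻¹ * x⁻¹ * y) * a := by group
      _ = (a * x⁻¹ * a⁻¹) * (a * y * a⁻¹) * a := by rw [h4]
      _ = a * (x⁻¹ * y) := by group
  have h1 : LinearIndependent ℂ v := Pool.Agent.Y314.CT3.indep_eig T v β hTv (fun q => hop0 _) hne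
  have h2 := h1.fintype_card_le_finrank
  rw [Module.finrank_linearMap, ← pow_two] at h2
  have hE : Nat.card E = Nat.card (E ⧸ B') * Nat.card (Bsc ρ) := by
    rw [Subgroup.card_eq_card_quotient_mul_card_subgroup B',
      Nat.card_congr (Subgroup.subgroupOfEquivOfLe hBE).toEquiv]
  rw [hE, Nat.card_eq_fintype_card (α := E ⧸ B')]
  exact Nat.mul_le_mul_right _ h2

/-- arithmetic -/
lemma num_fin {b e l C γ i n : ℕ} (hb : 0 < b) (hC : C ≤ e)
    (h1 : (3 * γ) ^ 5 * b ^ 12 ≤ C ^ 5 * e ^ 12) (h2 : e * b ≤ l * l) (h3 : e ≤ n ^ 2 * b)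
    (h4 : γ = i * l) (hn : 0 < n) (hbe : b ≤ e) : i ≤ n ^ 6 := by
  have he : 0 < e := hb.trans_le hbe
  have e1 : (3 * (i * l)) ^ 5 * b ^ 12 ≤ e ^ 17 := by
    rw [← h4]
    calc (3 * γ) ^ 5 * b ^ 12 ≤ C ^ 5 * e ^ 12 := h1
      _ ≤ e ^ 5 * e ^ 12 := Nat.mul_le_mul_right _ (Nat.pow_le_pow_left hC 5)
      _ = e ^ 17 := by ring
  have e2 : ((3 * (i * l)) ^ 5 * b ^ 12) ^ 2 ≤ (e ^ 17) ^ 2 := Nat.pow_le_pow_left e1 2
  have e3 : (e * b) ^ 5 ≤ (l * l) ^ 5 := Nat.pow_le_pow_left h2 5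
  have e4 : (3 * i) ^ 10 * b ^ 29 * e ^ 5 ≤ e ^ 29 * e ^ 5 := by
    calc (3 * i) ^ 10 * b ^ 29 * e ^ 5 = (3 * i) ^ 10 * b ^ 24 * (e * b) ^ 5 := by ring
      _ ≤ (3 * i) ^ 10 * b ^ 24 * (l * l) ^ 5 := Nat.mul_le_mul_left _ e3
      _ = ((3 * (i * l)) ^ 5 * b ^ 12) ^ 2 := by ring
      _ ≤ (e ^ 17) ^ 2 := e2
      _ = e ^ 29 * e ^ 5 := by ring
  have e5 : (3 * i) ^ 10 * b ^ 29 ≤ e ^ 29 := Nat.le_of_mul_le_mul_right e4 (by positivity)
  have e6 : (3 * i) ^ 10 * b ^ 29 ≤ n ^ 58 * b ^ 29 := by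
    calc (3 * i) ^ 10 * b ^ 29 ≤ e ^ 29 := e5
      _ ≤ (n ^ 2 * b) ^ 29 := Nat.pow_le_pow_left h3 29
      _ = n ^ 58 * b ^ 29 := by ring
  have e7 : (3 * i) ^ 10 ≤ n ^ 58 := Nat.le_of_mul_le_mul_right e6 (by positivity)
  have e8 : (3 * i) ^ 10 ≤ (n ^ 6) ^ 10 := by
    calc (3 * i) ^ 10 ≤ n ^ 58 := e7
      _ ≤ n ^ 60 := Nat.pow_le_pow_right hn (by norm_num)
      _ = (n ^ 6) ^ 10 := by ring
  have e9 : 3 * i ≤ n ^ 6 := (Nat.pow_le_pow_iff_left (by norm_num)).1 e8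
  omega

theorem quasi (hs : Group.IsSolvable G) (hirr : IrrR ρ) (hqp : QP ρ) :
    ∃ H : Subgroup G, H.index ≠ 0 ∧ H.index ≤ finrank ℂ V ^ 6 ∧
      ∀ a ∈ H, ∀ b ∈ H, ρ a * ρ b = ρ b * ρ a := by
  classical
  have hfin := Gam_finite ρ hs hirr hqp
  have hsol := Gam_solvable ρ hs
  have hn : 0 < finrank ℂ V := finrank_pos
  have hBc : Comm (Bsc ρ) := fun a ha b _ => Bsc_central ρ a ha b
  obtain ⟨E, hEn, hBE, hEB, hEE, hbd, hC⟩ := exists_E (lb_all (Nat.card (Gam ρ))) (Bsc ρ)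
    (Bsc_normal ρ) hBc (fun B' hB' hc hle => le_antisymm (Bsc_max ρ hqp B' hB' hc) hle) (by
      intro N _ _ _ _
      have h1 : Nat.card N ≤ Nat.card (Gam ρ) := Subgroup.card_le_card_group N
      have h2 : 0 < Nat.card (Bsc ρ) := Nat.card_pos
      calc Nat.card N ≤ Nat.card (Gam ρ) * 1 := by rw [mul_one]; exact h1
        _ ≤ _ := Nat.mul_le_mul_left _ h2)
  obtain ⟨L, hBL, hLE, hLc, hLmax⟩ := exists_max_comm (Bsc ρ) E hBE hBc
  have hidx := pull_index ρ L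
  refine ⟨pull ρ L, hidx.1, hidx.2.trans ?_, pull_comm ρ L hLc⟩
  by_cases hEeq : E = Bsc ρ
  · have htop : L = ⊤ := by
      rw [eq_top_iff]
      intro c _
      apply hBL
      apply hC c (fun b hb => (Bsc_central ρ b hb c).symm)
      intro a ha
      rw [hEeq] at ha
      exact (Bsc_central ρ a ha c).symm
    rw [htop, Subgroup.index_top]
    exact Nat.one_le_pow _ _ hn
  · have h1 := hbd hEeq
    have hb : 0 < Nat.card (Bsc ρ) := Nat.card_pos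
    have hCE : Nat.card (CE (Bsc ρ) E hEn) ≤ Nat.card E := by
      have h2 := pair_bound (Bsc ρ) (CE (Bsc ρ) E hEn) E (Bsc ρ) (Bsc_central ρ) (sig ρ)
        (sig_inj ρ) hBE (fun x hx y hy => hx y hy) (fun x _ hxy =>
          hC x (fun b hb => (Bsc_central ρ b hb x).symm) hxy)
      exact Nat.le_of_mul_le_mul_right h2 hb
    have h2 := pair_bound (Bsc ρ) E L L (Bsc_central ρ) (sig ρ)
        (sig_inj ρ) hBL (fun x hx y hy => hEE x hx y (hLE hy)) hLmax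
    have h3 := card_E ρ E hBE hEE (fun c _ hc =>
      hC c (fun b hb => (Bsc_central ρ b hb c).symm) hc)
    have h4 : Nat.card (Gam ρ) = L.index * Nat.card L := (Subgroup.index_mul_card L).symm
    have h5 : Nat.card (Bsc ρ) ≤ Nat.card E :=
      Nat.card_le_card_of_injective (Subgroup.inclusion hBE) (Subgroup.inclusion_injective hBE)
    exact num_fin hb hCE h1 h2 h3 h4 hn h5

end

end Pool.Agent.U350.PG
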