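import Mathlib
import Pool.Agent.U350.PG.Quasi

/-!
# Eigenvectors of subgroups of polynomial index of solvable linear groups
-/

set_option autoImplicit false

namespace Pool.Agent.U350.PG

open Module

theorem eig6_aux (n : ℕ) : ∀ (G : Type) [Group G] (_ : Group.IsSolvable G) (V : Type)
    [AddCommGroup V] [Module ℂ V] [FiniteDimensional ℂ V] [Nontrivial V] (ρ : G →* (V →ₗ[ℂ] V)),
    finrank ℂ V = n →
    ∃ H : Subgroup G, H.index ≠ 0 ∧ H.index ≤ n ^ 6 ∧
      ∃ v : V, v ≠ 0 ∧ ∀ h ∈ H, ∃ c : ℂ, ρ h v = c • v := by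
  induction n using Nat.strong_induction_on with
  | _ n ih =>
    intro G _ hs V _ _ _ _ ρ hn
    have step : ∀ (K : Subgroup G) (W : Submodule ℂ V), K.index ≠ 0 → W ≠ ⊥ → W ≠ ⊤ →
        (∀ g ∈ K, ∀ w ∈ W, ρ g w ∈ W) → K.index * finrank ℂ W ≤ finrank ℂ V →
        ∃ H : Subgroup G, H.index ≠ 0 ∧ H.index ≤ n ^ 6 ∧
          ∃ v : V, v ≠ 0 ∧ ∀ h ∈ H, ∃ c : ℂ, ρ h v = c • v := by
      intro K W hK hW hWt hinv hidx
      have hnt : Nontrivial W := Submodule.nontrivial_iff_ne_bot.2 hW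
      let ρ' : K →* (W →ₗ[ℂ] W) :=
        { toFun := fun h => (ρ h).restrict (hinv h h.2)
          map_one' := by ext w; simp
          map_mul' := by intro x y; ext w; simp }
      have hlt : finrank ℂ W < n := by
        rw [← hn]; exact Submodule.finrank_lt hWt
      have hsH : Group.IsSolvable K := inferInstance
      obtain ⟨H, hH, hH6, v, hv, hv2⟩ := ih _ hlt K hsH W ρ' rfl
      refine ⟨H.map K.subtype, ?_, ?_, v, ?_, ?_⟩
      · rw [Subgroup.index_map_subtype]
        exact mul_ne_zero hH hK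
      · rw [Subgroup.index_map_subtype]
        calc H.index * K.index ≤ finrank ℂ W ^ 6 * K.index ^ 6 :=
              Nat.mul_le_mul hH6 (Nat.le_self_pow (by norm_num) _)
          _ = (K.index * finrank ℂ W) ^ 6 := by ring
          _ ≤ n ^ 6 := Nat.pow_le_pow_left (hidx.trans hn.le) 6
      · intro h; exact hv (Subtype.ext h)
      · rintro _ ⟨k, hk, rfl⟩
        obtain ⟨c, hc⟩ := hv2 k hk
        exact ⟨c, congrArg Subtype.val hc⟩
    by_cases hirr : IrrR ρ
    · by_cases hqp : QP ρ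
      · obtain ⟨H, hH, hH6, hc⟩ := quasi ρ hs hirr hqp
        obtain ⟨v, hv, hv2⟩ := eig_common (ρ '' (H : Set G)) (by
          rintro _ ⟨a, ha, rfl⟩ _ ⟨b, hb, rfl⟩
          exact hc a ha b hb)
        exact ⟨H, hH, by rw [← hn]; exact hH6, v, hv, fun h hh => hv2 _ ⟨h, hh, rfl⟩⟩
      · unfold QP at hqp
        push Not at hqp
        obtain ⟨A, hA, hc, a, ha, hns⟩ := hqp
        obtain ⟨K, W, hK, hW, hWt, hinv, hidx⟩ := clif ρ A hA hc ⟨a, ha, hns⟩
        exact step K W hK hW hWt hinv hidx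
    · unfold IrrR at hirr
      push Not at hirr
      obtain ⟨W, hW, hinv, hWt⟩ := hirr
      refine step ⊤ W (by simp) hW hWt (fun g _ => hinv g) ?_
      rw [Subgroup.index_top, one_mul]
      exact Submodule.finrank_le W

/-- **Eigenvectors of subgroups of polynomial index.** A solvable group acting linearly on a complex
space of dimension `n ≥ 1` has a subgroup of index at most `n ^ 6` with a common eigenvector. -/
theorem eig6 (G : Type) [Group G] (hs : Group.IsSolvable G) (V : Type) [AddCommGroup V] [Module ℂ V]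
    [FiniteDimensional ℂ V] [Nontrivial V] (ρ : G →* (V →ₗ[ℂ] V)) :
    ∃ H : Subgroup G, H.index ≠ 0 ∧ H.index ≤ finrank ℂ V ^ 6 ∧
      ∃ v : V, v ≠ 0 ∧ ∀ h ∈ H, ∃ c : ℂ, ρ h v = c • v :=
  eig6_aux _ G hs V ρ rfl

end Pool.Agent.U350.PG
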