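import Mathlib

/-!
# Extension of an equivariant additive map to a crossed homomorphism
-/

set_option autoImplicit false

namespace Pool.Agent.U350.PG

universe u

section

variable {H : Type u} [Group H] (χ : H →* ℂ)

/-- crossed homomorphisms on a subgroup -/
def Cr (M : Subgroup H) (c : H → ℂ) : Prop := ∀ a ∈ M, ∀ b ∈ M, c (a * b) = c a + χ a * c b

lemma chi_inv (a : H) : χ a * χ a⁻¹ = 1 := by rw [← map_mul, mul_inv_cancel, map_one]

lemma chi_ne (a : H) : χ a ≠ 0 := fun h => by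
  have := chi_inv χ a
  rw [h, zero_mul] at this
  exact zero_ne_one this

lemma chi_conj (a b : H) : χ (a * b * a⁻¹) = χ b := by
  rw [map_mul, map_mul, mul_right_comm, chi_inv, one_mul]

lemma chi_comm (a b : H) : χ (a * b * a⁻¹ * b⁻¹) = 1 := by
  rw [map_mul, chi_conj, chi_inv]

variable {χ}

lemma Cr.one {M : Subgroup H} {c : H → ℂ} (h : Cr χ M c) : c 1 = 0 := by
  have := h 1 M.one_mem 1 M.one_mem
  rw [mul_one, map_one, one_mul] at this
  linear_combination -this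

lemma Cr.inv {M : Subgroup H} {c : H → ℂ} (h : Cr χ M c) {a : H} (ha : a ∈ M) :
    χ a * c a⁻¹ = - c a := by
  have h1 := h a ha a⁻¹ (M.inv_mem ha)
  rw [mul_inv_cancel, h.one] at h1
  linear_combination -h1

lemma Cr.comm {M : Subgroup H} {c : H → ℂ} (h : Cr χ M c) {t x : H} (ht : t ∈ M) (hx : x ∈ M)
    (ht0 : c t = 0) : c (t * x * t⁻¹ * x⁻¹) = (χ t - 1) * c x := by
  have h1 := h.inv ht
  rw [ht0, neg_zero] at h1
  have h2 : c t⁻¹ = 0 := by
    rcases mul_eq_zero.1 h1 with h3 | h3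
    · exact absurd h3 (chi_ne χ t)
    · exact h3
  rw [h _ (M.mul_mem (M.mul_mem ht hx) (M.inv_mem ht)) _ (M.inv_mem hx),
    h _ (M.mul_mem ht hx) _ (M.inv_mem ht), h _ ht _ hx, ht0, h2, chi_conj]
  linear_combination h.inv hx

/-- the data of a filtration -/
structure Filt (χ : H →* ℂ) (N B : Subgroup H) (F : ℕ → Subgroup H) (s : ℕ) : Prop where
  zero : F 0 = N
  top : F s = B
  anti : ∀ j, F (j + 1) ≤ F j
  comm : ∀ j, ∀ n ∈ N, ∀ x ∈ F j, n * x * n⁻¹ * x⁻¹ ∈ F (j + 1)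
  one : ∀ x ∈ F 1, χ x = 1
  le : ∀ j, B ≤ F j

variable {N B : Subgroup H} {F : ℕ → Subgroup H} {s : ℕ}

lemma Filt.mono (hF : Filt χ N B F s) {i j : ℕ} (h : i ≤ j) : F j ≤ F i :=
  antitone_nat_of_succ_le hF.anti h

lemma Filt.leN (hF : Filt χ N B F s) (j : ℕ) : F j ≤ N := by
  induction j with
  | zero => exact hF.zero.le
  | succ j ih => exact (hF.anti j).trans ih

lemma Filt.le1 (hF : Filt χ N B F s) (j : ℕ) : F (j + 1) ≤ F 1 := by
  induction j with
  | zero => exact le_rfl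
  | succ j ih => exact (hF.anti _).trans ih

lemma Filt.chiB (hF : Filt χ N B F s) {b : H} (hb : b ∈ B) : χ b = 1 := hF.one _ (hF.le 1 hb)

lemma Filt.conj (hF : Filt χ N B F s) (j : ℕ) {n x : H} (hn : n ∈ N) (hx : x ∈ F j) :
    n * x * n⁻¹ ∈ F j := by
  have h1 := hF.anti j (hF.comm j n hn x hx)
  have h2 := (F j).mul_mem h1 hx
  rwa [inv_mul_cancel_right] at h2

/-- crossed homomorphisms vanishing on `B` are principal -/
lemma principal (hF : Filt χ N B F s) {δ : H → ℂ} (hδ : Cr χ N δ) (hB : ∀ b ∈ B, δ b = 0) {t : H}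
    (ht : t ∈ N) (hχ : χ t ≠ 1) : ∀ n ∈ N, δ n = (1 - χ n) * (δ t / (1 - χ t)) := by
  have h1 : (1 - χ t) ≠ 0 := sub_ne_zero.2 hχ.symm
  set p := δ t / (1 - χ t) with hp
  set δ' : H → ℂ := fun n => δ n - (1 - χ n) * p with hδ'
  have hcr : Cr χ N δ' := by
    intro a ha b hb
    simp only [hδ']
    rw [hδ a ha b hb, map_mul]
    ring
  have ht0 : δ' t = 0 := by
    simp only [hδ', hp]
    rw [mul_div_cancel₀ _ h1, sub_self]
  have hB' : ∀ b ∈ B, δ' b = 0 := by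
    intro b hb
    simp only [hδ']
    rw [hB b hb, hF.chiB hb]
    ring
  have key : ∀ j, ∀ x ∈ F j, δ' x = 0 ∨ j < s := by
    intro j x hx
    by_cases hj : j < s
    · exact Or.inr hj
    · left
      have h2 : F j ≤ F s := hF.mono (not_lt.1 hj)
      exact hB' x (by rw [← hF.top]; exact h2 hx)
  have down : ∀ k j, s ≤ j + k → ∀ x ∈ F j, δ' x = 0 := by
    intro k
    induction k with
    | zero =>
      intro j hj x hx
      rcases key j x hx with h | h
      · exact h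
      · omega
    | succ k ih =>
      intro j hj x hx
      have h2 := ih (j + 1) (by omega) _ (hF.comm j t ht x hx)
      rw [hcr.comm ht (hF.leN j hx) ht0] at h2
      rcases mul_eq_zero.1 h2 with h3 | h3
      · exact absurd (sub_eq_zero.1 h3) hχ
      · exact h3
  intro n hn
  have h2 := down s 0 (by omega) n (by rw [hF.zero]; exact hn)
  simp only [hδ'] at h2
  linear_combination h2

/-- one step of the extension -/
lemma step_ext (hF : Filt χ N B F s) {t : H} (ht : t ∈ N) (hχ : χ t ≠ 1) (j : ℕ) (hj : 1 ≤ j)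
    {f : H → ℂ}
    (h : ∃ g : H → ℂ, (∀ a ∈ F (j + 1), ∀ b ∈ F (j + 1), g (a * b) = g a + g b) ∧
      (∀ n ∈ N, ∀ x ∈ F (j + 1), g (n * x * n⁻¹) = χ n * g x) ∧ ∀ b ∈ B, g b = f b) :
    ∃ g : H → ℂ, (∀ a ∈ F j, ∀ b ∈ F j, g (a * b) = g a + g b) ∧
      (∀ n ∈ N, ∀ x ∈ F j, g (n * x * n⁻¹) = χ n * g x) ∧ ∀ b ∈ B, g b = f b := by
  obtain ⟨g, hadd, heq, hfB⟩ := h
  have h1 : (χ t - 1) ≠ 0 := sub_ne_zero.2 hχ
  have hχj : ∀ x ∈ F j, χ x = 1 := by
    intro x hx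
    obtain ⟨k, rfl⟩ := Nat.exists_eq_add_of_le hj
    rw [add_comm] at hx
    exact hF.one x (hF.le1 k hx)
  have hg1 : g 1 = 0 := by
    have := hadd 1 (F (j + 1)).one_mem 1 (F (j + 1)).one_mem
    rw [mul_one] at this
    linear_combination -this
  have hginv : ∀ x ∈ F (j + 1), g x⁻¹ = - g x := by
    intro x hx
    have := hadd x hx x⁻¹ ((F (j + 1)).inv_mem hx)
    rw [mul_inv_cancel, hg1] at this
    linear_combination -this
  set G : H → ℂ := fun x => g (t * x * t⁻¹ * x⁻¹) / (χ t - 1) with hG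
  have hGadd : ∀ a ∈ F j, ∀ b ∈ F j, G (a * b) = G a + G b := by
    intro a ha b hb
    have ha' := hF.leN j ha
    have h2 : t * (a * b) * t⁻¹ * (a * b)⁻¹ =
        (t * a * t⁻¹ * a⁻¹) * (a * (t * b * t⁻¹ * b⁻¹) * a⁻¹) := by group
    simp only [hG]
    rw [h2, hadd _ (hF.comm j t ht a ha) _ (hF.conj (j + 1) ha' (hF.comm j t ht b hb)),
      heq a ha' _ (hF.comm j t ht b hb), hχj a ha, one_mul, add_div]
  have hGg : ∀ x ∈ F (j + 1), G x = g x := by
    intro x hx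
    simp only [hG]
    rw [hadd _ (hF.conj (j + 1) ht hx) _ ((F (j + 1)).inv_mem hx), heq t ht x hx, hginv x hx]
    field_simp
    ring
  refine ⟨G, hGadd, ?_, ?_⟩
  · intro n hn x hx
    have hxN := hF.leN j hx
    have hδ : Cr χ N (fun n => g (n * x * n⁻¹ * x⁻¹)) := by
      intro a ha b hb
      have h2 : a * b * x * (a * b)⁻¹ * x⁻¹ =
          (a * (b * x * b⁻¹ * x⁻¹) * a⁻¹) * (a * x * a⁻¹ * x⁻¹) := by group
      show g (a * b * x * (a * b)⁻¹ * x⁻¹) = _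
      rw [h2, hadd _ (hF.conj (j + 1) ha (hF.comm j b hb x hx)) _ (hF.comm j a ha x hx),
        heq a ha _ (hF.comm j b hb x hx)]
      ring
    have hδB : ∀ b ∈ B, g (b * x * b⁻¹ * x⁻¹) = 0 := by
      intro b hb
      have hb1 := hF.le (j + 1) hb
      have h2 : b * x * b⁻¹ * x⁻¹ = b * (x * b⁻¹ * x⁻¹) := by group
      rw [h2, hadd _ hb1 _ (hF.conj (j + 1) hxN ((F (j + 1)).inv_mem hb1)),
        heq x hxN _ ((F (j + 1)).inv_mem hb1), hχj x hx, hginv b hb1]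
      ring
    have h3 := principal hF hδ hδB ht hχ n hn
    have h4 : n * x * n⁻¹ = (n * x * n⁻¹ * x⁻¹) * x := by group
    rw [h4, hGadd _ (hF.anti j (hF.comm j n hn x hx)) x hx, hGg _ (hF.comm j n hn x hx)]
    rw [h3]
    simp only [hG]
    have h5 : (1 - χ t) ≠ 0 := sub_ne_zero.2 hχ.symm
    field_simp
    ring
  · intro b hb
    rw [hGg b (hF.le (j + 1) hb), hfB b hb]

/-- extension to `N` -/
lemma ext_N (hF : Filt χ N B F s) {t : H} (ht : t ∈ N) (hχ : χ t ≠ 1) {f : H → ℂ}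
    (hadd : ∀ a ∈ B, ∀ b ∈ B, f (a * b) = f a + f b)
    (heq : ∀ n ∈ N, ∀ b ∈ B, f (n * b * n⁻¹) = χ n * f b) :
    ∃ c : H → ℂ, Cr χ N c ∧ ∀ b ∈ B, c b = f b := by
  have key : ∀ k j, s ≤ j + k → 1 ≤ j → ∃ g : H → ℂ,
      (∀ a ∈ F j, ∀ b ∈ F j, g (a * b) = g a + g b) ∧
      (∀ n ∈ N, ∀ x ∈ F j, g (n * x * n⁻¹) = χ n * g x) ∧ ∀ b ∈ B, g b = f b := by
    intro k
    induction k with
    | zero =>
      intro j hj _
      have h2 : F j ≤ B := by
        rw [← hF.top]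
        exact hF.mono (by omega)
      exact ⟨f, fun a ha b hb => hadd a (h2 ha) b (h2 hb), fun n hn x hx => heq n hn x (h2 hx),
        fun _ _ => rfl⟩
    | succ k ih =>
      intro j hj hj1
      exact step_ext hF ht hχ j hj1 (ih (j + 1) (by omega) (by omega))
  obtain ⟨g, gadd, geq, gB⟩ := key s 1 (by omega) le_rfl
  have h1 : (χ t - 1) ≠ 0 := sub_ne_zero.2 hχ
  have hg1 : g 1 = 0 := by
    have := gadd 1 (F 1).one_mem 1 (F 1).one_mem
    rw [mul_one] at this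
    linear_combination -this
  have hcm : ∀ x ∈ N, t * x * t⁻¹ * x⁻¹ ∈ F 1 := fun x hx =>
    hF.comm 0 t ht x (by rw [hF.zero]; exact hx)
  refine ⟨fun x => g (t * x * t⁻¹ * x⁻¹) / (χ t - 1), ?_, ?_⟩
  · intro a ha b hb
    have h2 : t * (a * b) * t⁻¹ * (a * b)⁻¹ =
        (t * a * t⁻¹ * a⁻¹) * (a * (t * b * t⁻¹ * b⁻¹) * a⁻¹) := by group
    simp only
    rw [h2, gadd _ (hcm a ha) _ (hF.conj 1 ha (hcm b hb)), geq a ha _ (hcm b hb)]
    ring
  · intro b hb
    have hb1 := hF.le 1 hb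
    have hginv : g b⁻¹ = - g b := by
      have := gadd b hb1 b⁻¹ ((F 1).inv_mem hb1)
      rw [mul_inv_cancel, hg1] at this
      linear_combination -this
    simp only
    rw [gadd _ (hF.conj 1 ht hb1) _ ((F 1).inv_mem hb1), geq t ht b hb1, hginv, ← gB b hb]
    field_simp
    ring

/-- extension to the whole group -/
theorem ext_all (hF : Filt χ N B F s) (hN : N.Normal) (hBn : B.Normal) {t : H} (ht : t ∈ N)
    (hχ : χ t ≠ 1) {f : H → ℂ} (hadd : ∀ a ∈ B, ∀ b ∈ B, f (a * b) = f a + f b)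
    (heq : ∀ h : H, ∀ b ∈ B, f (h * b * h⁻¹) = χ h * f b) :
    ∃ c : H → ℂ, (∀ a b, c (a * b) = c a + χ a * c b) ∧ ∀ b ∈ B, c b = f b := by
  obtain ⟨c, hc, hcB⟩ := ext_N hF ht hχ hadd (fun n _ => heq n)
  have hBN : B ≤ N := by rw [← hF.zero]; exact hF.le 0
  have h1 : (1 - χ t) ≠ 0 := sub_ne_zero.2 hχ.symm
  have hD : ∀ h : H, Cr χ N (fun n => c (h * n * h⁻¹) - χ h * c n) := by
    intro h a ha b hb
    have h2 : h * (a * b) * h⁻¹ = (h * a * h⁻¹) * (h * b * h⁻¹) := by group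
    simp only
    rw [h2, hc _ (hN.conj_mem a ha h) _ (hN.conj_mem b hb h), hc a ha b hb, chi_conj]
    ring
  have hDB : ∀ h : H, ∀ b ∈ B, c (h * b * h⁻¹) - χ h * c b = 0 := by
    intro h b hb
    rw [hcB b hb, hcB _ (hBn.conj_mem b hb h), heq h b hb, sub_self]
  have hP : ∀ h : H, ∀ n ∈ N, c (h * n * h⁻¹) - χ h * c n =
      (1 - χ n) * ((c (h * t * h⁻¹) - χ h * c t) / (1 - χ t)) := fun h n hn =>
    principal hF (hD h) (hDB h) ht hχ n hn
  refine ⟨fun h => (c (h * t * h⁻¹) - χ h * c t) / (1 - χ t), ?_, ?_⟩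
  · intro a b
    simp only
    have h2 := hP a (b * t * b⁻¹) (hN.conj_mem t ht b)
    rw [chi_conj] at h2
    have h3 : a * b * t * (a * b)⁻¹ = a * (b * t * b⁻¹) * a⁻¹ := by group
    rw [h3, map_mul]
    have h4 := hP a t ht
    field_simp at h2 ⊢
    linear_combination h2
  · intro b hb
    have hbN := hBN hb
    simp only
    have h2 : c (b * t * b⁻¹) = c b + χ b * c t + χ (b * t) * c b⁻¹ := by
      rw [hc _ (N.mul_mem hbN ht) _ (N.inv_mem hbN), hc b hbN t ht]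
    have h3 := hc.inv hbN
    have h4 : χ b = 1 := hF.chiB hb
    rw [h4, one_mul] at h3
    rw [h2, map_mul, h4, h3, hcB b hb]
    field_simp
    ring

end

end Pool.Agent.U350.PG
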