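import Mathlib
import Pool.Agent.U350.PG.Ext

/-!
# Virtual nilpotency modulo a subgroup, filtrations
-/

set_option autoImplicit false

namespace Pool.Agent.U350.PG

open Subgroup
open scoped commutatorElement

section

variable {G : Type} [Group G]

/-- virtually nilpotent modulo `A` -/
def VNr (A : Subgroup G) : Prop := ∃ N : Subgroup G, N.index ≠ 0 ∧ ∃ s, N.lowerCentralSeries s ≤ A

lemma vn_of_vnr (h : VNr (⊥ : Subgroup G)) : Group.IsVirtuallyNilpotent G := by
  obtain ⟨N, hN, s, hs⟩ := h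
  exact ⟨N, isNilpotent_of_lowerCentralSeries_eq_bot (eq_bot_iff.2 hs), ⟨hN⟩⟩

lemma vnr_of_vn (C : Subgroup G) [C.Normal] (h : VNr (⊥ : Subgroup (G ⧸ C))) : VNr C := by
  obtain ⟨N, hN, s, hs⟩ := h
  have hsur := QuotientGroup.mk'_surjective C
  refine ⟨N.comap (QuotientGroup.mk' C), ?_, s, ?_⟩
  · rw [Subgroup.index_comap_of_surjective _ hsur]
    exact hN
  · have h1 : ((N.comap (QuotientGroup.mk' C)).lowerCentralSeries s).map (QuotientGroup.mk' C) =
        ⊥ := by
      rw [Subgroup.map_lowerCentralSeries, Subgroup.map_comap_eq_self_of_surjective hsur]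
      exact eq_bot_iff.2 hs
    rw [Subgroup.map_eq_bot_iff, QuotientGroup.ker_mk'] at h1
    exact h1

lemma VNr.quot (C A : Subgroup G) [C.Normal] (h : VNr A) :
    VNr (A.map (QuotientGroup.mk' C)) := by
  obtain ⟨N, hN, s, hs⟩ := h
  refine ⟨N.map (QuotientGroup.mk' C), ?_, s, ?_⟩
  · exact ne_zero_of_dvd_ne_zero hN (Subgroup.index_map_dvd N (QuotientGroup.mk'_surjective C))
  · rw [← Subgroup.map_lowerCentralSeries]
    exact Subgroup.map_mono hs

/-- virtually central subgroups -/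
lemma vnr_central (A K : Subgroup G) (h : VNr A) (hK : K.index ≠ 0)
    (hc : ∀ k ∈ K, ∀ a ∈ A, k * a * k⁻¹ * a⁻¹ = 1) : VNr (⊥ : Subgroup G) := by
  obtain ⟨N, hN, s, hs⟩ := h
  refine ⟨N ⊓ K, Subgroup.index_inf_ne_zero hN hK, s + 1, ?_⟩
  rw [Subgroup.lowerCentralSeries_succ, Subgroup.commutator_le]
  intro a ha k hk
  have h1 : a ∈ A := hs (Subgroup.lowerCentralSeries_mono s inf_le_left ha)
  have h2 := hc k hk.2 a h1
  rw [Subgroup.mem_bot, commutatorElement_eq_one_iff_mul_comm]
  have h3 : k * a = a * k := by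
    rw [mul_inv_eq_one, mul_inv_eq_iff_eq_mul] at h2
    exact h2
  exact h3.symm

/-- a normal subgroup of finite index above `A` -/
lemma VNr.normal (A : Subgroup G) [hA : A.Normal] (h : VNr A) :
    ∃ N : Subgroup G, N.Normal ∧ A ≤ N ∧ N.index ≠ 0 ∧ ∃ s, N.lowerCentralSeries s ≤ A := by
  obtain ⟨N, hN, s, hs⟩ := h
  have hfi : N.FiniteIndex := ⟨hN⟩
  have hcn : N.normalCore.Normal := Subgroup.normalCore_normal N
  have hc0 : N.normalCore.index ≠ 0 := (Subgroup.finiteIndex_normalCore (H := N)).index_ne_zero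
  refine ⟨N.normalCore ⊔ A, inferInstance, le_sup_right, ?_, s, ?_⟩
  · intro h0
    apply hc0
    have h1 := Subgroup.index_dvd_of_le (le_sup_left : N.normalCore ≤ N.normalCore ⊔ A)
    rw [h0] at h1
    exact Nat.eq_zero_of_zero_dvd h1
  · have h1 : ((N.normalCore ⊔ A).lowerCentralSeries s).map (QuotientGroup.mk' A) = ⊥ := by
      rw [Subgroup.map_lowerCentralSeries, Subgroup.map_sup]
      have h2 : A.map (QuotientGroup.mk' A) = ⊥ := by
        rw [Subgroup.map_eq_bot_iff, QuotientGroup.ker_mk']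
      rw [h2, sup_bot_eq, ← Subgroup.map_lowerCentralSeries, eq_bot_iff]
      calc (N.normalCore.lowerCentralSeries s).map (QuotientGroup.mk' A)
          ≤ (N.lowerCentralSeries s).map (QuotientGroup.mk' A) :=
            Subgroup.map_mono (Subgroup.lowerCentralSeries_mono s (Subgroup.normalCore_le N))
        _ ≤ A.map (QuotientGroup.mk' A) := Subgroup.map_mono hs
        _ = ⊥ := h2
    rw [Subgroup.map_eq_bot_iff, QuotientGroup.ker_mk'] at h1
    exact h1

end

/-- the filtration given by the lower central series -/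
lemma exists_filt {H : Type} [Group H] (χ : H →* ℂ) (N B : Subgroup H) (hBn : B.Normal)
    (hBN : B ≤ N) (hχ : ∀ b ∈ B, χ b = 1) {s : ℕ} (hs : N.lowerCentralSeries s ≤ B) :
    ∃ F, Filt χ N B F s := by
  refine ⟨fun j => N.lowerCentralSeries j ⊔ B, ?_⟩
  constructor
  · show N.lowerCentralSeries 0 ⊔ B = N
    rw [Subgroup.lowerCentralSeries_zero]
    exact sup_eq_left.2 hBN
  · show N.lowerCentralSeries s ⊔ B = B
    exact sup_eq_right.2 hs
  · intro j
    exact sup_le_sup_right (N.lowerCentralSeries_antitone (Nat.le_succ j)) B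
  · intro j n hn x hx
    obtain ⟨y, hy, b, hb, rfl⟩ := Subgroup.mem_sup_of_normal_right.1 hx
    have h1 : n * (y * b) * n⁻¹ * (y * b)⁻¹ =
        (n * y * n⁻¹ * y⁻¹) * (y * (n * b * n⁻¹ * b⁻¹) * y⁻¹) := by group
    rw [h1]
    apply Subgroup.mul_mem
    · apply Subgroup.mem_sup_left
      rw [Subgroup.lowerCentralSeries_succ]
      have h2 := Subgroup.commutator_mem_commutator hy hn
      have h3 := Subgroup.inv_mem _ h2
      have h4 : (⁅y, n⁆ : H)⁻¹ = n * y * n⁻¹ * y⁻¹ := by rw [commutatorElement_def]; group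
      rw [h4] at h3
      exact h3
    · apply Subgroup.mem_sup_right
      apply hBn.conj_mem
      exact B.mul_mem (hBn.conj_mem b hb n) (B.inv_mem hb)
  · intro x hx
    obtain ⟨y, hy, b, hb, rfl⟩ := Subgroup.mem_sup_of_normal_right.1 hx
    have h1 : (⁅N.lowerCentralSeries 0, N⁆ : Subgroup H) ≤ χ.toHomUnits.ker := by
      rw [Subgroup.commutator_le]
      intro a _ c _
      rw [MonoidHom.mem_ker, map_commutatorElement, commutatorElement_eq_one_iff_mul_comm,
        mul_comm]
    have h2 := h1 hy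
    rw [MonoidHom.mem_ker] at h2
    have h3 : χ y = 1 := congrArg (fun u : ℂˣ => (u : ℂ)) h2
    rw [map_mul, h3, hχ b hb, one_mul]
  · intro j
    exact le_sup_right

end Pool.Agent.U350.PG
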