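import Mathlib
import Pool.Agent.U350.PG.VN
import Pool.Agent.W963.GE.Index

/-!
# FC-central subgroups
-/

set_option autoImplicit false

namespace Pool.Agent.U350.PG

open Subgroup
open scoped commutatorElement Pointwise

section

variable {G : Type} [Group G]

/-- the lower central series of a finitely generated group is normally generated by finite sets -/
lemma lcs_fin (X : Set G) (hX : X.Finite) (hgen : Subgroup.closure X = ⊤) (s : ℕ) :
    ∃ Y : Set G, Y.Finite ∧ Y ⊆ (⊤ : Subgroup G).lowerCentralSeries s ∧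
      (⊤ : Subgroup G).lowerCentralSeries s ≤ Subgroup.normalClosure Y := by
  induction s with
  | zero =>
    refine ⟨X, hX, ?_, ?_⟩
    · rw [Subgroup.lowerCentralSeries_zero]
      exact fun x _ => Subgroup.mem_top x
    · rw [Subgroup.lowerCentralSeries_zero, ← hgen]
      exact Subgroup.closure_le_normalClosure
  | succ s ih =>
    obtain ⟨Y, hY, hYs, hle⟩ := ih
    refine ⟨Set.image2 (fun y x => ⁅y, x⁆) Y X, hY.image2 _ hX, ?_, ?_⟩
    · rintro _ ⟨y, hy, x, hx, rfl⟩
      rw [Subgroup.lowerCentralSeries_succ]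
      exact Subgroup.commutator_mem_commutator (hYs hy) (Subgroup.mem_top x)
    · set M := Subgroup.normalClosure (Set.image2 (fun y x => ⁅y, x⁆) Y X) with hM
      have hMn : M.Normal := Subgroup.normalClosure_normal
      -- the preimage of the center
      set Z : Subgroup G := (Subgroup.center (G ⧸ M)).comap (QuotientGroup.mk' M) with hZ
      have hZn : Z.Normal := inferInstance
      have hYZ : Y ⊆ Z := by
        intro y hy
        show QuotientGroup.mk' M y ∈ Subgroup.center (G ⧸ M)
        rw [Subgroup.mem_center_iff]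
        intro q
        obtain ⟨g, rfl⟩ := QuotientGroup.mk'_surjective M q
        have hg : g ∈ Subgroup.closure X := by rw [hgen]; trivial
        induction hg using Subgroup.closure_induction with
        | mem x hx =>
          have h1 : ⁅y, x⁆ ∈ M := Subgroup.subset_normalClosure ⟨y, hy, x, hx, rfl⟩
          rw [← QuotientGroup.ker_mk' M, MonoidHom.mem_ker, map_commutatorElement,
            commutatorElement_eq_one_iff_mul_comm] at h1
          exact h1.symm
        | one => rw [map_one, one_mul, mul_one]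
        | mul a b _ _ ha hb => rw [map_mul, mul_assoc, hb, ← mul_assoc, ha, mul_assoc]
        | inv a _ ha =>
          rw [map_inv, inv_mul_eq_iff_eq_mul, ← mul_assoc, ha, mul_assoc, mul_inv_cancel, mul_one]
      have h2 : (⊤ : Subgroup G).lowerCentralSeries s ≤ Z :=
        hle.trans (Subgroup.normalClosure_le_normal hYZ)
      rw [Subgroup.lowerCentralSeries_succ, Subgroup.commutator_le]
      intro a ha g _
      have h3 : QuotientGroup.mk' M a ∈ Subgroup.center (G ⧸ M) := h2 ha
      rw [← QuotientGroup.ker_mk' M, MonoidHom.mem_ker, map_commutatorElement,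
        commutatorElement_eq_one_iff_mul_comm]
      exact (Subgroup.mem_center_iff.1 h3 _).symm

/-- a finitely generated group which is virtually nilpotent modulo an FC-central subgroup is
virtually nilpotent -/
theorem vnr_fc (S : Set G) (hS : S.Finite) (hgen : Subgroup.closure S = ⊤) (A : Subgroup G)
    (h : VNr A) (hfc : ∀ a ∈ A, ∃ K : Subgroup G, K.index ≠ 0 ∧ ∀ k ∈ K, k * a * k⁻¹ * a⁻¹ = 1) :
    VNr (⊥ : Subgroup G) := by
  classical
  obtain ⟨N, hN, s, hs⟩ := h
  obtain ⟨Y, hY, hYs, hle⟩ := lcs_fin (W963.GE.TT S N N.index) (W963.GE.TT_finite S hS N _)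
    (W963.GE.TT_gen S hgen N hN le_rfl) s
  have hmap : ∀ x : N, x ∈ (⊤ : Subgroup N).lowerCentralSeries s → (x : G) ∈ N.lowerCentralSeries s := by
    intro x hx
    have h1 : (x : G) ∈ ((⊤ : Subgroup N).lowerCentralSeries s).map N.subtype := ⟨x, hx, rfl⟩
    rw [Subgroup.map_lowerCentralSeries, ← MonoidHom.range_eq_map, Subgroup.range_subtype] at h1
    exact h1
  have hfc' : ∀ y : N, ∃ K : Subgroup G, K.index ≠ 0 ∧
      (y ∈ Y → ∀ k ∈ K, k * (y : G) * k⁻¹ * (y : G)⁻¹ = 1) := by
    intro y
    by_cases hy : y ∈ Y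
    · obtain ⟨K, hK, h⟩ := hfc y (hs (hmap y (hYs hy)))
      exact ⟨K, hK, fun _ => h⟩
    · exact ⟨⊤, by rw [Subgroup.index_top]; exact one_ne_zero, fun h => absurd h hy⟩
  choose K hK hKy using hfc'
  have hI : ∀ F : Finset N, (⨅ y ∈ F, K y).index ≠ 0 := by
    intro F
    induction F using Finset.induction_on with
    | empty => simp
    | insert a F _ ih =>
      rw [Finset.iInf_insert]
      exact Subgroup.index_inf_ne_zero (hK a) ih
  set K1 : Subgroup G := ⨅ y ∈ hY.toFinset, K y with hK1
  have hfi : K1.FiniteIndex := ⟨hI _⟩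
  set K2 := K1.normalCore with hK2
  have hK2n : K2.Normal := Subgroup.normalCore_normal K1
  have hK2i : K2.index ≠ 0 := (Subgroup.finiteIndex_normalCore (H := K1)).index_ne_zero
  -- the centralizer of `K2`
  set Z : Subgroup N := (Subgroup.centralizer (K2 : Set G)).subgroupOf N with hZ
  have hcn : (Subgroup.centralizer (K2 : Set G)).Normal := inferInstance
  have hZn : Z.Normal := inferInstance
  have hYZ : Y ⊆ Z := by
    intro y hy
    show (y : G) ∈ Subgroup.centralizer (K2 : Set G)
    rw [Subgroup.mem_centralizer_iff]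
    intro k hk
    have h1 : k ∈ K1 := Subgroup.normalCore_le K1 hk
    have h2 : k ∈ K y := by
      have h3 : K1 ≤ K y := iInf₂_le y (hY.mem_toFinset.2 hy)
      exact h3 h1
    have h4 := hKy y hy k h2
    rw [mul_inv_eq_one, mul_inv_eq_iff_eq_mul] at h4
    exact h4
  have h2 : (⊤ : Subgroup N).lowerCentralSeries s ≤ Z :=
    hle.trans (Subgroup.normalClosure_le_normal hYZ)
  refine ⟨N ⊓ K2, Subgroup.index_inf_ne_zero hN hK2i, s + 1, ?_⟩
  rw [Subgroup.lowerCentralSeries_succ, Subgroup.commutator_le]
  intro a ha k hk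
  have h3 : a ∈ N.lowerCentralSeries s := Subgroup.lowerCentralSeries_mono s inf_le_left ha
  have h4 : a ∈ ((⊤ : Subgroup N).lowerCentralSeries s).map N.subtype := by
    rw [Subgroup.map_lowerCentralSeries, ← MonoidHom.range_eq_map, Subgroup.range_subtype]
    exact h3
  obtain ⟨a', ha', rfl⟩ := h4
  have h5 : (a' : G) ∈ Subgroup.centralizer (K2 : Set G) := h2 ha'
  rw [Subgroup.mem_centralizer_iff] at h5
  rw [Subgroup.mem_bot, commutatorElement_eq_one_iff_mul_comm]
  exact (h5 k hk.2).symm

end

end Pool.Agent.U350.PG
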