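import Mathlib
import Pool.Agent.R328.TA

/-!
# Growth of groups with a crossed homomorphism to the complex numbers
-/

set_option autoImplicit false

namespace Pool.Agent.U350.PG

open Polynomial Filter Topology Subgroup
open scoped Pointwise commutatorElement TensorProduct

noncomputable section

/-- the Mahler measure in terms of the degree -/
lemma dobM : ∃ c : ℝ, 0 < c ∧ ∀ x : ℂ, IsIntegral ℤ x → x ≠ 0 → (∀ m > 0, x ^ m ≠ 1) →
    ∀ m : ℕ, (minpoly ℤ x).natDegree ≤ m →
      c / (1 + Real.log (1 + m)) ^ 3 ≤ Real.log (Pool.Agent.W963.GE.MM x) := by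
  classical
  obtain ⟨c, hc, h⟩ := Pool.Agent.R328.residues
  refine ⟨c, hc, ?_⟩
  intro x hx hx0 hroot m hm
  have hM : 1 < Pool.Agent.W963.GE.MM x := Pool.Agent.W963.GE.MM_gt x hx hx0 hroot
  have hdeg : 0 < (minpoly ℤ x).natDegree := minpoly.natDegree_pos hx
  have hd0 : derivative (minpoly ℤ x) ≠ 0 := by
    intro h0
    have := (derivative_eq_zero).1 h0
    omega
  refine h (minpoly ℤ x) (derivative (minpoly ℤ x)) m (minpoly.irreducible hx) hd0
    (degree_derivative_lt (minpoly.irreducible hx).ne_zero) ?_ hM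
  calc _ ≤ ∑ a ∈ (Pool.Agent.H261R2.CM.toC (minpoly ℤ x)).roots.toFinset, (1 : ℝ) := by
        apply Finset.sum_le_sum
        intro a _
        have h1 : (Pool.Agent.H261R2.CM.toC (derivative (minpoly ℤ x))) =
            derivative (Pool.Agent.H261R2.CM.toC (minpoly ℤ x)) := by
          show (derivative (minpoly ℤ x)).map _ = derivative ((minpoly ℤ x).map _)
          rw [derivative_map]
        rw [h1]
        exact div_self_le_one _
    _ = ((Pool.Agent.H261R2.CM.toC (minpoly ℤ x)).roots.toFinset.card : ℝ) := by simp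
    _ ≤ m := by
        have h1 : (Pool.Agent.H261R2.CM.toC (minpoly ℤ x)).roots.toFinset.card ≤
            (Pool.Agent.H261R2.CM.toC (minpoly ℤ x)).natDegree :=
          (Multiset.toFinset_card_le _).trans (card_roots' _)
        have h2 : (Pool.Agent.H261R2.CM.toC (minpoly ℤ x)).natDegree ≤
            (minpoly ℤ x).natDegree := natDegree_map_le
        exact_mod_cast h1.trans (h2.trans hm)

/-- the growth rate of an image -/
lemma rho_image {G G' : Type} [Group G] [Group G'] (f : G →* G') (S : Set G) (hS : S.Finite)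
    (hne : S.Nonempty) : Pool.Agent.H746UG.rho (f '' S) ≤ Pool.Agent.H746UG.rho S := by
  refine le_of_tendsto_of_tendsto' (Pool.Agent.H746UG.tendsto_rho (f '' S))
    (Pool.Agent.H746UG.tendsto_rho S) ?_
  intro n
  have h1 : (f '' S) ^ n = f '' (S ^ n) := (Set.image_pow f S n).symm
  have hfin : Finite ↥(S ^ n) := (Pool.Agent.H746UG.finite_pow S hS n)
  have h2 : Nat.card ↥((f '' S) ^ n) ≤ Nat.card ↥(S ^ n) := by
    rw [h1]
    exact Nat.card_image_le hfin
  have h3 : 0 < Nat.card ↥((f '' S) ^ n) := by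
    rw [h1]
    have : Nonempty ↥(f '' (S ^ n)) := ((hne.pow).image f).to_subtype
    have : Finite ↥(f '' (S ^ n)) := (Set.Finite.image f (Set.toFinite (S ^ n))).to_subtype
    exact Nat.card_pos
  apply div_le_div_of_nonneg_right _ (Nat.cast_nonneg n)
  apply Real.log_le_log (by exact_mod_cast h3)
  exact_mod_cast h2

/-- affine groups which are not virtually nilpotent -/
lemma aff_not_vn (R : Subgroup (Equiv.Perm ℂ)) (a t : R) (q c0 τ0 : ℂ)
    (ha : ∀ z, (a : Equiv.Perm ℂ) z = q * z + c0) (ht : ∀ z, (t : Equiv.Perm ℂ) z = z + τ0)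
    (hτ0 : τ0 ≠ 0) (hroot : ∀ m > 0, q ^ m ≠ 1) : ¬ Group.IsVirtuallyNilpotent R := by
  rintro ⟨H, hH, hfi⟩
  obtain ⟨m, hm, _, ham⟩ := Subgroup.exists_pow_mem_of_index_ne_zero hfi.index_ne_zero a
  obtain ⟨m', hm', _, htm⟩ := Subgroup.exists_pow_mem_of_index_ne_zero hfi.index_ne_zero t
  have hapow : ∀ n : ℕ, ∃ C : ℂ, ∀ z, ((a ^ n : R) : Equiv.Perm ℂ) z = q ^ n * z + C := by
    intro n
    induction n with
    | zero => exact ⟨0, fun z => by simp⟩
    | succ n ih =>
      obtain ⟨C, hC⟩ := ih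
      refine ⟨q ^ n * c0 + C, fun z => ?_⟩
      rw [pow_succ, Subgroup.coe_mul, Equiv.Perm.mul_apply, hC, ha]
      ring
  have htpow : ∀ (n : ℕ) z, ((t ^ n : R) : Equiv.Perm ℂ) z = z + n * τ0 := by
    intro n
    induction n with
    | zero => intro z; simp
    | succ n ih =>
      intro z
      rw [pow_succ, Subgroup.coe_mul, Equiv.Perm.mul_apply, ih, ht]
      push_cast; ring
  obtain ⟨C, hC⟩ := hapow m
  rw [Subgroup.nilpotent_iff_finite_descending_central_series] at hH
  obtain ⟨n, D, ⟨hD0, hDs⟩, hDn⟩ := hH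
  let c : H := ⟨a ^ m, ham⟩
  have key : ∀ j : ℕ, ∃ x : H, x ∈ D j ∧ ∃ τ : ℂ, τ ≠ 0 ∧
      ∀ z, ((x : R) : Equiv.Perm ℂ) z = z + τ := by
    intro j
    induction j with
    | zero =>
      refine ⟨⟨t ^ m', htm⟩, by rw [hD0]; exact mem_top _, m' * τ0, ?_, htpow m'⟩
      exact mul_ne_zero (by exact_mod_cast (show 0 < m' by omega).ne') hτ0
    | succ j ih =>
      obtain ⟨x, hx, τ, hτ, hxz⟩ := ih
      refine ⟨⁅x, c⁆, hDs x j hx c, (1 - q ^ m) * τ, ?_, ?_⟩
      · apply mul_ne_zero _ hτ
        intro h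
        exact hroot m (by omega) (sub_eq_zero.mp h).symm
      · intro z
        set y := ((a ^ m : R) : Equiv.Perm ℂ)⁻¹ z with hy
        have h1 : q ^ m * y + C = z := by
          rw [← hC y, hy]
          exact Pool.Agent.H746UG.perm_apply_inv _ _
        have h2 : ∀ z, (((x : R) : Equiv.Perm ℂ))⁻¹ z = z - τ := by
          intro z
          rw [Equiv.Perm.inv_eq_iff_eq, hxz]; ring
        have h3 : ((⁅x, c⁆ : H) : R) = (x : R) * a ^ m * (x : R)⁻¹ * (a ^ m)⁻¹ := by
          rw [commutatorElement_def]; rfl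
        rw [h3]
        show ((x : R) : Equiv.Perm ℂ) (((a ^ m : R) : Equiv.Perm ℂ)
          ((((x : R) : Equiv.Perm ℂ))⁻¹ y)) = _
        rw [h2, hC, hxz]
        linear_combination h1
  obtain ⟨x, hx, τ, hτ, hxz⟩ := key n
  rw [hDn, Subgroup.mem_bot] at hx
  have h1 := hxz 0
  rw [hx] at h1
  simp at h1
  exact hτ h1.symm

section

variable {H : Type} [Group H] (χ : H →* ℂ) (c : H → ℂ) (hc : ∀ a b, c (a * b) = c a + χ a * c b)

include hc in
lemma cr_one : c 1 = 0 := by
  have := hc 1 1
  rw [mul_one, map_one, one_mul] at this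
  linear_combination -this

/-- the affine action -/
def bet : H →* Equiv.Perm ℂ where
  toFun h :=
    { toFun := fun z => χ h * z + c h
      invFun := fun z => χ h⁻¹ * z + c h⁻¹
      left_inv := by
        intro z
        have h1 : χ h⁻¹ * χ h = 1 := by rw [← map_mul, inv_mul_cancel, map_one]
        have h2 := hc h⁻¹ h
        rw [inv_mul_cancel, cr_one χ c hc] at h2
        show χ h⁻¹ * (χ h * z + c h) + c h⁻¹ = z
        linear_combination z * h1 - h2
      right_inv := by
        intro z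
        have h1 : χ h * χ h⁻¹ = 1 := by rw [← map_mul, mul_inv_cancel, map_one]
        have h2 := hc h h⁻¹
        rw [mul_inv_cancel, cr_one χ c hc] at h2
        show χ h * (χ h⁻¹ * z + c h⁻¹) + c h = z
        linear_combination z * h1 - h2 }
  map_one' := by
    ext z
    show χ 1 * z + c 1 = z
    rw [map_one, cr_one χ c hc]
    ring
  map_mul' a b := by
    ext z
    show χ (a * b) * z + c (a * b) = χ a * (χ b * z + c b) + c a
    rw [map_mul, hc]
    ring

lemma bet_apply (h : H) (z : ℂ) : bet χ c hc h z = χ h * z + c h := rfl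

end

end

end Pool.Agent.U350.PG
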