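import Mathlib
import Pool.Agent.U350.PG.Aff

/-!
# Growth of groups with a crossed homomorphism to the complex numbers
-/

set_option autoImplicit false

namespace Pool.Agent.U350.PG

open Polynomial Filter Topology Subgroup
open scoped Pointwise commutatorElement TensorProduct

noncomputable section

lemma aeval_push {M : Type*} [AddCommGroup M] (τ : M →+ ℂ) (A : Module.End ℤ M) (l : ℂ)
    (h : ∀ m, τ (A m) = l * τ m) (P : ℤ[X]) (m : M) :
    τ (aeval A P m) = aeval l P * τ m := by
  induction P using Polynomial.induction_on' with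
  | add p q hp hq => rw [map_add, LinearMap.add_apply, map_add, hp, hq, map_add, add_mul]
  | monomial n a =>
    have hpow : ∀ (n : ℕ) (m : M), τ ((A ^ n) m) = l ^ n * τ m := by
      intro n
      induction n with
      | zero => intro m; simp
      | succ n ih =>
        intro m
        rw [pow_succ', Module.End.mul_apply, h, ih]
        ring
    rw [aeval_monomial, aeval_monomial, Module.End.mul_apply, Module.algebraMap_end_apply,
      map_zsmul, hpow]
    simp [mul_assoc]

theorem aff_gap : ∃ κ : ℝ, 0 < κ ∧ ∀ (H : Type) [Group H] (T : Set H), T.Finite →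
    Subgroup.closure T = ⊤ → ∀ (χ : H →* ℂ) (c : H → ℂ) (_ : ∀ a b, c (a * b) = c a + χ a * c b)
      (b0 h0 : H), χ b0 = 1 → c b0 ≠ 0 → (∀ m > 0, χ h0 ^ m ≠ 1) → ∀ m : ℕ,
      (∀ t : H, ∃ P : ℤ[X], P ≠ 0 ∧ P.natDegree ≤ m ∧ aeval (χ t) P = 0) →
      κ / (1 + Real.log (1 + m)) ^ 3 ≤ Pool.Agent.H746UG.rho T := by
  classical
  obtain ⟨c1, hc1, hdob⟩ := dobM
  set c2 := min c1 (1 / 2) with hc2
  have hc20 : 0 < c2 := lt_min hc1 (by norm_num)
  refine ⟨c2 / 24, by positivity, ?_⟩
  intro H _ T hfin hgen χ c hc b0 h0 hb0 hcb hroot m hm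
  have hlog : 0 ≤ Real.log (1 + (m : ℝ)) := Real.log_nonneg (by
    have : (0 : ℝ) ≤ m := Nat.cast_nonneg m
    linarith)
  set y : ℝ := c2 / (1 + Real.log (1 + m)) ^ 3 with hy
  have hy0 : 0 ≤ y := by positivity
  have hy1 : y ≤ 1 / 2 :=
    (div_le_self hc20.le (one_le_pow₀ (by linarith))).trans (min_le_right _ _)
  have hne : T.Nonempty := by
    by_contra h
    rw [Set.not_nonempty_iff_eq_empty] at h
    rw [h, Subgroup.closure_empty] at hgen
    have : b0 = 1 := by
      have h1 : b0 ∈ (⊥ : Subgroup H) := by rw [hgen]; exact mem_top _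
      exact Subgroup.mem_bot.1 h1
    apply hcb
    rw [this]
    exact cr_one χ c hc
  set β := bet χ c hc with hβ
  set R := β.range with hR
  set f : H →* R := β.rangeRestrict with hf
  have hfs : Function.Surjective f := β.rangeRestrict_surjective
  have hfz : ∀ h z, ((f h : R) : Equiv.Perm ℂ) z = χ h * z + c h := fun h z => rfl
  have hgen' : Subgroup.closure (f '' T) = ⊤ := by
    rw [← MonoidHom.map_closure, hgen, ← MonoidHom.range_eq_map]
    exact MonoidHom.range_eq_top_of_surjective f hfs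
  have hnv : ¬ Group.IsVirtuallyNilpotent R := by
    refine aff_not_vn R (f h0) (f b0) (χ h0) (c h0) (c b0) (fun z => hfz _ _) (fun z => ?_) hcb hroot
    rw [hfz, hb0, one_mul]
  -- translations
  have htr : ∀ x : (⊤ : Subgroup R), x ∈ Pool.Agent.W963.GE.gam (⊤ : Subgroup R) 1 →
      ∃ τ : ℂ, ∀ z, ((x : R) : Equiv.Perm ℂ) z = z + τ := by
    intro x hx
    have hx1 : x ∈ commutator (⊤ : Subgroup R) := hx
    let K1 : Subgroup (⊤ : Subgroup R) :=
      { carrier := {x | ∃ τ : ℂ, ∀ z, ((x : R) : Equiv.Perm ℂ) z = z + τ}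
        one_mem' := ⟨0, fun z => by simp⟩
        mul_mem' := by
          rintro a b ⟨τ, hτ⟩ ⟨σ, hσ⟩
          refine ⟨σ + τ, fun z => ?_⟩
          rw [Subgroup.coe_mul, Subgroup.coe_mul, Equiv.Perm.mul_apply, hσ, hτ]
          ring
        inv_mem' := by
          rintro a ⟨τ, hτ⟩
          refine ⟨-τ, fun z => ?_⟩
          rw [Subgroup.coe_inv, Subgroup.coe_inv, Equiv.Perm.inv_eq_iff_eq, hτ]
          ring }
    have hle : commutator (⊤ : Subgroup R) ≤ K1 := by
      rw [commutator_def, Subgroup.commutator_le]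
      intro a _ b _
      obtain ⟨ha, haf⟩ := hfs (a : R)
      obtain ⟨hb, hbf⟩ := hfs (b : R)
      refine ⟨c (ha * hb * ha⁻¹ * hb⁻¹), fun z => ?_⟩
      have h1 : ((⁅a, b⁆ : (⊤ : Subgroup R)) : R) = f (ha * hb * ha⁻¹ * hb⁻¹) := by
        rw [commutatorElement_def]
        simp only [Subgroup.coe_mul, Subgroup.coe_inv, map_mul, map_inv, haf, hbf]
      rw [h1, hfz]
      have h2 : χ (ha * hb * ha⁻¹ * hb⁻¹) = 1 := by
        rw [map_mul, map_mul, map_mul]
        have e1 : χ ha * χ ha⁻¹ = 1 := by rw [← map_mul, mul_inv_cancel, map_one]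
        have e2 : χ hb * χ hb⁻¹ = 1 := by rw [← map_mul, mul_inv_cancel, map_one]
        linear_combination χ hb * χ hb⁻¹ * e1 + e2
      rw [h2, one_mul]
    exact hle hx1
  have htv : ∀ x : Pool.Agent.W963.GE.gam (⊤ : Subgroup R) 1, ∃ τ : ℂ,
      ∀ z, (((x : (⊤ : Subgroup R)) : R) : Equiv.Perm ℂ) z = z + τ := fun x => htr x x.2
  choose τ hτ using htv
  have hτmul : ∀ x y, τ (x * y) = τ x + τ y := by
    intro x y
    have h1 := hτ (x * y) 0
    rw [Subgroup.coe_mul, Subgroup.coe_mul, Subgroup.coe_mul, Equiv.Perm.mul_apply, hτ, hτ] at h1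
    linear_combination -h1
  have hτinj : ∀ x y, τ x = τ y → x = y := by
    intro x y h
    apply Subtype.ext
    apply Subtype.ext
    apply Subtype.ext
    apply Equiv.ext
    intro z
    rw [hτ, hτ, h]
  have hab : ∀ a b : Pool.Agent.W963.GE.gam (⊤ : Subgroup R) 1, a * b = b * a := by
    intro a b
    apply hτinj
    rw [hτmul, hτmul, add_comm]
  have hnil : Group.IsNilpotent (Pool.Agent.W963.GE.gam (⊤ : Subgroup R) 1) := by
    let _ : CommGroup (Pool.Agent.W963.GE.gam (⊤ : Subgroup R) 1) :=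
      { (inferInstance : Group (Pool.Agent.W963.GE.gam (⊤ : Subgroup R) 1)) with mul_comm := hab }
    exact CommGroup.isNilpotent
  let τh : Pool.Agent.W963.GE.gam (⊤ : Subgroup R) 1 →* Multiplicative ℂ :=
    MonoidHom.mk' (fun x => Multiplicative.ofAdd (τ x)) (fun x y => by
      rw [hτmul, ofAdd_add])
  let τa : Additive (Abelianization (Pool.Agent.W963.GE.gam (⊤ : Subgroup R) 1)) →+ ℂ :=
    MonoidHom.toAdditiveLeft (Abelianization.lift τh)
  have hτa : ∀ g, τa (Additive.ofMul (Abelianization.of g)) = τ g := fun g => rfl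
  have hsurj : ∀ b : Additive (Abelianization (Pool.Agent.W963.GE.gam (⊤ : Subgroup R) 1)),
      ∃ g, b = Additive.ofMul (Abelianization.of g) := by
    intro b
    obtain ⟨g, hg⟩ := QuotientGroup.mk_surjective (s := commutator _) (Additive.toMul b)
    exact ⟨g, congrArg Additive.ofMul hg.symm⟩
  have hτa0 : ∀ b, τa b = 0 → b = 0 := by
    intro b hb
    obtain ⟨g, rfl⟩ := hsurj b
    rw [hτa] at hb
    have h1 : τ 1 = 0 := by
      have := hτmul 1 1
      rw [mul_one] at this
      linear_combination -this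
    have h2 : g = 1 := hτinj _ _ (hb.trans h1.symm)
    rw [h2, map_one]
    rfl
  have hgap := Pool.Agent.R328.gap_of_log (k := 1) (d := 1) le_rfl (f '' T) (hfin.image f) hgen'
    (⊤ : Subgroup R) (by rw [Subgroup.index_top]; exact one_ne_zero)
    (by rw [Subgroup.index_top]) (Or.inl hnil) hy0 hy1 (by
      intro t b x hx0 hx hxi _ hp _
      obtain ⟨h, hh⟩ := hfs (t : R)
      obtain ⟨P, hP0, hPm, hPa⟩ := hm h
      have hact : ∀ m', τa (Pool.Agent.TH53.UG.act
          (Pool.Agent.W963.GE.gam (⊤ : Subgroup R) 1) t m') = χ h * τa m' := by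
        intro m'
        obtain ⟨g, rfl⟩ := hsurj m'
        rw [Pool.Agent.TH53.UG.act_of, hτa, hτa]
        have h1 := hτ (MulAut.conjNormal t g) (χ h * 0 + c h)
        have h2 : (((MulAut.conjNormal t g : Pool.Agent.W963.GE.gam (⊤ : Subgroup R) 1) :
            (⊤ : Subgroup R)) : R) = f h * ((g : (⊤ : Subgroup R)) : R) * (f h)⁻¹ := by
          rw [MulAut.conjNormal_apply, Subgroup.coe_mul, Subgroup.coe_mul, Subgroup.coe_inv, hh]
        rw [h2, Subgroup.coe_mul, Subgroup.coe_mul, Subgroup.coe_inv, Equiv.Perm.mul_apply,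
          Equiv.Perm.mul_apply] at h1
        have h3 : ((f h : R) : Equiv.Perm ℂ)⁻¹ (χ h * 0 + c h) = 0 := by
          rw [Equiv.Perm.inv_eq_iff_eq, hfz]
        rw [h3, hτ, hfz] at h1
        linear_combination -h1
      have h1 : aeval x P = 0 := by
        apply hp
        apply hτa0
        rw [aeval_push τa _ (χ h) hact, hPa, zero_mul]
      have h2 : (minpoly ℤ x).natDegree ≤ m := by
        have h3 := minpoly.isIntegrallyClosed_dvd hxi h1
        exact (natDegree_le_of_dvd h3 hP0).trans hPm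
      refine le_trans ?_ (hdob x hxi hx0 hx m h2)
      exact div_le_div_of_nonneg_right (min_le_left _ _) (by positivity))
  rcases hgap with h1 | h1
  · exact absurd h1 hnv
  · have h2 := h1.trans (rho_image f T hfin hne)
    refine le_trans (le_of_eq ?_) h2
    rw [hy]
    norm_num
    ring

end

end Pool.Agent.U350.PG
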