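import Mathlib
import Pool.Agent.U350.PG.Gap

/-!
# Growth of groups with a crossed homomorphism: the Mahler measures of the values of the character
-/

set_option autoImplicit false

namespace Pool.Agent.U350.PG

open Polynomial Filter Topology Subgroup
open scoped Pointwise commutatorElement TensorProduct

noncomputable section

/-- a root of the minimal polynomial has the same minimal polynomial -/
lemma minpoly_conj {z x : ℂ} (hz : IsIntegral ℤ z) (h : aeval x (minpoly ℤ z) = 0) :
    minpoly ℤ x = minpoly ℤ z := by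
  have hx : IsIntegral ℤ x := ⟨minpoly ℤ z, minpoly.monic hz, h⟩
  have h1 : minpoly ℤ x ∣ minpoly ℤ z := minpoly.isIntegrallyClosed_dvd hx h
  have h2 : Associated (minpoly ℤ x) (minpoly ℤ z) :=
    (minpoly.irreducible hx).associated_of_dvd (minpoly.irreducible hz) h1
  exact eq_of_monic_of_associated (minpoly.monic hx) (minpoly.monic hz) h2

theorem aff_gap_y (H : Type) [Group H] (T : Set H) (hfin : T.Finite)
    (hgen : Subgroup.closure T = ⊤) (χ : H →* ℂ) (c : H → ℂ)
    (hc : ∀ a b, c (a * b) = c a + χ a * c b) (b0 h0 : H) (hb0 : χ b0 = 1) (hcb : c b0 ≠ 0)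
    (hroot : ∀ m > 0, χ h0 ^ m ≠ 1) {y : ℝ} (hy0 : 0 ≤ y) (hy1 : y ≤ 1 / 2)
    (hm : ∀ t : H, IsIntegral ℤ (χ t) → (∀ m > 0, χ t ^ m ≠ 1) →
      y ≤ Real.log (Pool.Agent.W963.GE.MM (χ t))) : y / 12 ≤ Pool.Agent.H746UG.rho T := by
  classical
  have hne : T.Nonempty := by
    by_contra h
    rw [Set.not_nonempty_iff_eq_empty] at h
    rw [h, Subgroup.closure_empty] at hgen
    have : b0 = 1 := by
      have h1 : b0 ∈ (⊥ : Subgroup H) := by rw [hgen]; exact mem_top _
      exact Subgroup.mem_bot.1 h1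
    apply hcb
    rw [this]
    exact cr_one χ c hc
  set β := bet χ c hc with hβ
  set R := β.range with hR
  set f : H →* R := β.rangeRestrict with hf
  have hfs : Function.Surjective f := β.rangeRestrict_surjective
  have hfz : ∀ h z, ((f h : R) : Equiv.Perm ℂ) z = χ h * z + c h := fun h z => rfl
  have hgen' : Subgroup.closure (f '' T) = ⊤ := by
    rw [← MonoidHom.map_closure, hgen, ← MonoidHom.range_eq_map]
    exact MonoidHom.range_eq_top_of_surjective f hfs
  have hnv : ¬ Group.IsVirtuallyNilpotent R := by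
    refine aff_not_vn R (f h0) (f b0) (χ h0) (c h0) (c b0) (fun z => hfz _ _) (fun z => ?_) hcb hroot
    rw [hfz, hb0, one_mul]
  -- translations
  have htr : ∀ x : (⊤ : Subgroup R), x ∈ Pool.Agent.W963.GE.gam (⊤ : Subgroup R) 1 →
      ∃ τ : ℂ, ∀ z, ((x : R) : Equiv.Perm ℂ) z = z + τ := by
    intro x hx
    have hx1 : x ∈ commutator (⊤ : Subgroup R) := hx
    let K1 : Subgroup (⊤ : Subgroup R) :=
      { carrier := {x | ∃ τ : ℂ, ∀ z, ((x : R) : Equiv.Perm ℂ) z = z + τ}
        one_mem' := ⟨0, fun z => by simp⟩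
        mul_mem' := by
          rintro a b ⟨τ, hτ⟩ ⟨σ, hσ⟩
          refine ⟨σ + τ, fun z => ?_⟩
          rw [Subgroup.coe_mul, Subgroup.coe_mul, Equiv.Perm.mul_apply, hσ, hτ]
          ring
        inv_mem' := by
          rintro a ⟨τ, hτ⟩
          refine ⟨-τ, fun z => ?_⟩
          rw [Subgroup.coe_inv, Subgroup.coe_inv, Equiv.Perm.inv_eq_iff_eq, hτ]
          ring }
    have hle : commutator (⊤ : Subgroup R) ≤ K1 := by
      rw [commutator_def, Subgroup.commutator_le]
      intro a _ b _
      obtain ⟨ha, haf⟩ := hfs (a : R)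
      obtain ⟨hb, hbf⟩ := hfs (b : R)
      refine ⟨c (ha * hb * ha⁻¹ * hb⁻¹), fun z => ?_⟩
      have h1 : ((⁅a, b⁆ : (⊤ : Subgroup R)) : R) = f (ha * hb * ha⁻¹ * hb⁻¹) := by
        rw [commutatorElement_def]
        simp only [Subgroup.coe_mul, Subgroup.coe_inv, map_mul, map_inv, haf, hbf]
      rw [h1, hfz]
      have h2 : χ (ha * hb * ha⁻¹ * hb⁻¹) = 1 := by
        rw [map_mul, map_mul, map_mul]
        have e1 : χ ha * χ ha⁻¹ = 1 := by rw [← map_mul, mul_inv_cancel, map_one]
        have e2 : χ hb * χ hb⁻¹ = 1 := by rw [← map_mul, mul_inv_cancel, map_one]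
        linear_combination χ hb * χ hb⁻¹ * e1 + e2
      rw [h2, one_mul]
    exact hle hx1
  have htv : ∀ x : Pool.Agent.W963.GE.gam (⊤ : Subgroup R) 1, ∃ τ : ℂ,
      ∀ z, (((x : (⊤ : Subgroup R)) : R) : Equiv.Perm ℂ) z = z + τ := fun x => htr x x.2
  choose τ hτ using htv
  have hτmul : ∀ x y, τ (x * y) = τ x + τ y := by
    intro x y
    have h1 := hτ (x * y) 0
    rw [Subgroup.coe_mul, Subgroup.coe_mul, Subgroup.coe_mul, Equiv.Perm.mul_apply, hτ, hτ] at h1
    linear_combination -h1
  have hτinj : ∀ x y, τ x = τ y → x = y := by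
    intro x y h
    apply Subtype.ext
    apply Subtype.ext
    apply Subtype.ext
    apply Equiv.ext
    intro z
    rw [hτ, hτ, h]
  have hab : ∀ a b : Pool.Agent.W963.GE.gam (⊤ : Subgroup R) 1, a * b = b * a := by
    intro a b
    apply hτinj
    rw [hτmul, hτmul, add_comm]
  have hnil : Group.IsNilpotent (Pool.Agent.W963.GE.gam (⊤ : Subgroup R) 1) := by
    let _ : CommGroup (Pool.Agent.W963.GE.gam (⊤ : Subgroup R) 1) :=
      { (inferInstance : Group (Pool.Agent.W963.GE.gam (⊤ : Subgroup R) 1)) with mul_comm := hab }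
    exact CommGroup.isNilpotent
  let τh : Pool.Agent.W963.GE.gam (⊤ : Subgroup R) 1 →* Multiplicative ℂ :=
    MonoidHom.mk' (fun x => Multiplicative.ofAdd (τ x)) (fun x y => by
      rw [hτmul, ofAdd_add])
  let τa : Additive (Abelianization (Pool.Agent.W963.GE.gam (⊤ : Subgroup R) 1)) →+ ℂ :=
    MonoidHom.toAdditiveLeft (Abelianization.lift τh)
  have hτa : ∀ g, τa (Additive.ofMul (Abelianization.of g)) = τ g := fun g => rfl
  have hsurj : ∀ b : Additive (Abelianization (Pool.Agent.W963.GE.gam (⊤ : Subgroup R) 1)),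
      ∃ g, b = Additive.ofMul (Abelianization.of g) := by
    intro b
    obtain ⟨g, hg⟩ := QuotientGroup.mk_surjective (s := commutator _) (Additive.toMul b)
    exact ⟨g, congrArg Additive.ofMul hg.symm⟩
  have hτa0 : ∀ b, τa b = 0 → b = 0 := by
    intro b hb
    obtain ⟨g, rfl⟩ := hsurj b
    rw [hτa] at hb
    have h1 : τ 1 = 0 := by
      have := hτmul 1 1
      rw [mul_one] at this
      linear_combination -this
    have h2 : g = 1 := hτinj _ _ (hb.trans h1.symm)
    rw [h2, map_one]
    rfl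
  have hgap := Pool.Agent.TH53.UG.gap_general (k := 1) (d := 1) le_rfl (f '' T) (hfin.image f) hgen'
    (⊤ : Subgroup R) (by rw [Subgroup.index_top]; exact one_ne_zero)
    (by rw [Subgroup.index_top]) (Or.inl hnil) (c := y / 3) (by
      have := Real.log_two_gt_d9
      linarith) (by
      intro hMf t b x hx0 hx hp
      obtain ⟨h, hh⟩ := hfs (t : R)
      have hact : ∀ m', τa (Pool.Agent.TH53.UG.act
          (Pool.Agent.W963.GE.gam (⊤ : Subgroup R) 1) t m') = χ h * τa m' := by
        intro m'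
        obtain ⟨g, rfl⟩ := hsurj m'
        rw [Pool.Agent.TH53.UG.act_of, hτa, hτa]
        have h1 := hτ (MulAut.conjNormal t g) (χ h * 0 + c h)
        have h2 : (((MulAut.conjNormal t g : Pool.Agent.W963.GE.gam (⊤ : Subgroup R) 1) :
            (⊤ : Subgroup R)) : R) = f h * ((g : (⊤ : Subgroup R)) : R) * (f h)⁻¹ := by
          rw [MulAut.conjNormal_apply, Subgroup.coe_mul, Subgroup.coe_mul, Subgroup.coe_inv, hh]
        rw [h2, Subgroup.coe_mul, Subgroup.coe_mul, Subgroup.coe_inv, Equiv.Perm.mul_apply,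
          Equiv.Perm.mul_apply] at h1
        have h3 : ((f h : R) : Equiv.Perm ℂ)⁻¹ (χ h * 0 + c h) = 0 := by
          rw [Equiv.Perm.inv_eq_iff_eq, hfz]
        rw [h3, hτ, hfz] at h1
        linear_combination -h1
      have hb : τa b ≠ 0 := by
        intro hb
        have h1 := hp 1 (by rw [map_one, Module.End.one_apply]; exact hτa0 b hb)
        rw [map_one] at h1
        exact one_ne_zero h1
      have hint : IsIntegral ℤ (χ h) := by
        obtain ⟨P, hP, hP0⟩ := Module.End.isIntegral.isIntegral (R := ℤ)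
          (Pool.Agent.TH53.UG.act (Pool.Agent.W963.GE.gam (⊤ : Subgroup R) 1) t)
        refine ⟨P, hP, ?_⟩
        have h1 := aeval_push τa _ (χ h) hact P b
        have h2 : aeval (Pool.Agent.TH53.UG.act
            (Pool.Agent.W963.GE.gam (⊤ : Subgroup R) 1) t) P = 0 := hP0
        rw [h2, LinearMap.zero_apply, map_zero] at h1
        rcases mul_eq_zero.1 h1.symm with h3 | h3
        · exact h3
        · exact absurd h3 hb
      have hx1 : aeval x (minpoly ℤ (χ h)) = 0 := by
        apply hp
        apply hτa0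
        rw [aeval_push τa _ (χ h) hact, minpoly.aeval, zero_mul]
      have hmp := minpoly_conj hint hx1
      have hxi : IsIntegral ℤ x := ⟨minpoly ℤ (χ h), minpoly.monic hint, hx1⟩
      have hnr : ∀ m > 0, χ h ^ m ≠ 1 := by
        intro m hm0 h1
        apply hx m hm0
        have h2 : minpoly ℤ (χ h) ∣ X ^ m - 1 := by
          apply minpoly.isIntegrallyClosed_dvd hint
          simp [h1]
        obtain ⟨q, hq⟩ := h2
        have h3 : aeval x (X ^ m - 1 : ℤ[X]) = 0 := by
          rw [hq, map_mul, hx1, zero_mul]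
        simpa [sub_eq_zero] using h3
      have h4 := hm h hint hnr
      have h5 : Pool.Agent.W963.GE.MM x = Pool.Agent.W963.GE.MM (χ h) := by
        unfold Pool.Agent.W963.GE.MM
        rw [hmp]
      rw [← h5] at h4
      exact Pool.Agent.R328.eta_of_log hxi hx0 hy0 hy1 h4)
  rcases hgap with h1 | h1
  · exact absurd h1 hnv
  · have h2 := h1.trans (rho_image f T hfin hne)
    refine le_trans (le_of_eq ?_) h2
    norm_num
    ring

end

end Pool.Agent.U350.PG
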