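import Mathlib
import Pool.Agent.U350.PG.VN

/-!
# The complex additive functions on a torsion-free abelian normal subgroup
-/

set_option autoImplicit false

namespace Pool.Agent.U350.PG

open Module

noncomputable section

variable {G : Type} [Group G] (A : Subgroup G)

/-- every `m + 1` elements of `A` satisfy a relation modulo `N` -/
def RankLe (m : ℕ) (N A : Subgroup G) : Prop :=
  ∀ x : Fin (m + 1) → G, (∀ j, x j ∈ A) → ∃ e : Fin (m + 1) → ℤ, e ≠ 0 ∧
    (List.ofFn fun j => x j ^ e j).prod ∈ N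

/-- the additive functions on `A` -/
def AF : Submodule ℂ (A → ℂ) where
  carrier := {f | ∀ a b : A, f (a * b) = f a + f b}
  zero_mem' := by intro a b; simp
  add_mem' := by
    intro f g hf hg a b
    simp only [Pi.add_apply]
    rw [hf, hg]
    ring
  smul_mem' := by
    intro c f hf a b
    simp only [Pi.smul_apply, smul_eq_mul]
    rw [hf]
    ring

variable {A}

lemma AF_prod {k : ℕ} {f : A → ℂ} (hf : f ∈ AF A) (x : Fin k → A) (e : Fin k → ℤ) :
    f ((List.ofFn fun j => x j ^ e j).prod) = ∑ j, (e j : ℂ) * f (x j) := by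
  let φ : A →* Multiplicative ℂ := MonoidHom.mk' (fun a => Multiplicative.ofAdd (f a))
    (fun a b => by rw [hf a b, ofAdd_add])
  have h1 : ∀ a, f a = Multiplicative.toAdd (φ a) := fun _ => rfl
  rw [h1, map_list_prod, List.map_ofFn, List.prod_ofFn, toAdd_prod]
  apply Finset.sum_congr rfl
  intro j _
  show Multiplicative.toAdd (φ (x j ^ e j)) = _
  rw [map_zpow, toAdd_zpow, ← h1, zsmul_eq_mul]

lemma AF_one {f : A → ℂ} (hf : f ∈ AF A) : f 1 = 0 := by
  have := hf 1 1
  rw [mul_one] at this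
  linear_combination -this

/-- independent families -/
def IndF {k : ℕ} (x : Fin k → A) : Prop :=
  ∀ e : Fin k → ℤ, (List.ofFn fun j => x j ^ e j).prod = 1 → e = 0

lemma coe_prod {k : ℕ} (x : Fin k → A) (e : Fin k → ℤ) :
    (((List.ofFn fun j => x j ^ e j).prod : A) : G) = (List.ofFn fun j => (x j : G) ^ e j).prod := by
  rw [← Subgroup.coe_subtype, map_list_prod, List.map_ofFn]
  rfl

/-- a maximal independent family -/
lemma exists_maxind {m : ℕ} (hr : RankLe m ⊥ A) : ∃ k, k ≤ m ∧ ∃ x : Fin k → A, IndF x ∧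
    ∀ y : Fin (k + 1) → A, ¬ IndF y := by
  classical
  have hm : ¬ ∃ y : Fin (m + 1) → A, IndF y := by
    rintro ⟨y, hy⟩
    obtain ⟨e, he, h⟩ := hr (fun j => y j) (fun j => (y j).2)
    apply he
    apply hy e
    apply Subtype.ext
    rw [coe_prod]
    exact Subgroup.mem_bot.1 h
  have hex : ∃ k, ¬ ∃ y : Fin (k + 1) → A, IndF y := ⟨m, hm⟩
  refine ⟨Nat.find hex, Nat.find_min' hex hm, ?_⟩
  have h1 : ∃ x : Fin (Nat.find hex) → A, IndF x := by
    rcases Nat.eq_zero_or_pos (Nat.find hex) with h0 | h0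
    · rw [h0]
      exact ⟨fun j => 1, fun e _ => by ext j; exact j.elim0⟩
    · have h2 := Nat.find_min hex (m := Nat.find hex - 1) (by omega)
      rw [not_not] at h2
      have h3 : Nat.find hex - 1 + 1 = Nat.find hex := by omega
      rw [h3] at h2
      exact h2
  obtain ⟨x, hx⟩ := h1
  exact ⟨x, hx, fun y hy => Nat.find_spec hex ⟨y, hy⟩⟩

lemma AF_finrank {m : ℕ} (hr : RankLe m ⊥ A) :
    FiniteDimensional ℂ (AF A) ∧ finrank ℂ (AF A) ≤ m := by
  obtain ⟨k, hk, x, hx, hmax⟩ := exists_maxind hr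
  let ev : AF A →ₗ[ℂ] (Fin k → ℂ) :=
    { toFun := fun f j => (f : A → ℂ) (x j)
      map_add' := fun f g => rfl
      map_smul' := fun c f => rfl }
  have hinj : Function.Injective ev := by
    rw [← LinearMap.ker_eq_bot, LinearMap.ker_eq_bot']
    intro f hf
    apply Subtype.ext
    funext a
    have h1 := hmax (Fin.cons a x)
    unfold IndF at h1
    push Not at h1
    obtain ⟨e, he, he0⟩ := h1
    have h2 := AF_prod f.2 (Fin.cons a x : Fin (k + 1) → A) e
    rw [he, AF_one f.2, Fin.sum_univ_succ] at h2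
    have h3 : ∀ j, (f : A → ℂ) (x j) = 0 := fun j => congrFun hf j
    simp only [Fin.cons_zero, Fin.cons_succ, h3, mul_zero, Finset.sum_const_zero, add_zero] at h2
    rcases mul_eq_zero.1 h2.symm with h4 | h4
    · exfalso
      have h5 : e 0 = 0 := by exact_mod_cast h4
      apply he0
      have h6 : (fun j => e (Fin.succ j)) = 0 := by
        apply hx
        rw [List.ofFn_succ] at he
        simpa [h5] using he
      ext j
      refine Fin.cases h5 (fun j => ?_) j
      exact congrFun h6 j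
    · exact h4
  have hfd : FiniteDimensional ℂ (AF A) := FiniteDimensional.of_injective ev hinj
  refine ⟨hfd, ?_⟩
  have h1 := LinearMap.finrank_le_finrank_of_injective hinj
  rw [finrank_fin_fun] at h1
  exact h1.trans hk

/-- there are nonzero additive functions -/
lemma AF_nontrivial (hab : ∀ a ∈ A, ∀ b ∈ A, a * b = b * a) (htf : ∀ a ∈ A, ∀ k : ℕ, 0 < k →
    a ^ k = 1 → a = 1) (hA : A ≠ ⊥) : Nontrivial (AF A) := by
  classical
  obtain ⟨a0, ha0, hne⟩ : ∃ a0, a0 ∈ A ∧ a0 ≠ 1 := by
    by_contra hcon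
    push Not at hcon
    exact hA (eq_bot_iff.2 fun a ha => Subgroup.mem_bot.2 (hcon a ha))
  let _ : CommGroup A := { (inferInstance : Group A) with
    mul_comm := fun a b => Subtype.ext (hab a a.2 b b.2) }
  let g : ℤ →ₗ[ℤ] Additive A := LinearMap.toSpanSingleton ℤ (Additive A) (Additive.ofMul ⟨a0, ha0⟩)
  have hg : Function.Injective g := by
    rw [← LinearMap.ker_eq_bot, LinearMap.ker_eq_bot']
    intro n hn
    have h1 : (⟨a0, ha0⟩ : A) ^ n = 1 := hn
    have h2 : a0 ^ n = 1 := congrArg Subtype.val h1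
    by_contra h0
    have h3 : a0 ^ n.natAbs = 1 := by
      rcases Int.natAbs_eq n with h | h
      · rw [h] at h2
        rw [zpow_natCast] at h2
        exact h2
      · rw [h, zpow_neg, inv_eq_one, zpow_natCast] at h2
        exact h2
    exact hne (htf a0 ha0 _ (Int.natAbs_pos.2 h0) h3)
  obtain ⟨h, hh⟩ := (Module.Baer.of_divisible (A := ℂ)).extension_property g hg
    (LinearMap.toSpanSingleton ℤ ℂ 1)
  refine ⟨⟨⟨fun a => h (Additive.ofMul a), fun a b => ?_⟩, 0, ?_⟩⟩
  · exact h.map_add (Additive.ofMul a) (Additive.ofMul b)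
  · intro h0
    have h1 := congrFun (congrArg Subtype.val h0) ⟨a0, ha0⟩
    have h2 := LinearMap.congr_fun hh 1
    simp only [LinearMap.comp_apply, g, LinearMap.toSpanSingleton_apply, one_smul] at h2
    have h3 : h (Additive.ofMul (⟨a0, ha0⟩ : A)) = 0 := h1
    rw [h3] at h2
    exact zero_ne_one h2

/-- the action of `G` on the additive functions -/
def rhoA (hA : A.Normal) : G →* (AF A →ₗ[ℂ] AF A) where
  toFun g :=
    { toFun := fun f => ⟨fun a => (f : A → ℂ) ⟨g⁻¹ * a * g, by simpa using hA.conj_mem a a.2 g⁻¹⟩,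
        fun a b => by
          refine Eq.trans (congrArg (f : A → ℂ) (Subtype.ext ?_)) (f.2
            ⟨g⁻¹ * a * g, by simpa using hA.conj_mem a a.2 g⁻¹⟩
            ⟨g⁻¹ * b * g, by simpa using hA.conj_mem b b.2 g⁻¹⟩)
          simp only [Subgroup.coe_mul]
          group⟩
      map_add' := fun f h => rfl
      map_smul' := fun c f => rfl }
  map_one' := by
    ext f a
    refine congrArg (f : A → ℂ) (Subtype.ext ?_)
    simp
  map_mul' g h := by
    ext f a
    refine congrArg (f : A → ℂ) (Subtype.ext ?_)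
    simp only
    group

lemma rhoA_apply (hA : A.Normal) (g : G) (f : AF A) (a : A) :
    ((rhoA hA g f : AF A) : A → ℂ) a =
      (f : A → ℂ) ⟨g⁻¹ * a * g, by simpa using hA.conj_mem a a.2 g⁻¹⟩ := rfl

end

end Pool.Agent.U350.PG
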