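import Mathlib
import Pool.Agent.U350.PG.Hom
import Pool.Agent.U350.PG.Eig
import Pool.Agent.U350.PG.Gap

/-!
# The rationally irreducible case
-/

set_option autoImplicit false

namespace Pool.Agent.U350.PG

open Module Polynomial
open scoped Pointwise commutatorElement

noncomputable section

/-- rationally irreducible torsion-free abelian normal subgroups -/
structure Plinth (m : ℕ) {G : Type} [Group G] (A : Subgroup G) : Prop where
  normal : A.Normal
  ne : A ≠ ⊥
  comm : ∀ a ∈ A, ∀ b ∈ A, a * b = b * a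
  tf : ∀ a ∈ A, ∀ k : ℕ, 0 < k → a ^ k = 1 → a = 1
  rank : RankLe m ⊥ A
  irr : ∀ C : Subgroup G, C.Normal → C ≤ A → (∀ a ∈ A, ∀ k : ℕ, 0 < k → a ^ k ∈ C → a ∈ C) →
    C = ⊥ ∨ C = A

/-- additive functions on `A` -/
structure AddOn {G : Type} [Group G] (A : Subgroup G) (F : G → ℂ) : Prop where
  mul : ∀ a ∈ A, ∀ b ∈ A, F (a * b) = F a + F b
  ne : ∃ a ∈ A, F a ≠ 0

section

variable {G : Type} [Group G] {A : Subgroup G} {F : G → ℂ}

lemma AddOn.one (hF : AddOn A F) : F 1 = 0 := by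
  have := hF.mul 1 A.one_mem 1 A.one_mem
  rw [mul_one] at this
  linear_combination -this

lemma AddOn.inv (hF : AddOn A F) {a : G} (ha : a ∈ A) : F a⁻¹ = - F a := by
  have := hF.mul a ha a⁻¹ (A.inv_mem ha)
  rw [mul_inv_cancel, hF.one] at this
  linear_combination -this

lemma AddOn.pow (hF : AddOn A F) {a : G} (ha : a ∈ A) (k : ℕ) : F (a ^ k) = k * F a := by
  induction k with
  | zero => simp [hF.one]
  | succ k ih =>
    rw [pow_succ, hF.mul _ (A.pow_mem ha k) _ ha, ih]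
    push_cast
    ring

lemma AddOn.prod (hF : AddOn A F) {k : ℕ} (x : Fin k → G) (hx : ∀ j, x j ∈ A) (e : Fin k → ℤ) :
    F ((List.ofFn fun j => x j ^ e j).prod) = ∑ j, (e j : ℂ) * F (x j) := by
  have h1 : (fun a : A => F a) ∈ AF A := fun a b => hF.mul a a.2 b b.2
  have h2 := AF_prod h1 (fun j => ⟨x j, hx j⟩) e
  rw [coe_prod] at h2
  exact h2

/-- the stabilizer of the line of `F` -/
def LineStab (hA : A.Normal) (hF : AddOn A F) : Subgroup G where
  carrier := {g | ∃ c : ℂ, ∀ a ∈ A, F (g * a * g⁻¹) = c * F a}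
  one_mem' := ⟨1, fun a _ => by simp⟩
  mul_mem' := by
    rintro g h ⟨c, hc⟩ ⟨d, hd⟩
    refine ⟨c * d, fun a ha => ?_⟩
    have h1 : g * h * a * (g * h)⁻¹ = g * (h * a * h⁻¹) * g⁻¹ := by group
    rw [h1, hc _ (hA.conj_mem a ha h), hd a ha, mul_assoc]
  inv_mem' := by
    rintro g ⟨c, hc⟩
    have hc0 : c ≠ 0 := by
      rintro rfl
      obtain ⟨a0, ha0, h0⟩ := hF.ne
      apply h0
      have h1 := hc (g⁻¹ * a0 * g) (by simpa using hA.conj_mem a0 ha0 g⁻¹)
      have h2 : g * (g⁻¹ * a0 * g) * g⁻¹ = a0 := by group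
      rw [h2, zero_mul] at h1
      exact h1
    refine ⟨c⁻¹, fun a ha => ?_⟩
    have h1 := hc (g⁻¹ * a * g) (by simpa using hA.conj_mem a ha g⁻¹)
    have h2 : g * (g⁻¹ * a * g) * g⁻¹ = a := by group
    rw [h2] at h1
    rw [inv_inv, h1, ← mul_assoc, inv_mul_cancel₀ hc0, one_mul]

lemma le_LineStab (hA : A.Normal) (hF : AddOn A F) (hab : ∀ a ∈ A, ∀ b ∈ A, a * b = b * a) :
    A ≤ LineStab hA hF := by
  intro a ha
  refine ⟨1, fun b hb => ?_⟩
  rw [hab a ha b hb, mul_inv_cancel_right, one_mul]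

/-- the character -/
def chi (hA : A.Normal) (hF : AddOn A F) : LineStab hA hF →* ℂ where
  toFun h := F ((h : G) * hF.ne.choose * (h : G)⁻¹) / F hF.ne.choose
  map_one' := by
    simp only [Subgroup.coe_one, one_mul, inv_one, mul_one]
    exact div_self hF.ne.choose_spec.2
  map_mul' g h := by
    obtain ⟨c, hc⟩ := g.2
    obtain ⟨ha0, h0⟩ := hF.ne.choose_spec
    set a0 := hF.ne.choose
    have h1 : ((g * h : LineStab hA hF) : G) * a0 * ((g * h : LineStab hA hF) : G)⁻¹ =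
        (g : G) * ((h : G) * a0 * (h : G)⁻¹) * (g : G)⁻¹ := by
      rw [Subgroup.coe_mul]; group
    rw [h1, hc _ (hA.conj_mem a0 ha0 h), hc _ ha0]
    field_simp

lemma chi_spec (hA : A.Normal) (hF : AddOn A F) (h : LineStab hA hF) :
    ∀ a ∈ A, F ((h : G) * a * (h : G)⁻¹) = chi hA hF h * F a := by
  obtain ⟨c, hc⟩ := h.2
  obtain ⟨ha0, h0⟩ := hF.ne.choose_spec
  intro a ha
  have h1 : chi hA hF h = c := by
    show F ((h : G) * hF.ne.choose * (h : G)⁻¹) / F hF.ne.choose = c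
    rw [hc _ ha0, mul_div_assoc, div_self h0, mul_one]
  rw [h1, hc a ha]

/-- the values of the character are algebraic of degree at most `m` -/
lemma chi_alg {m : ℕ} (hA : A.Normal) (hF : AddOn A F) (hr : RankLe m ⊥ A)
    (h : LineStab hA hF) : ∃ P : ℤ[X], P ≠ 0 ∧ P.natDegree ≤ m ∧ aeval (chi hA hF h) P = 0 := by
  obtain ⟨a0, ha0, h0⟩ := hF.ne
  obtain ⟨e, he, hprod⟩ := hr (fun j => (h : G) ^ (j : ℕ) * a0 * ((h : G) ^ (j : ℕ))⁻¹)
    (fun j => hA.conj_mem a0 ha0 _)
  refine ⟨∑ j : Fin (m + 1), C (e j) * X ^ (j : ℕ), ?_, ?_, ?_⟩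
  · intro hP
    apply he
    ext j
    have h1 := congrArg (fun P : ℤ[X] => P.coeff (j : ℕ)) hP
    simp only [finset_sum_coeff, coeff_C_mul_X_pow, coeff_zero] at h1
    rw [Finset.sum_eq_single j] at h1
    · simpa using h1
    · intro i _ hij
      rw [if_neg]
      intro h2
      exact hij (Fin.ext h2.symm)
    · intro h2
      exact absurd (Finset.mem_univ j) h2
  · apply natDegree_sum_le_of_forall_le
    intro j _
    refine (natDegree_C_mul_X_pow_le _ _).trans ?_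
    omega
  · have h1 := hF.prod (fun j : Fin (m + 1) => (h : G) ^ (j : ℕ) * a0 * ((h : G) ^ (j : ℕ))⁻¹)
      (fun j => hA.conj_mem a0 ha0 _) e
    rw [Subgroup.mem_bot.1 hprod, hF.one] at h1
    have h2 : ∀ j : ℕ, F ((h : G) ^ j * a0 * ((h : G) ^ j)⁻¹) = chi hA hF h ^ j * F a0 := by
      intro j
      have h3 := chi_spec hA hF (h ^ j) a0 ha0
      rw [map_pow, Subgroup.coe_pow] at h3
      exact h3
    simp only [h2] at h1
    have h3 : (aeval (chi hA hF h) (∑ j : Fin (m + 1), C (e j) * X ^ (j : ℕ) : ℤ[X])) * F a0 = 0 := by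
      rw [map_sum, Finset.sum_mul, h1]
      apply Finset.sum_congr rfl
      intro j _
      simp [mul_assoc]
    rcases mul_eq_zero.1 h3 with h4 | h4
    · exact h4
    · exact absurd h4 h0

end

end

end Pool.Agent.U350.PG
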