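import Mathlib
import Pool.Agent.U350.PG.Irr
import Pool.Agent.W963.GE.Index

/-!
# Non-torsion values of the character
-/

set_option autoImplicit false

namespace Pool.Agent.U350.PG

open Module Polynomial
open scoped Pointwise commutatorElement

noncomputable section

variable {G : Type} [Group G] {A : Subgroup G} {F : G → ℂ}

lemma common_exp {L : Type} [Group L] (χ : L →* ℂ) (T : Set L) (hT : T.Finite)
    (hgen : Subgroup.closure T = ⊤) (h : ∀ t : L, ∃ k > 0, χ t ^ k = 1) :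
    ∃ N0 : ℕ, 0 < N0 ∧ ∀ t : L, χ t ^ N0 = 1 := by
  classical
  choose k hk hk1 using h
  refine ⟨∏ t ∈ hT.toFinset, k t, Finset.prod_pos fun t _ => hk t, ?_⟩
  set N0 := ∏ t ∈ hT.toFinset, k t with hN0
  intro t
  have ht : t ∈ Subgroup.closure T := by rw [hgen]; trivial
  induction ht using Subgroup.closure_induction with
  | mem x hx =>
    obtain ⟨q, hq⟩ := Finset.dvd_prod_of_mem k (hT.mem_toFinset.2 hx)
    rw [hN0, hq, pow_mul, hk1, one_pow]
  | one => rw [map_one, one_pow]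
  | mul x y _ _ hx hy => rw [map_mul, mul_pow, hx, hy, one_mul]
  | inv x _ hx =>
    have h1 := chi_inv χ x
    have h2 : (χ x * χ x⁻¹) ^ N0 = 1 := by rw [h1, one_pow]
    rw [mul_pow, hx, one_mul] at h2
    exact h2

lemma ker_fin {L : Type} [Group L] (χ : L →* ℂ) (N0 : ℕ) (h0 : 0 < N0)
    (h : ∀ t : L, χ t ^ N0 = 1) : (χ.toHomUnits.ker).index ≠ 0 := by
  rw [Subgroup.index_ker]
  have : NeZero N0 := ⟨h0.ne'⟩
  have h1 : χ.toHomUnits.range ≤ rootsOfUnity N0 ℂ := by
    rintro _ ⟨t, rfl⟩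
    rw [mem_rootsOfUnity]
    ext
    exact h t
  have h2 : Finite χ.toHomUnits.range := Finite.of_injective _ (Subgroup.inclusion_injective h1)
  exact Nat.card_pos.ne'

theorem chi_inf {m : ℕ} (hP : Plinth m A) (hF : AddOn A F)
    (hidx : (LineStab hP.normal hF).index ≠ 0) (S : Set G) (hfin : S.Finite)
    (hgen : Subgroup.closure S = ⊤) (hvn : VNr A) (hnvn : ¬ VNr (⊥ : Subgroup G)) :
    ∃ h0 : LineStab hP.normal hF, ∀ k > 0, chi hP.normal hF h0 ^ k ≠ 1 := by
  by_contra hcon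
  push Not at hcon
  set L := LineStab hP.normal hF with hL
  obtain ⟨N0, hN0, hexp⟩ := common_exp (chi hP.normal hF) (W963.GE.TT S L L.index)
    (W963.GE.TT_finite S hfin L _) (W963.GE.TT_gen S hgen L hidx le_rfl)
    (fun t => by obtain ⟨k, hk, h⟩ := hcon t; exact ⟨k, hk, h⟩)
  have hker := ker_fin _ N0 hN0 hexp
  set K1 : Subgroup L := (chi hP.normal hF).toHomUnits.ker with hK1
  set K2 : Subgroup G := K1.map L.subtype with hK2
  have hK2i : K2.index ≠ 0 := by
    rw [hK2, Subgroup.index_map_subtype]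
    exact mul_ne_zero hker hidx
  have hfi : K2.FiniteIndex := ⟨hK2i⟩
  have hK : K2.normalCore.index ≠ 0 :=
    (Subgroup.finiteIndex_normalCore (H := K2)).index_ne_zero
  have hK2F : ∀ g ∈ K2, ∀ a ∈ A, F (g * a * g⁻¹) = F a := by
    rintro _ ⟨g, hg, rfl⟩ a ha
    have h1 := chi_spec hP.normal hF g a ha
    have h2 : chi hP.normal hF g = 1 := congrArg (fun u : ℂˣ => (u : ℂ)) (MonoidHom.mem_ker.1 hg)
    rw [h2, one_mul] at h1
    exact h1
  -- the common kernel
  let D : Subgroup G :=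
    { carrier := {a | a ∈ A ∧ ∀ g : G, F (g * a * g⁻¹) = 0}
      one_mem' := ⟨A.one_mem, fun g => by rw [mul_one, mul_inv_cancel, hF.one]⟩
      mul_mem' := by
        rintro a b ⟨ha, ha0⟩ ⟨hb, hb0⟩
        refine ⟨A.mul_mem ha hb, fun g => ?_⟩
        have h1 : g * (a * b) * g⁻¹ = (g * a * g⁻¹) * (g * b * g⁻¹) := by group
        rw [h1, hF.mul _ (hP.normal.conj_mem a ha g) _ (hP.normal.conj_mem b hb g), ha0, hb0,
          add_zero]
      inv_mem' := by
        rintro a ⟨ha, ha0⟩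
        refine ⟨A.inv_mem ha, fun g => ?_⟩
        have h1 : g * a⁻¹ * g⁻¹ = (g * a * g⁻¹)⁻¹ := by group
        rw [h1, hF.inv (hP.normal.conj_mem a ha g), ha0, neg_zero] }
  have hDn : D.Normal := by
    constructor
    rintro a ⟨ha, ha0⟩ g
    refine ⟨hP.normal.conj_mem a ha g, fun h => ?_⟩
    have h1 : h * (g * a * g⁻¹) * h⁻¹ = (h * g) * a * (h * g)⁻¹ := by group
    rw [h1, ha0]
  have hD : D = ⊥ := by
    rcases hP.irr D hDn (fun a ha => ha.1) (by
      rintro a ha k hk ⟨_, hak⟩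
      refine ⟨ha, fun g => ?_⟩
      have h1 : g * a ^ k * g⁻¹ = (g * a * g⁻¹) ^ k := by rw [conj_pow]
      have h2 := hak g
      rw [h1, hF.pow (hP.normal.conj_mem a ha g)] at h2
      rcases mul_eq_zero.1 h2 with h3 | h3
      · exact absurd (Nat.cast_eq_zero.1 h3) hk.ne'
      · exact h3) with h | h
    · exact h
    · exfalso
      obtain ⟨a0, ha0, h0⟩ := hF.ne
      have h1 : a0 ∈ D := by rw [h]; exact ha0
      apply h0
      have h2 := h1.2 1
      rw [one_mul, inv_one, mul_one] at h2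
      exact h2
  apply hnvn
  refine vnr_central A K2.normalCore hvn hK ?_
  intro k hk a ha
  have hA := hP.normal
  have h1 : k * a * k⁻¹ * a⁻¹ ∈ D := by
    refine ⟨A.mul_mem (hA.conj_mem a ha k) (A.inv_mem ha), fun g => ?_⟩
    have h2 : g * (k * a * k⁻¹ * a⁻¹) * g⁻¹ =
        ((g * k * g⁻¹) * (g * a * g⁻¹) * (g * k * g⁻¹)⁻¹) * (g * a * g⁻¹)⁻¹ := by group
    have h3 : g * k * g⁻¹ ∈ K2 :=
      Subgroup.normalCore_le K2 ((Subgroup.normalCore_normal K2).conj_mem k hk g)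
    rw [h2, hF.mul _ (hA.conj_mem _ (hA.conj_mem a ha g) _) _ (A.inv_mem (hA.conj_mem a ha g)),
      hK2F _ h3 _ (hA.conj_mem a ha g), hF.inv (hA.conj_mem a ha g), add_neg_cancel]
  rw [hD] at h1
  exact Subgroup.mem_bot.1 h1

end

end Pool.Agent.U350.PG
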