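import Mathlib
import Pool.Agent.U350.PG.Inf
import Pool.Agent.U350.PG.Gap2
import Pool.Agent.U350.PG.FC

/-!
# The relative version for complex linear factors
-/

set_option autoImplicit false

namespace Pool.Agent.U350.PG

open Module Polynomial
open scoped Pointwise commutatorElement

noncomputable section

variable {G : Type} [Group G]

lemma vnr_central' (A N K : Subgroup G) (h : VNr A) (hK : K.index ≠ 0)
    (hc : ∀ k ∈ K, ∀ a ∈ A, k * a * k⁻¹ * a⁻¹ ∈ N) : VNr N := by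
  obtain ⟨M, hM, s, hs⟩ := h
  refine ⟨M ⊓ K, Subgroup.index_inf_ne_zero hM hK, s + 1, ?_⟩
  rw [Subgroup.lowerCentralSeries_succ, Subgroup.commutator_le]
  intro a ha k hk
  have h1 : a ∈ A := hs (Subgroup.lowerCentralSeries_mono s inf_le_left ha)
  have h2 := N.inv_mem (hc k hk.2 a h1)
  have h3 : (k * a * k⁻¹ * a⁻¹)⁻¹ = ⁅a, k⁆ := by
    rw [commutatorElement_def]
    group
  rw [h3] at h2
  exact h2

lemma vnr_fc' (S : Set G) (hS : S.Finite) (hgen : Subgroup.closure S = ⊤) (A N : Subgroup G)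
    (hN : N.Normal) (h : VNr A)
    (hfc : ∀ a ∈ A, ∃ K : Subgroup G, K.index ≠ 0 ∧ ∀ k ∈ K, k * a * k⁻¹ * a⁻¹ ∈ N) : VNr N := by
  apply vnr_of_vn N
  have hsur := QuotientGroup.mk'_surjective N
  refine vnr_fc (QuotientGroup.mk' N '' S) (hS.image _) ?_ (A.map (QuotientGroup.mk' N))
    (VNr.quot N A h) ?_
  · rw [← MonoidHom.map_closure, hgen, ← MonoidHom.range_eq_map]
    exact MonoidHom.range_eq_top.2 hsur
  · rintro _ ⟨a, ha, rfl⟩
    obtain ⟨K, hK, hc⟩ := hfc a ha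
    refine ⟨K.map (QuotientGroup.mk' N),
      ne_zero_of_dvd_ne_zero hK (Subgroup.index_map_dvd K hsur), ?_⟩
    rintro _ ⟨k, hk, rfl⟩
    have h1 := hc k hk
    rw [← map_mul, ← map_inv, ← map_inv, ← map_mul, ← map_mul, ← MonoidHom.mem_ker,
      QuotientGroup.ker_mk']
    exact h1

variable {A : Subgroup G} {F : G → ℂ}

theorem chi_inf' (hA : A.Normal) (hF : AddOn A F) (N : Subgroup G)
    (hD : ∀ a ∈ A, (∀ g : G, F (g * a * g⁻¹) = 0) → a ∈ N)
    (hidx : (LineStab hA hF).index ≠ 0) (S : Set G) (hfin : S.Finite)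
    (hgen : Subgroup.closure S = ⊤) (hvn : VNr A) (hnvn : ¬ VNr N) :
    ∃ h0 : LineStab hA hF, ∀ k > 0, chi hA hF h0 ^ k ≠ 1 := by
  by_contra hcon
  push Not at hcon
  set L := LineStab hA hF with hL
  obtain ⟨N0, hN0, hexp⟩ := common_exp (chi hA hF) (W963.GE.TT S L L.index)
    (W963.GE.TT_finite S hfin L _) (W963.GE.TT_gen S hgen L hidx le_rfl)
    (fun t => by obtain ⟨k, hk, h⟩ := hcon t; exact ⟨k, hk, h⟩)
  have hker := ker_fin _ N0 hN0 hexp
  set K1 : Subgroup L := (chi hA hF).toHomUnits.ker with hK1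
  set K2 : Subgroup G := K1.map L.subtype with hK2
  have hK2i : K2.index ≠ 0 := by
    rw [hK2, Subgroup.index_map_subtype]
    exact mul_ne_zero hker hidx
  have hfi : K2.FiniteIndex := ⟨hK2i⟩
  have hK : K2.normalCore.index ≠ 0 :=
    (Subgroup.finiteIndex_normalCore (H := K2)).index_ne_zero
  have hK2F : ∀ g ∈ K2, ∀ a ∈ A, F (g * a * g⁻¹) = F a := by
    rintro _ ⟨g, hg, rfl⟩ a ha
    have h1 := chi_spec hA hF g a ha
    have h2 : chi hA hF g = 1 := congrArg (fun u : ℂˣ => (u : ℂ)) (MonoidHom.mem_ker.1 hg)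
    rw [h2, one_mul] at h1
    exact h1
  apply hnvn
  refine vnr_central' A N K2.normalCore hvn hK ?_
  intro k hk a ha
  refine hD _ (A.mul_mem (hA.conj_mem a ha k) (A.inv_mem ha)) fun g => ?_
  have h2 : g * (k * a * k⁻¹ * a⁻¹) * g⁻¹ =
      ((g * k * g⁻¹) * (g * a * g⁻¹) * (g * k * g⁻¹)⁻¹) * (g * a * g⁻¹)⁻¹ := by group
  have h3 : g * k * g⁻¹ ∈ K2 :=
    Subgroup.normalCore_le K2 ((Subgroup.normalCore_normal K2).conj_mem k hk g)
  rw [h2, hF.mul _ (hA.conj_mem _ (hA.conj_mem a ha g) _) _ (A.inv_mem (hA.conj_mem a ha g)),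
    hK2F _ h3 _ (hA.conj_mem a ha g), hF.inv (hA.conj_mem a ha g), add_neg_cancel]

/-- additive functions are invariant under conjugation by `A` -/
lemma AddOn.conj (hF : AddOn A F) {a b : G} (ha : a ∈ A) (hb : b ∈ A) :
    F (a * b * a⁻¹) = F b := by
  rw [hF.mul _ (A.mul_mem ha hb) _ (A.inv_mem ha), hF.mul _ ha _ hb, hF.inv ha]
  ring

/-- the gap from one additive function whose line has a stabilizer of small index -/
theorem gap_addOn (hA : A.Normal) (hF : AddOn A F) (N : Subgroup G)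
    (hD : ∀ a ∈ A, (∀ g : G, F (g * a * g⁻¹) = 0) → a ∈ N) {n : ℕ}
    (hidx : (LineStab hA hF).index ≠ 0) (hn : (LineStab hA hF).index ≤ n) (S : Set G)
    (hfin : S.Finite) (hne : S.Nonempty)
    (hgen : Subgroup.closure S = ⊤) (hvn : VNr A) (hnvn : ¬ VNr N) {y : ℝ} (hy0 : 0 ≤ y)
    (hy1 : y ≤ 1 / 2) (hm : ∀ t : LineStab hA hF, IsIntegral ℤ (chi hA hF t) →
      (∀ m > 0, chi hA hF t ^ m ≠ 1) → y ≤ Real.log (W963.GE.MM (chi hA hF t))) :
    y / (24 * n) ≤ H746UG.rho S := by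
  set L := LineStab hA hF with hL
  obtain ⟨h0, hinf⟩ := chi_inf' hA hF N hD hidx S hfin hgen hvn hnvn
  have hAn := hA
  obtain ⟨N2, hN2n, hAN2, hN2i, s, hs⟩ := VNr.normal A hvn
  obtain ⟨a0, ha0, hFa0⟩ := hF.ne
  have hAL : A ≤ L := fun a ha => ⟨1, fun b hb => by rw [hF.conj ha hb, one_mul]⟩
  have hχA : ∀ b ∈ A.subgroupOf L, chi hA hF b = 1 := by
    intro b hb
    have h1 := chi_spec hA hF b a0 ha0
    have h2 : (b : G) ∈ A := hb
    rw [hF.conj h2 ha0] at h1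
    have h3 : (chi hA hF b - 1) * F a0 = 0 := by rw [sub_mul, ← h1, one_mul, sub_self]
    rcases mul_eq_zero.1 h3 with h4 | h4
    · exact sub_eq_zero.1 h4
    · exact absurd h4 hFa0
  have hs' : (N2.subgroupOf L).lowerCentralSeries s ≤ A.subgroupOf L := by
    intro x hx
    have h1 : (x : G) ∈ ((N2.subgroupOf L).lowerCentralSeries s).map L.subtype := ⟨x, hx, rfl⟩
    rw [Subgroup.map_lowerCentralSeries] at h1
    have h2 : (N2.subgroupOf L).map L.subtype ≤ N2 := by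
      rintro _ ⟨y, hy, rfl⟩
      exact hy
    exact hs (Subgroup.lowerCentralSeries_mono s h2 h1)
  obtain ⟨FF, hFF⟩ := exists_filt (chi hA hF) (N2.subgroupOf L) (A.subgroupOf L) inferInstance
    (fun x hx => hAN2 hx) hχA hs'
  have ht : h0 ^ N2.index ∈ N2.subgroupOf L := by
    show ((h0 ^ N2.index : L) : G) ∈ N2
    rw [Subgroup.coe_pow]
    exact Subgroup.pow_index_mem N2 _
  have hχt : chi hA hF (h0 ^ N2.index) ≠ 1 := by
    rw [map_pow]
    exact hinf _ (Nat.pos_of_ne_zero hN2i)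
  obtain ⟨c, hc, hcA⟩ := ext_all hFF inferInstance inferInstance ht hχt (f := fun h => F (h : G))
    (fun a ha b hb => hF.mul _ ha _ hb) (fun h b hb => chi_spec hA hF h b hb)
  have hgap1 := aff_gap_y L (W963.GE.TT S L n) (W963.GE.TT_finite S hfin L _)
    (W963.GE.TT_gen S hgen L hidx hn) (chi hA hF) c hc ⟨a0, hAL ha0⟩ h0
    (hχA _ ha0) (by rw [hcA ⟨a0, hAL ha0⟩ ha0]; exact hFa0) hinf hy0 hy1 hm
  have hn1 : 1 ≤ n := (Nat.pos_of_ne_zero hidx).trans_le hn
  have hTT := W963.GE.rho_TT S hfin hne L hn1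
  have hrho : 0 ≤ H746UG.rho S := by
    have := H746UG.tendsto_rho S
    refine ge_of_tendsto' this fun n => ?_
    positivity
  have h2 : ((2 * n - 1 : ℕ) : ℝ) ≤ 2 * (n : ℝ) := by
    have h3 : ((2 * n - 1 : ℕ) : ℝ) ≤ ((2 * n : ℕ) : ℝ) := by
      exact_mod_cast Nat.sub_le _ _
    refine h3.trans ?_
    push_cast
    exact le_rfl
  have h4 : y / 12 ≤ 2 * (n : ℝ) * H746UG.rho S :=
    hgap1.trans (hTT.trans (mul_le_mul_of_nonneg_right h2 hrho))
  have hnR : (0 : ℝ) < n := by exact_mod_cast hn1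
  rw [div_le_iff₀ (by positivity)]
  linarith

end

end Pool.Agent.U350.PG
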