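import Mathlib
import Pool.Agent.U350.PG.Rel
import Pool.Agent.U350.PG.Eig

/-!
# Complex linear factors
-/

set_option autoImplicit false

namespace Pool.Agent.U350.PG

open Module Polynomial
open scoped Pointwise commutatorElement

noncomputable section

section eig

variable {E : Type} [AddCommGroup E] [Module ℂ E]

lemma ev_iff (f : E →ₗ[ℂ] E) (μ : ℂ) : Module.End.HasEigenvalue f μ ↔ ∃ v, v ≠ 0 ∧ f v = μ • v := by
  constructor
  · intro h
    obtain ⟨v, hv⟩ := h.exists_hasEigenvector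
    exact ⟨v, hv.2, Module.End.mem_eigenspace_iff.1 hv.1⟩
  · rintro ⟨v, hv, h⟩
    exact Module.End.hasEigenvalue_of_hasEigenvector ⟨Module.End.mem_eigenspace_iff.2 h, hv⟩

lemma not_ev_surj [FiniteDimensional ℂ E] {f : E →ₗ[ℂ] E} {μ : ℂ}
    (h : ¬ Module.End.HasEigenvalue f μ) : ∀ v, ∃ u, f u - μ • u = v := by
  have hinj : Function.Injective (f - μ • (LinearMap.id : E →ₗ[ℂ] E)) := by
    rw [← LinearMap.ker_eq_bot, LinearMap.ker_eq_bot']
    intro v hv
    by_contra hv0
    apply h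
    rw [ev_iff]
    refine ⟨v, hv0, ?_⟩
    rw [LinearMap.sub_apply, sub_eq_zero] at hv
    exact hv
  exact LinearMap.surjective_of_injective hinj

lemma ev_dual [FiniteDimensional ℂ E] {f : E →ₗ[ℂ] E} {μ : ℂ} (l : Module.Dual ℂ E) (hl : l ≠ 0)
    (h : ∀ v, l (f v) = μ * l v) : Module.End.HasEigenvalue f μ := by
  by_contra hcon
  apply hl
  apply LinearMap.ext
  intro v
  obtain ⟨u, rfl⟩ := not_ev_surj hcon v
  rw [map_sub, map_smul, h, smul_eq_mul, sub_self, LinearMap.zero_apply]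

variable {G : Type} [Group G] (σ : G →* (E →ₗ[ℂ] E)) (W : Submodule ℂ E)
  (hW : ∀ g, ∀ w ∈ W, σ g w ∈ W)

/-- the restriction to an invariant subspace -/
def resC : G →* (W →ₗ[ℂ] W) where
  toFun g := (σ g).restrict (hW g)
  map_one' := by
    ext w
    simp [LinearMap.restrict_apply]
  map_mul' g h := by
    ext w
    simp [LinearMap.restrict_apply, Module.End.mul_apply]

/-- the action on the quotient -/
def quoC : G →* ((E ⧸ W) →ₗ[ℂ] (E ⧸ W)) where
  toFun g := W.mapQ W (σ g) (fun w hw => hW g w hw)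
  map_one' := by
    apply LinearMap.ext
    intro x
    obtain ⟨v, rfl⟩ := W.mkQ_surjective x
    simp [Submodule.mkQ_apply, Submodule.mapQ_apply]
  map_mul' g h := by
    apply LinearMap.ext
    intro x
    obtain ⟨v, rfl⟩ := W.mkQ_surjective x
    simp [Submodule.mkQ_apply, Submodule.mapQ_apply, Module.End.mul_apply]

lemma ev_res {g : G} {μ : ℂ} (h : Module.End.HasEigenvalue (resC σ W hW g) μ) :
    Module.End.HasEigenvalue (σ g) μ := by
  rw [ev_iff] at h ⊢
  obtain ⟨v, hv, h1⟩ := h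
  refine ⟨v, fun h => hv (Subtype.ext h), ?_⟩
  exact congrArg Subtype.val h1

lemma ev_quo [FiniteDimensional ℂ E] {g : G} {μ : ℂ}
    (h : Module.End.HasEigenvalue (quoC σ W hW g) μ) : Module.End.HasEigenvalue (σ g) μ := by
  by_contra hcon
  have hsurj := not_ev_surj hcon
  rw [ev_iff] at h
  obtain ⟨w, hw, h1⟩ := h
  have hs : Function.Surjective (quoC σ W hW g - μ • (LinearMap.id : (E ⧸ W) →ₗ[ℂ] (E ⧸ W))) := by
    intro x
    obtain ⟨v, rfl⟩ := W.mkQ_surjective x
    obtain ⟨u, rfl⟩ := hsurj v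
    exact ⟨W.mkQ u, rfl⟩
  have hi := LinearMap.injective_iff_surjective.2 hs
  apply hw
  apply hi
  rw [map_zero, LinearMap.sub_apply, h1]
  show μ • w - μ • w = 0
  rw [sub_self]

end eig

/-- a factor which embeds in a complex linear representation -/
structure CFac {G : Type} [Group G] (A N : Subgroup G) {E : Type} [AddCommGroup E] [Module ℂ E]
    (σ : G →* (E →ₗ[ℂ] E)) (φ : G → E) : Prop where
  add : ∀ a ∈ A, ∀ b ∈ A, φ (a * b) = φ a + φ b
  zero : ∀ a ∈ A, φ a = 0 ↔ a ∈ N
  eqv : ∀ g, ∀ a ∈ A, φ (g * a * g⁻¹) = σ g (φ a)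

section

variable {G : Type} [Group G] {A N : Subgroup G} {E : Type} [AddCommGroup E] [Module ℂ E]
  {σ : G →* (E →ₗ[ℂ] E)} {φ : G → E}

lemma CFac.one (h : CFac A N σ φ) : φ 1 = 0 := by
  have h1 := h.add 1 A.one_mem 1 A.one_mem
  rw [mul_one] at h1
  exact left_eq_add.1 h1

lemma CFac.inv (h : CFac A N σ φ) {a : G} (ha : a ∈ A) : φ a⁻¹ = - φ a := by
  have h1 := h.add a ha a⁻¹ (A.inv_mem ha)
  rw [mul_inv_cancel, h.one] at h1
  exact (neg_eq_of_add_eq_zero_right h1.symm).symm

/-- the subgroup mapped to a subspace -/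
def CFac.sub (h : CFac A N σ φ) (W : Submodule ℂ E) : Subgroup G where
  carrier := {a | a ∈ A ∧ φ a ∈ W}
  one_mem' := ⟨A.one_mem, by rw [h.one]; exact W.zero_mem⟩
  mul_mem' := by
    rintro a b ⟨ha, haW⟩ ⟨hb, hbW⟩
    exact ⟨A.mul_mem ha hb, by rw [h.add a ha b hb]; exact W.add_mem haW hbW⟩
  inv_mem' := by
    rintro a ⟨ha, haW⟩
    exact ⟨A.inv_mem ha, by rw [h.inv ha]; exact W.neg_mem haW⟩

lemma CFac.sub_normal (h : CFac A N σ φ) (hA : A.Normal) (W : Submodule ℂ E)
    (hW : ∀ g, ∀ w ∈ W, σ g w ∈ W) : (h.sub W).Normal := by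
  constructor
  rintro a ⟨ha, haW⟩ g
  exact ⟨hA.conj_mem a ha g, by rw [h.eqv g a ha]; exact hW g _ haW⟩

open Classical in
/-- the map to the subspace -/
def phiW (φ : G → E) (W : Submodule ℂ E) : G → W := fun g =>
  if h : φ g ∈ W then ⟨φ g, h⟩ else 0

omit [Group G] in
lemma phiW_eq {W : Submodule ℂ E} {g : G} (h : φ g ∈ W) : phiW φ W g = ⟨φ g, h⟩ := dif_pos h

lemma CFac.res (h : CFac A N σ φ) (hA : A.Normal) (W : Submodule ℂ E)
    (hW : ∀ g, ∀ w ∈ W, σ g w ∈ W) :
    CFac (h.sub W) N (resC σ W hW) (phiW φ W) := by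
  constructor
  · intro a ha b hb
    rw [phiW_eq ha.2, phiW_eq hb.2, phiW_eq ((h.sub W).mul_mem ha hb).2]
    exact Subtype.ext (h.add a ha.1 b hb.1)
  · intro a ha
    rw [phiW_eq ha.2, ← h.zero a ha.1]
    constructor
    · intro h1
      exact congrArg Subtype.val h1
    · intro h1
      exact Subtype.ext h1
  · intro g a ha
    rw [phiW_eq ha.2, phiW_eq ((h.sub_normal hA W hW).conj_mem a ha g).2]
    exact Subtype.ext (h.eqv g a ha.1)

lemma CFac.quo (h : CFac A N σ φ) (W : Submodule ℂ E)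
    (hW : ∀ g, ∀ w ∈ W, σ g w ∈ W) :
    CFac A (h.sub W) (quoC σ W hW) (fun g => W.mkQ (φ g)) := by
  constructor
  · intro a ha b hb
    rw [h.add a ha b hb, map_add]
  · intro a ha
    rw [Submodule.mkQ_apply, Submodule.Quotient.mk_eq_zero]
    exact ⟨fun h1 => ⟨ha, h1⟩, fun h1 => h1.2⟩
  · intro g a ha
    rw [h.eqv g a ha]
    rfl

/-- the irreducible case -/
theorem c_irr (hsol : Group.IsSolvable G) (S : Set G) (hfin : S.Finite) (hne : S.Nonempty)
    (hgen : Subgroup.closure S = ⊤) {y : ℝ} (hy0 : 0 ≤ y) (hy1 : y ≤ 1 / 2)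
    [FiniteDimensional ℂ E] [Nontrivial E] (hA : A.Normal) (h : CFac A N σ φ) (hvn : VNr A)
    (hnvn : ¬ VNr N) (hirr : ∀ W : Submodule ℂ E, W ≠ ⊥ → (∀ g, ∀ w ∈ W, σ g w ∈ W) → W = ⊤)
    (hev : ∀ g l, Module.End.HasEigenvalue (σ g) l → IsIntegral ℤ l → (∀ k > 0, l ^ k ≠ 1) →
      y ≤ Real.log (W963.GE.MM l)) :
    y / (24 * (finrank ℂ E ^ 6 : ℕ)) ≤ H746UG.rho S := by
  classical
  -- the dual representation
  let σd : G →* (Module.Dual ℂ E →ₗ[ℂ] Module.Dual ℂ E) :=
    { toFun := fun g => (σ g⁻¹).dualMap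
      map_one' := by
        rw [inv_one, map_one]
        apply LinearMap.ext
        intro l
        apply LinearMap.ext
        intro v
        rfl
      map_mul' := by
        intro g g'
        rw [mul_inv_rev, map_mul]
        apply LinearMap.ext
        intro l
        apply LinearMap.ext
        intro v
        rfl }
  obtain ⟨H0, hH0, hH0m, l, hl0, hl⟩ := eig6 G hsol (Module.Dual ℂ E) σd
  rw [Subspace.dual_finrank_eq] at hH0m
  -- the span
  have hspan : Submodule.span ℂ (φ '' A) = ⊤ := by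
    apply hirr
    · intro h0
      apply hnvn
      obtain ⟨M, hM, s, hs⟩ := hvn
      refine ⟨M, hM, s, hs.trans ?_⟩
      intro a ha
      rw [← h.zero a ha]
      have h1 : φ a ∈ Submodule.span ℂ (φ '' A) := Submodule.subset_span ⟨a, ha, rfl⟩
      rw [h0] at h1
      exact (Submodule.mem_bot ℂ).1 h1
    · intro g w hw
      induction hw using Submodule.span_induction with
      | mem x hx =>
        obtain ⟨a, ha, rfl⟩ := hx
        rw [← h.eqv g a ha]
        exact Submodule.subset_span ⟨_, hA.conj_mem a ha g, rfl⟩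
      | zero => rw [map_zero]; exact Submodule.zero_mem _
      | add x y _ _ hx hy => rw [map_add]; exact Submodule.add_mem _ hx hy
      | smul c x _ hx => rw [map_smul]; exact Submodule.smul_mem _ _ hx
  have hext : ∀ l1 l2 : Module.Dual ℂ E, (∀ a ∈ A, l1 (φ a) = l2 (φ a)) → l1 = l2 := by
    intro l1 l2 h12
    apply LinearMap.ext_on hspan
    rintro _ ⟨a, ha, rfl⟩
    exact h12 a ha
  set F : G → ℂ := fun g => l (φ g) with hFdef
  have hF : AddOn A F := by
    constructor
    · intro a ha b hb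
      simp only [hFdef]
      rw [h.add a ha b hb, map_add]
    · by_contra hcon
      push Not at hcon
      exact hl0 (hext l 0 fun a ha => hcon a ha)
  have hD : ∀ a ∈ A, (∀ g : G, F (g * a * g⁻¹) = 0) → a ∈ N := by
    intro a ha h1
    let W : Submodule ℂ E :=
      { carrier := {w | ∀ g, l (σ g w) = 0}
        zero_mem' := by intro g; rw [map_zero, map_zero]
        add_mem' := by
          intro x y hx hy g
          rw [map_add, map_add, hx g, hy g, add_zero]
        smul_mem' := by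
          intro c x hx g
          rw [map_smul, map_smul, hx g, smul_zero] }
    have hWinv : ∀ g, ∀ w ∈ W, σ g w ∈ W := by
      intro g w hw g'
      rw [← Module.End.mul_apply, ← map_mul]
      exact hw _
    have hW0 : W = ⊥ := by
      by_contra hcon
      have h2 := hirr W hcon hWinv
      apply hl0
      apply LinearMap.ext
      intro w
      have h3 : w ∈ W := by rw [h2]; trivial
      have h4 := h3 1
      rw [map_one, Module.End.one_apply] at h4
      exact h4
    rw [← h.zero a ha]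
    have h2 : φ a ∈ W := by
      intro g
      rw [← h.eqv g a ha]
      exact h1 g
    rw [hW0] at h2
    exact (Submodule.mem_bot ℂ).1 h2
  have hH0L : H0 ≤ LineStab hA hF := by
    intro g hg
    obtain ⟨c, hc⟩ := hl g⁻¹ (H0.inv_mem hg)
    refine ⟨c, fun a ha => ?_⟩
    have h1 := LinearMap.congr_fun hc (φ a)
    have h2 : l (σ (g⁻¹)⁻¹ (φ a)) = c * l (φ a) := h1
    rw [inv_inv] at h2
    simp only [hFdef]
    rw [h.eqv g a ha]
    exact h2
  have hLd : (LineStab hA hF).index ∣ H0.index := Subgroup.index_dvd_of_le hH0L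
  have hLi : (LineStab hA hF).index ≠ 0 := ne_zero_of_dvd_ne_zero hH0 hLd
  have hLm : (LineStab hA hF).index ≤ finrank ℂ E ^ 6 :=
    (Nat.le_of_dvd (Nat.pos_of_ne_zero hH0) hLd).trans hH0m
  refine gap_addOn hA hF N hD hLi hLm S hfin hne hgen hvn hnvn hy0 hy1 ?_
  intro t hti htr
  refine hev t _ ?_ hti htr
  refine ev_dual l hl0 ?_
  have h1 : l ∘ₗ (σ t) = chi hA hF t • l := by
    apply hext
    intro a ha
    rw [LinearMap.comp_apply, ← h.eqv t a ha]
    exact chi_spec hA hF t a ha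
  intro v
  exact LinearMap.congr_fun h1 v

end

/-- induction on the dimension -/
theorem c_step {G : Type} [Group G] (hsol : Group.IsSolvable G) (S : Set G) (hfin : S.Finite)
    (hne : S.Nonempty) (hgen : Subgroup.closure S = ⊤) {y : ℝ} (hy0 : 0 ≤ y) (hy1 : y ≤ 1 / 2)
    (m : ℕ) (e : ℕ) : e ≤ m → ∀ (E : Type) [AddCommGroup E] [Module ℂ E] [FiniteDimensional ℂ E]
    (σ : G →* (E →ₗ[ℂ] E)) (φ : G → E) (A N : Subgroup G), finrank ℂ E = e → A.Normal →
    CFac A N σ φ → VNr A → ¬ VNr N →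
    (∀ g l, Module.End.HasEigenvalue (σ g) l → IsIntegral ℤ l → (∀ k > 0, l ^ k ≠ 1) →
      y ≤ Real.log (W963.GE.MM l)) → y / (24 * (m : ℝ) ^ 6) ≤ H746UG.rho S := by
  induction e using Nat.strong_induction_on with
  | _ e ih =>
    intro hem E _ _ _ σ φ A N he hA h hvn hnvn hev
    rcases subsingleton_or_nontrivial E with hE | hE
    · exfalso
      apply hnvn
      obtain ⟨M, hM, s, hs⟩ := hvn
      exact ⟨M, hM, s, hs.trans fun a ha => (h.zero a ha).1 (Subsingleton.elim _ _)⟩
    · by_cases hex : ∃ W : Submodule ℂ E, W ≠ ⊥ ∧ W ≠ ⊤ ∧ ∀ g, ∀ w ∈ W, σ g w ∈ W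
      · obtain ⟨W, hW0, hW1, hW⟩ := hex
        have hWd : finrank ℂ W < e := by
          rw [← he]
          exact Submodule.finrank_lt hW1
        have hQd : finrank ℂ (E ⧸ W) < e := by
          have h1 := Submodule.finrank_quotient_add_finrank W
          have h2 : 0 < finrank ℂ W :=
            Nat.pos_of_ne_zero fun h => hW0 (Submodule.finrank_eq_zero.1 h)
          omega
        by_cases hvC : VNr (h.sub W)
        · exact ih _ hWd (by omega) W (resC σ W hW) (phiW φ W) (h.sub W) N rfl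
            (h.sub_normal hA W hW) (h.res hA W hW) hvC hnvn
            (fun g l hl => hev g l (ev_res σ W hW hl))
        · exact ih _ hQd (by omega) (E ⧸ W) (quoC σ W hW) (fun g => W.mkQ (φ g)) A (h.sub W) rfl
            hA (h.quo W hW) hvn hvC (fun g l hl => hev g l (ev_quo σ W hW hl))
      · have hirr : ∀ W : Submodule ℂ E, W ≠ ⊥ → (∀ g, ∀ w ∈ W, σ g w ∈ W) → W = ⊤ := by
          intro W h0 hW
          by_contra h1
          exact hex ⟨W, h0, h1, hW⟩
        have h1 := c_irr hsol S hfin hne hgen hy0 hy1 hA h hvn hnvn hirr hev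
        refine le_trans ?_ h1
        have he0 : 0 < finrank ℂ E := finrank_pos
        have h2 : ((finrank ℂ E ^ 6 : ℕ) : ℝ) ≤ (m : ℝ) ^ 6 := by
          have : finrank ℂ E ^ 6 ≤ m ^ 6 := Nat.pow_le_pow_left (he.le.trans hem) 6
          exact_mod_cast this
        have h3 : (0 : ℝ) < ((finrank ℂ E ^ 6 : ℕ) : ℝ) := by
          exact_mod_cast Nat.pow_pos he0
        apply div_le_div_of_nonneg_left hy0 (by positivity)
        linarith

end

end Pool.Agent.U350.PG
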