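import Mathlib
import Pool.Agent.U350.PG.Inf

/-!
# The gap in the rationally irreducible case
-/

set_option autoImplicit false

namespace Pool.Agent.U350.PG

open Module Polynomial
open scoped Pointwise commutatorElement

noncomputable section

theorem main_irr : ∃ κ : ℝ, 0 < κ ∧ ∀ (G : Type) [Group G], Group.IsSolvable G →
    ∀ S : Set G, S.Finite → S.Nonempty → Subgroup.closure S = ⊤ →
    ∀ (m : ℕ) (A : Subgroup G), Plinth m A → VNr A → ¬ VNr (⊥ : Subgroup G) →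
    κ / ((m : ℝ) ^ 6 * (1 + Real.log (1 + m)) ^ 3) ≤ H746UG.rho S := by
  classical
  obtain ⟨κ, hκ, hgap⟩ := aff_gap
  refine ⟨κ / 2, half_pos hκ, ?_⟩
  intro G _ hsol S hfin hne hgen m A hP hvn hnvn
  have hA := hP.normal
  obtain ⟨hfd, hfr⟩ := AF_finrank hP.rank
  have hnt : Nontrivial (AF A) := AF_nontrivial hP.comm hP.tf hP.ne
  obtain ⟨H0, hH0, hH0m, v, hv0, hv⟩ := eig6 G hsol (AF A) (rhoA hA)
  have hm1 : 1 ≤ m := by
    have := finrank_pos (R := ℂ) (M := AF A)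
    omega
  -- the additive function
  set F : G → ℂ := fun g => if h : g ∈ A then (v : A → ℂ) ⟨g, h⟩ else 0 with hFdef
  have hFA : ∀ g (h : g ∈ A), F g = (v : A → ℂ) ⟨g, h⟩ := fun g h => by
    rw [hFdef]; exact dif_pos h
  have hF : AddOn A F := by
    constructor
    · intro a ha b hb
      rw [hFA a ha, hFA b hb, hFA _ (A.mul_mem ha hb)]
      exact v.2 ⟨a, ha⟩ ⟨b, hb⟩
    · by_contra hcon
      push Not at hcon
      apply hv0
      apply Subtype.ext
      funext a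
      have h1 := hcon a a.2
      rw [hFA a a.2] at h1
      exact h1
  have hH0L : H0 ≤ LineStab hA hF := by
    intro h hh
    obtain ⟨c, hc⟩ := hv h⁻¹ (H0.inv_mem hh)
    refine ⟨c, fun a ha => ?_⟩
    have h1 := congrFun (congrArg Subtype.val hc) ⟨a, ha⟩
    rw [rhoA_apply] at h1
    rw [hFA a ha, hFA _ (hA.conj_mem a ha h)]
    refine Eq.trans ?_ h1
    refine congrArg (v : A → ℂ) (Subtype.ext ?_)
    simp
  set L := LineStab hA hF with hL
  have hLd : L.index ∣ H0.index := Subgroup.index_dvd_of_le hH0L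
  have hLi : L.index ≠ 0 := ne_zero_of_dvd_ne_zero hH0 hLd
  have hLm : L.index ≤ m ^ 6 :=
    (Nat.le_of_dvd (Nat.pos_of_ne_zero hH0) hLd).trans (hH0m.trans (Nat.pow_le_pow_left hfr 6))
  obtain ⟨h0, hinf⟩ := chi_inf hP hF hLi S hfin hgen hvn hnvn
  have hAn := hA
  obtain ⟨N2, hN2n, hAN2, hN2i, s, hs⟩ := VNr.normal A hvn
  have hAL : A ≤ L := le_LineStab hA hF hP.comm
  obtain ⟨a0, ha0, hFa0⟩ := hF.ne
  have hχA : ∀ b ∈ A.subgroupOf L, chi hA hF b = 1 := by
    intro b hb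
    have h1 := chi_spec hA hF b a0 ha0
    have h2 : (b : G) ∈ A := hb
    rw [hP.comm b h2 a0 ha0, mul_inv_cancel_right] at h1
    have h3 : (chi hA hF b - 1) * F a0 = 0 := by rw [sub_mul, ← h1, one_mul, sub_self]
    rcases mul_eq_zero.1 h3 with h4 | h4
    · exact sub_eq_zero.1 h4
    · exact absurd h4 hFa0
  have hs' : (N2.subgroupOf L).lowerCentralSeries s ≤ A.subgroupOf L := by
    intro x hx
    have h1 : (x : G) ∈ ((N2.subgroupOf L).lowerCentralSeries s).map L.subtype := ⟨x, hx, rfl⟩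
    rw [Subgroup.map_lowerCentralSeries] at h1
    have h2 : (N2.subgroupOf L).map L.subtype ≤ N2 := by
      rintro _ ⟨y, hy, rfl⟩
      exact hy
    exact hs (Subgroup.lowerCentralSeries_mono s h2 h1)
  obtain ⟨FF, hFF⟩ := exists_filt (chi hA hF) (N2.subgroupOf L) (A.subgroupOf L) inferInstance
    (fun x hx => hAN2 hx) hχA hs'
  have ht : h0 ^ N2.index ∈ N2.subgroupOf L := by
    show ((h0 ^ N2.index : L) : G) ∈ N2
    rw [Subgroup.coe_pow]
    exact Subgroup.pow_index_mem N2 _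
  have hχt : chi hA hF (h0 ^ N2.index) ≠ 1 := by
    rw [map_pow]
    exact hinf _ (Nat.pos_of_ne_zero hN2i)
  obtain ⟨c, hc, hcA⟩ := ext_all hFF inferInstance inferInstance ht hχt (f := fun h => F (h : G))
    (fun a ha b hb => hF.mul _ ha _ hb) (fun h b hb => chi_spec hA hF h b hb)
  have hgap1 := hgap L (W963.GE.TT S L (m ^ 6)) (W963.GE.TT_finite S hfin L _)
    (W963.GE.TT_gen S hgen L hLi hLm) (chi hA hF) c hc ⟨a0, hAL ha0⟩ h0
    (hχA _ ha0) (by rw [hcA ⟨a0, hAL ha0⟩ ha0]; exact hFa0) hinf m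
    (fun t => chi_alg hA hF hP.rank t)
  have hm6 : 1 ≤ m ^ 6 := Nat.one_le_pow _ _ hm1
  have hTT := W963.GE.rho_TT S hfin hne L hm6
  have hrho : 0 ≤ H746UG.rho S := by
    have := H746UG.tendsto_rho S
    refine ge_of_tendsto' this fun n => ?_
    positivity
  have h2 : ((2 * m ^ 6 - 1 : ℕ) : ℝ) ≤ 2 * (m : ℝ) ^ 6 := by
    have h3 : ((2 * m ^ 6 - 1 : ℕ) : ℝ) ≤ ((2 * m ^ 6 : ℕ) : ℝ) := by
      exact_mod_cast Nat.sub_le _ _
    refine h3.trans ?_
    push_cast
    exact le_rfl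
  have h4 : κ / (1 + Real.log (1 + m)) ^ 3 ≤ 2 * (m : ℝ) ^ 6 * H746UG.rho S :=
    hgap1.trans (hTT.trans (mul_le_mul_of_nonneg_right h2 hrho))
  have hlog : 0 < (1 + Real.log (1 + (m : ℝ))) ^ 3 := by
    have : 0 ≤ Real.log (1 + (m : ℝ)) := Real.log_nonneg (by
      have : (0 : ℝ) ≤ m := Nat.cast_nonneg m
      linarith)
    positivity
  have hmR : 0 < (m : ℝ) ^ 6 := by
    have : (0 : ℝ) < m := by exact_mod_cast hm1
    positivity
  rw [div_le_iff₀ hlog] at h4
  rw [div_le_iff₀ (mul_pos hmR hlog)]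
  nlinarith [h4]

end

end Pool.Agent.U350.PG
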