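import Mathlib
import Pool.Agent.U350.PG.Main
import Pool.Agent.U350.PG.FC

/-!
# Induction along a series
-/

set_option autoImplicit false

namespace Pool.Agent.U350.PG

open Module Polynomial
open scoped Pointwise commutatorElement

noncomputable section

/-- the bound -/
def gapB (κ : ℝ) (m : ℕ) : ℝ := κ / ((m : ℝ) ^ 6 * (1 + Real.log (1 + m)) ^ 3)

lemma gapB_anti {κ : ℝ} (hκ : 0 < κ) {r m : ℕ} (hr : 1 ≤ r) (hrm : r ≤ m) :
    gapB κ m ≤ gapB κ r := by
  unfold gapB
  have h1 : (1 : ℝ) ≤ r := by exact_mod_cast hr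
  have h2 : (r : ℝ) ≤ m := by exact_mod_cast hrm
  have h3 : Real.log (1 + (r : ℝ)) ≤ Real.log (1 + m) := Real.log_le_log (by linarith) (by linarith)
  have h4 : 0 ≤ Real.log (1 + (r : ℝ)) := Real.log_nonneg (by linarith)
  apply div_le_div_of_nonneg_left hκ.le
  · positivity
  · apply mul_le_mul
    · exact pow_le_pow_left₀ (by linarith) h2 6
    · exact pow_le_pow_left₀ (by linarith) (by linarith) 3
    · positivity
    · positivity

section

variable {G : Type} [Group G]

lemma rank_sub {r : ℕ} {A C : Subgroup G} (hCA : C ≤ A) (hne : ∃ a ∈ A, a ∉ C)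
    (hiso : ∀ a ∈ A, ∀ k : ℕ, 0 < k → a ^ k ∈ C → a ∈ C) (hr : RankLe (r + 1) ⊥ A) :
    RankLe r ⊥ C := by
  intro x hx
  obtain ⟨a, ha, haC⟩ := hne
  obtain ⟨e, he, hprod⟩ := hr (Fin.cons a x) (by
    intro j
    refine Fin.cases ha (fun j => ?_) j
    exact hCA (hx j))
  rw [List.ofFn_succ, List.prod_cons] at hprod
  simp only [Fin.cons_zero, Fin.cons_succ] at hprod
  have hC : (List.ofFn fun j => x j ^ e (Fin.succ j)).prod ∈ C := by
    apply Subgroup.list_prod_mem
    intro y hy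
    rw [List.mem_ofFn] at hy
    obtain ⟨j, rfl⟩ := hy
    exact C.zpow_mem (hx j) _
  have h0 : e 0 = 0 := by
    by_contra h0
    apply haC
    have h1 : a ^ e 0 ∈ C := by
      have h2 := Subgroup.mem_bot.1 hprod
      rw [mul_eq_one_iff_eq_inv] at h2
      rw [h2]
      exact C.inv_mem hC
    refine hiso a ha (e 0).natAbs (Int.natAbs_pos.2 h0) ?_
    rcases Int.natAbs_eq (e 0) with h | h
    · rw [h, zpow_natCast] at h1
      exact h1
    · rw [h, zpow_neg, zpow_natCast] at h1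
      exact (Subgroup.inv_mem_iff C).1 h1
  refine ⟨fun j => e (Fin.succ j), ?_, ?_⟩
  · intro h
    apply he
    ext j
    refine Fin.cases h0 (fun j => ?_) j
    exact congrFun h j
  · rw [h0, zpow_zero, one_mul] at hprod
    exact hprod

lemma rank_quot {r : ℕ} {A C : Subgroup G} [C.Normal] (hCA : C ≤ A) (hne : C ≠ ⊥)
    (htf : ∀ a ∈ A, ∀ k : ℕ, 0 < k → a ^ k = 1 → a = 1) (hr : RankLe (r + 1) ⊥ A) :
    RankLe r ⊥ (A.map (QuotientGroup.mk' C)) := by
  intro x hx
  obtain ⟨c, hc, hc1⟩ : ∃ c, c ∈ C ∧ c ≠ 1 := by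
    by_contra hcon
    push Not at hcon
    exact hne (eq_bot_iff.2 fun a ha => Subgroup.mem_bot.2 (hcon a ha))
  choose y hy hyx using hx
  obtain ⟨e, he, hprod⟩ := hr (Fin.cons c y) (by
    intro j
    refine Fin.cases (hCA hc) (fun j => ?_) j
    exact hy j)
  rw [List.ofFn_succ, List.prod_cons] at hprod
  simp only [Fin.cons_zero, Fin.cons_succ] at hprod
  refine ⟨fun j => e (Fin.succ j), ?_, ?_⟩
  · intro h
    have h1 : ∀ j, e (Fin.succ j) = 0 := fun j => congrFun h j
    simp only [h1, zpow_zero] at hprod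
    have h2 : (List.ofFn fun _ : Fin (r + 1) => (1 : G)).prod = 1 := by
      rw [List.ofFn_const, List.prod_replicate, one_pow]
    rw [h2, mul_one, Subgroup.mem_bot] at hprod
    have h0 : e 0 ≠ 0 := by
      intro h0
      apply he
      ext j
      refine Fin.cases h0 (fun j => ?_) j
      exact h1 j
    apply hc1
    refine htf c (hCA hc) (e 0).natAbs (Int.natAbs_pos.2 h0) ?_
    rcases Int.natAbs_eq (e 0) with h | h
    · rw [h, zpow_natCast] at hprod
      exact hprod
    · rw [h, zpow_neg, zpow_natCast, inv_eq_one] at hprod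
      exact hprod
  · have h1 : (List.ofFn fun j => x j ^ e (Fin.succ j)).prod =
        QuotientGroup.mk' C ((List.ofFn fun j => y j ^ e (Fin.succ j)).prod) := by
      rw [map_list_prod, List.map_ofFn]
      congr 2
      funext j
      simp only [Function.comp_apply, map_zpow, hyx]
    rw [h1, Subgroup.mem_bot, ← MonoidHom.mem_ker, QuotientGroup.ker_mk']
    have h2 := Subgroup.mem_bot.1 hprod
    rw [mul_eq_one_iff_inv_eq] at h2
    rw [← h2]
    exact C.inv_mem (C.zpow_mem hc _)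

lemma rank_zero {A : Subgroup G} (htf : ∀ a ∈ A, ∀ k : ℕ, 0 < k → a ^ k = 1 → a = 1)
    (hr : RankLe 0 ⊥ A) : A = ⊥ := by
  rw [eq_bot_iff]
  intro a ha
  obtain ⟨e, he, hprod⟩ := hr (fun _ => a) (fun _ => ha)
  rw [List.ofFn_succ, List.prod_cons] at hprod
  simp only [List.ofFn_zero, List.prod_nil, mul_one] at hprod
  have h0 : e 0 ≠ 0 := by
    intro h0
    apply he
    ext j
    have hj : j = 0 := Fin.ext (by have := j.isLt; simp only [Fin.val_zero]; omega)
    rw [hj]
    exact h0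
  rw [Subgroup.mem_bot] at hprod ⊢
  refine htf a ha (e 0).natAbs (Int.natAbs_pos.2 h0) ?_
  rcases Int.natAbs_eq (e 0) with h | h
  · rw [h, zpow_natCast] at hprod
    exact hprod
  · rw [h, zpow_neg, zpow_natCast, inv_eq_one] at hprod
    exact hprod

end

/-- the step for a torsion-free abelian normal subgroup -/
theorem step {κ : ℝ} (hκ : 0 < κ) (hirr : ∀ (G : Type) [Group G], Group.IsSolvable G →
    ∀ S : Set G, S.Finite → S.Nonempty → Subgroup.closure S = ⊤ →
    ∀ (m : ℕ) (A : Subgroup G), Plinth m A → VNr A → ¬ VNr (⊥ : Subgroup G) →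
    gapB κ m ≤ H746UG.rho S) (m : ℕ) : ∀ r ≤ m, ∀ (G : Type) [Group G], Group.IsSolvable G →
    ∀ S : Set G, S.Finite → S.Nonempty → Subgroup.closure S = ⊤ →
    ∀ A : Subgroup G, A.Normal → (∀ a ∈ A, ∀ b ∈ A, a * b = b * a) →
    (∀ a ∈ A, ∀ k : ℕ, 0 < k → a ^ k = 1 → a = 1) → RankLe r ⊥ A → VNr A →
    ¬ VNr (⊥ : Subgroup G) → gapB κ m ≤ H746UG.rho S := by
  intro r
  induction r with
  | zero =>
    intro _ G _ hsol S hfin hne hgen A hA hab htf hr hvn hnvn
    rw [rank_zero htf hr] at hvn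
    exact absurd hvn hnvn
  | succ r ih =>
    intro hrm G _ hsol S hfin hne hgen A hA hab htf hr hvn hnvn
    by_cases hC : ∃ C : Subgroup G, C.Normal ∧ C ≤ A ∧
        (∀ a ∈ A, ∀ k : ℕ, 0 < k → a ^ k ∈ C → a ∈ C) ∧ C ≠ ⊥ ∧ C ≠ A
    · obtain ⟨C, hCn, hCA, hiso, hC0, hC1⟩ := hC
      have hex : ∃ a ∈ A, a ∉ C := by
        by_contra hcon
        push Not at hcon
        exact hC1 (le_antisymm hCA hcon)
      by_cases hvC : VNr C
      · exact ih (by omega) G hsol S hfin hne hgen C hCn (fun a ha b hb => hab a (hCA ha) b (hCA hb))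
          (fun a ha => htf a (hCA ha)) (rank_sub hCA hex hiso hr) hvC hnvn
      · have hsur := QuotientGroup.mk'_surjective C
        refine (ih (by omega) (G ⧸ C) (Group.isSolvable_of_surjective hsur) (QuotientGroup.mk' C '' S)
          (hfin.image _) (hne.image _) ?_ (A.map (QuotientGroup.mk' C)) (hA.map _ hsur) ?_ ?_
          (rank_quot hCA hC0 htf hr) (VNr.quot C A hvn) (fun h => hvC (vnr_of_vn C h))).trans
          (rho_image _ S hfin hne)
        · rw [← MonoidHom.map_closure, hgen, ← MonoidHom.range_eq_map]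
          exact MonoidHom.range_eq_top.2 hsur
        · rintro _ ⟨a, ha, rfl⟩ _ ⟨b, hb, rfl⟩
          rw [← map_mul, ← map_mul, hab a ha b hb]
        · rintro _ ⟨a, ha, rfl⟩ k hk hak
          rw [← map_pow, ← MonoidHom.mem_ker, QuotientGroup.ker_mk'] at hak
          rw [← MonoidHom.mem_ker, QuotientGroup.ker_mk']
          exact hiso a ha k hk hak
    · by_cases hA0 : A = ⊥
      · rw [hA0] at hvn
        exact absurd hvn hnvn
      · refine (gapB_anti hκ (by omega : 1 ≤ r + 1) hrm).trans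
          (hirr G hsol S hfin hne hgen (r + 1) A ?_ hvn hnvn)
        refine ⟨hA, hA0, hab, htf, hr, ?_⟩
        intro C hCn hCA hiso
        by_contra hcon
        push Not at hcon
        exact hC ⟨C, hCn, hCA, hiso, hcon.1, hcon.2⟩

/-- the two kinds of factors -/
def Factor (m : ℕ) {G : Type} [Group G] (N A : Subgroup G) : Prop :=
  (∀ x ∈ A, ∃ K : Subgroup G, K.index ≠ 0 ∧ ∀ k ∈ K, k * x * k⁻¹ * x⁻¹ ∈ N) ∨
  ((∀ a ∈ A, ∀ b ∈ A, a * b * a⁻¹ * b⁻¹ ∈ N) ∧ (∀ a ∈ A, ∀ k : ℕ, 0 < k → a ^ k ∈ N → a ∈ N) ∧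
    RankLe m N A)

/-- a series of normal subgroups of length `n` with factors of the two kinds -/
def Series (m n : ℕ) (G : Type) [Group G] : Prop :=
  ∃ N : ℕ → Subgroup G, N 0 = ⊥ ∧ N n = ⊤ ∧ (∀ i, (N i).Normal) ∧ (∀ i, N i ≤ N (i + 1)) ∧
    ∀ i < n, Factor m (N i) (N (i + 1))

lemma Factor.quot {m : ℕ} {G : Type} [Group G] {N A C : Subgroup G} [C.Normal] (hCN : C ≤ N)
    (h : Factor m N A) :
    Factor m (N.map (QuotientGroup.mk' C)) (A.map (QuotientGroup.mk' C)) := by
  have hsur := QuotientGroup.mk'_surjective C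
  have hmem : ∀ x : G, QuotientGroup.mk' C x ∈ N.map (QuotientGroup.mk' C) → x ∈ N := by
    rintro x ⟨y, hy, hyx⟩
    have h1 : y⁻¹ * x ∈ C := QuotientGroup.eq.1 hyx
    have h2 := N.mul_mem hy (hCN h1)
    rwa [mul_inv_cancel_left] at h2
  rcases h with hfc | ⟨hab, htf, hr⟩
  · left
    rintro _ ⟨x, hx, rfl⟩
    obtain ⟨K, hK, hc⟩ := hfc x hx
    refine ⟨K.map (QuotientGroup.mk' C),
      ne_zero_of_dvd_ne_zero hK (Subgroup.index_map_dvd K hsur), ?_⟩
    rintro _ ⟨k, hk, rfl⟩
    exact ⟨_, hc k hk, by simp only [map_mul, map_inv]⟩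
  · right
    refine ⟨?_, ?_, ?_⟩
    · rintro _ ⟨a, ha, rfl⟩ _ ⟨b, hb, rfl⟩
      exact ⟨_, hab a ha b hb, by simp only [map_mul, map_inv]⟩
    · rintro _ ⟨a, ha, rfl⟩ k hk hak
      rw [← map_pow] at hak
      exact Subgroup.mem_map_of_mem _ (htf a ha k hk (hmem _ hak))
    · intro x hx
      choose y hy hyx using hx
      obtain ⟨e, he, hprod⟩ := hr y hy
      refine ⟨e, he, _, hprod, ?_⟩
      rw [map_list_prod, List.map_ofFn]
      congr 2
      funext j
      simp only [Function.comp_apply, map_zpow, hyx]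

/-- the gap for groups with a series -/
theorem series_gap : ∃ κ : ℝ, 0 < κ ∧ ∀ (m n : ℕ) (G : Type) [Group G], Group.IsSolvable G →
    Series m n G → ∀ S : Set G, S.Finite → S.Nonempty → Subgroup.closure S = ⊤ →
    ¬ VNr (⊥ : Subgroup G) → gapB κ m ≤ H746UG.rho S := by
  obtain ⟨κ, hκ, hirr⟩ := main_irr
  refine ⟨κ, hκ, fun m n => ?_⟩
  induction n with
  | zero =>
    intro G _ hsol hser S hfin hne hgen hnvn
    obtain ⟨N, h0, h1, -⟩ := hser
    exfalso
    apply hnvn
    refine ⟨⊤, ?_, 0, ?_⟩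
    · rw [Subgroup.index_top]
      exact one_ne_zero
    · rw [Subgroup.lowerCentralSeries_zero, ← h1, h0]
  | succ n ih =>
    intro G _ hsol hser S hfin hne hgen hnvn
    obtain ⟨N, h0, h1, hN, hmono, hfac⟩ := hser
    have hN1 := hN 1
    have hsur := QuotientGroup.mk'_surjective (N 1)
    have hanti : ∀ i, N 1 ≤ N (i + 1) := by
      intro i
      induction i with
      | zero => exact le_rfl
      | succ i ih => exact ih.trans (hmono _)
    by_cases hv : VNr (⊥ : Subgroup (G ⧸ N 1))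
    · have hv1 := vnr_of_vn (N 1) hv
      have hf := hfac 0 (by omega)
      rw [h0] at hf
      rcases hf with hfc | ⟨hab, htf, hr⟩
      · refine absurd (vnr_fc S hfin hgen (N 1) hv1 fun a ha => ?_) hnvn
        obtain ⟨K, hK, hc⟩ := hfc a ha
        exact ⟨K, hK, fun k hk => Subgroup.mem_bot.1 (hc k hk)⟩
      · refine step hκ hirr m m le_rfl G hsol S hfin hne hgen (N 1) hN1 ?_ ?_ hr hv1 hnvn
        · intro a ha b hb
          have h2 := Subgroup.mem_bot.1 (hab a ha b hb)
          rw [mul_inv_eq_one, mul_inv_eq_iff_eq_mul] at h2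
          exact h2
        · intro a ha k hk hak
          exact Subgroup.mem_bot.1 (htf a ha k hk (Subgroup.mem_bot.2 hak))
    · refine (ih (G ⧸ N 1) (Group.isSolvable_of_surjective hsur) ?_ (QuotientGroup.mk' (N 1) '' S)
        (hfin.image _) (hne.image _) ?_ hv).trans (rho_image _ S hfin hne)
      · refine ⟨fun i => (N (i + 1)).map (QuotientGroup.mk' (N 1)), ?_, ?_, ?_, ?_, ?_⟩
        · show (N 1).map (QuotientGroup.mk' (N 1)) = ⊥
          rw [Subgroup.map_eq_bot_iff, QuotientGroup.ker_mk']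
        · show (N (n + 1)).map (QuotientGroup.mk' (N 1)) = ⊤
          rw [h1, ← MonoidHom.range_eq_map]
          exact MonoidHom.range_eq_top.2 hsur
        · exact fun i => (hN (i + 1)).map _ hsur
        · exact fun i => Subgroup.map_mono (hmono _)
        · exact fun i hi => (hfac (i + 1) (by omega)).quot (hanti i)
      · rw [← MonoidHom.map_closure, hgen, ← MonoidHom.range_eq_map]
        exact MonoidHom.range_eq_top.2 hsur

end

end Pool.Agent.U350.PG
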