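import Mathlib
import Pool.Agent.U350.PG.Str

/-!
# Groups of finite Prüfer rank
-/

set_option autoImplicit false

namespace Pool.Agent.U350.PG

open Module Subgroup
open scoped commutatorElement Pointwise

noncomputable section

section mod

variable {M : Type} [AddCommGroup M]

/-- finitely generated subgroups are generated by `m` elements -/
def PRM (m : ℕ) (M : Type) [AddCommGroup M] : Prop :=
  ∀ (n : ℕ) (x : Fin n → M), ∃ y : Fin m → M,
    Submodule.span ℤ (Set.range y) = Submodule.span ℤ (Set.range x)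

lemma PRM.rel {m : ℕ} (h : PRM m M) (x : Fin (m + 1) → M) :
    ∃ e : Fin (m + 1) → ℤ, e ≠ 0 ∧ ∑ j, e j • x j = 0 := by
  obtain ⟨y, hy⟩ := h (m + 1) x
  have h1 : ∀ j, ∃ c : Fin m → ℤ, ∑ l, c l • y l = x j := by
    intro j
    rw [← Submodule.mem_span_range_iff_exists_fun, hy]
    exact Submodule.subset_span ⟨j, rfl⟩
  choose c hc using h1
  let L : (Fin (m + 1) → ℤ) →ₗ[ℤ] (Fin m → ℤ) :=
    { toFun := fun e l => ∑ j, e j * c j l
      map_add' := fun e f => by
        funext l
        simp only [Pi.add_apply, add_mul, Finset.sum_add_distrib]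
      map_smul' := fun a e => by
        funext l
        simp only [Pi.smul_apply, smul_eq_mul, RingHom.id_apply, Finset.mul_sum, mul_assoc] }
  have hL : ¬ Function.Injective L := by
    intro hinj
    have h2 := LinearMap.finrank_le_finrank_of_injective hinj
    rw [finrank_fin_fun, finrank_fin_fun] at h2
    omega
  rw [← LinearMap.ker_eq_bot, LinearMap.ker_eq_bot'] at hL
  push Not at hL
  obtain ⟨e, he, he0⟩ := hL
  refine ⟨e, he0, ?_⟩
  have h3 : ∀ l, ∑ j, e j * c j l = 0 := fun l => congrFun he l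
  calc ∑ j, e j • x j = ∑ j, e j • ∑ l, c j l • y l := by simp only [hc]
    _ = ∑ j, ∑ l, (e j * c j l) • y l := by
        simp only [Finset.smul_sum, smul_smul]
    _ = ∑ l, (∑ j, e j * c j l) • y l := by
        rw [Finset.sum_comm]
        simp only [Finset.sum_smul]
    _ = 0 := by simp only [h3, zero_smul, Finset.sum_const_zero]

lemma PRM.fin {m : ℕ} (h : PRM m M) (k : ℕ) (hk : 0 < k) : {b : M | (k : ℤ) • b = 0}.Finite := by
  classical
  by_contra hinf
  obtain ⟨F, hF, hcard⟩ := Set.Infinite.exists_subset_card_eq hinf (k ^ m + 1)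
  obtain ⟨y, hy⟩ := h F.card (fun i => (F.equivFin.symm i : M))
  have hrange : Set.range (fun i => (F.equivFin.symm i : M)) = F := by
    ext b
    constructor
    · rintro ⟨i, rfl⟩
      exact (F.equivFin.symm i).2
    · intro hb
      exact ⟨F.equivFin ⟨b, hb⟩, by simp⟩
  rw [hrange] at hy
  let B : Submodule ℤ M :=
    { carrier := {b : M | (k : ℤ) • b = 0}
      add_mem' := fun {a b} ha hb => by
        show (k : ℤ) • (a + b) = 0
        rw [smul_add, ha, hb, add_zero]
      zero_mem' := smul_zero _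
      smul_mem' := fun c b hb => by
        show (k : ℤ) • c • b = 0
        rw [smul_comm, hb, smul_zero] }
  have hB : Submodule.span ℤ (Set.range y) ≤ B := by
    rw [hy, Submodule.span_le]
    exact hF
  have hyB : ∀ l, (k : ℤ) • y l = 0 := fun l => hB (Submodule.subset_span ⟨l, rfl⟩)
  let f : (Fin m → Fin k) → M := fun e => ∑ l, ((e l : ℕ) : ℤ) • y l
  have hsub : F ⊆ Finset.univ.image f := by
    intro b hb
    have h1 : b ∈ Submodule.span ℤ (Set.range y) := by
      rw [hy]
      exact Submodule.subset_span hb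
    rw [Submodule.mem_span_range_iff_exists_fun] at h1
    obtain ⟨c, hc⟩ := h1
    have hk' : (0 : ℤ) < k := by exact_mod_cast hk
    refine Finset.mem_image.2 ⟨fun l => ⟨(c l % k).toNat, ?_⟩, Finset.mem_univ _, ?_⟩
    · have h2 := Int.emod_lt_of_pos (c l) hk'
      have h3 := Int.emod_nonneg (c l) hk'.ne'
      omega
    · rw [← hc]
      apply Finset.sum_congr rfl
      intro l _
      have h3 := Int.emod_nonneg (c l) hk'.ne'
      show (((c l % k).toNat : ℕ) : ℤ) • y l = c l • y l
      rw [Int.toNat_of_nonneg h3]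
      conv_rhs => rw [← Int.emod_add_mul_ediv (c l) k]
      rw [add_smul, mul_comm, mul_smul, hyB, smul_zero, add_zero]
  have h4 := Finset.card_le_card hsub
  have h5 := Finset.card_image_le (s := Finset.univ) (f := f)
  rw [Finset.card_univ, Fintype.card_fun, Fintype.card_fin, Fintype.card_fin] at h5
  omega

end mod

section

variable {G : Type} [Group G]

/-- every finitely generated subgroup of `C` is generated by `m` elements -/
def PR (m : ℕ) (C : Subgroup G) : Prop :=
  ∀ (n : ℕ) (x : Fin n → G), (∀ i, x i ∈ C) → ∃ y : Fin m → G,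
    Subgroup.closure (Set.range y) = Subgroup.closure (Set.range x)

/-- the commutative group structure -/
@[reducible] def cg (C : Subgroup G) (hab : ∀ a ∈ C, ∀ b ∈ C, a * b = b * a) : CommGroup C :=
  { (inferInstance : Group C) with mul_comm := fun a b => Subtype.ext (hab a a.2 b b.2) }

lemma span_le_of {D : Type} [CommGroup D] {ι κ : Type} (x : ι → D) (y : κ → D)
    (h : ∀ l, y l ∈ Subgroup.closure (Set.range x)) :
    Submodule.span ℤ (Set.range fun l => Additive.ofMul (y l)) ≤
      Submodule.span ℤ (Set.range fun i => Additive.ofMul (x i)) := by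
  have key : ∀ z ∈ Subgroup.closure (Set.range x),
      Additive.ofMul z ∈ Submodule.span ℤ (Set.range fun i => Additive.ofMul (x i)) := by
    intro z hz
    induction hz using Subgroup.closure_induction with
    | mem z hz =>
      obtain ⟨i, rfl⟩ := hz
      exact Submodule.subset_span ⟨i, rfl⟩
    | one => exact Submodule.zero_mem _
    | mul a b _ _ ha hb => exact Submodule.add_mem _ ha hb
    | inv a _ ha => exact Submodule.neg_mem _ ha
  rw [Submodule.span_le]
  rintro _ ⟨l, rfl⟩
  exact key _ (h l)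

lemma prm (C : Subgroup G) (hab : ∀ a ∈ C, ∀ b ∈ C, a * b = b * a) {m : ℕ} (h : PR m C) :
    letI := cg C hab
    PRM m (Additive C) := by
  let _ := cg C hab
  intro n x
  obtain ⟨y, hy⟩ := h n (fun i => ((x i).toMul : G)) (fun i => (x i).toMul.2)
  have hyC : ∀ l, y l ∈ C := by
    intro l
    have h1 : y l ∈ Subgroup.closure (Set.range y) := Subgroup.subset_closure ⟨l, rfl⟩
    rw [hy] at h1
    have h2 : Subgroup.closure (Set.range fun i => ((x i).toMul : G)) ≤ C := by
      rw [Subgroup.closure_le]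
      rintro _ ⟨i, rfl⟩
      exact (x i).toMul.2
    exact h2 h1
  have key : Subgroup.closure (Set.range fun l => (⟨y l, hyC l⟩ : C)) =
      Subgroup.closure (Set.range fun i => (x i).toMul) := by
    apply Subgroup.map_injective C.subtype_injective
    rw [MonoidHom.map_closure, MonoidHom.map_closure, ← Set.range_comp, ← Set.range_comp]
    exact hy
  refine ⟨fun l => Additive.ofMul ⟨y l, hyC l⟩, le_antisymm ?_ ?_⟩
  · refine span_le_of (fun i => (x i).toMul) (fun l => (⟨y l, hyC l⟩ : C)) fun l => ?_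
    rw [← key]
    exact Subgroup.subset_closure ⟨l, rfl⟩
  · refine span_le_of (fun l => (⟨y l, hyC l⟩ : C)) (fun i => (x i).toMul) fun i => ?_
    rw [key]
    exact Subgroup.subset_closure ⟨i, rfl⟩

/-- relations -/
lemma PR.rank {C : Subgroup G} (hab : ∀ a ∈ C, ∀ b ∈ C, a * b = b * a) {m : ℕ} (h : PR m C)
    (x : Fin (m + 1) → G) (hx : ∀ j, x j ∈ C) :
    ∃ e : Fin (m + 1) → ℤ, e ≠ 0 ∧ (List.ofFn fun j => x j ^ e j).prod = 1 := by
  let _ := cg C hab
  obtain ⟨e, he, h1⟩ := (prm C hab h).rel (fun j => Additive.ofMul ⟨x j, hx j⟩)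
  refine ⟨e, he, ?_⟩
  have h2 : (List.ofFn fun j => (⟨x j, hx j⟩ : C) ^ e j).prod = 1 := by
    rw [List.prod_ofFn]
    exact h1
  have h3 := congrArg (C.subtype) h2
  rw [map_list_prod, List.map_ofFn, map_one] at h3
  exact h3

/-- torsion elements are FC -/
lemma PR.fc {C : Subgroup G} (hC : C.Normal) (hab : ∀ a ∈ C, ∀ b ∈ C, a * b = b * a) {m : ℕ}
    (h : PR m C) (x : G) (hx : x ∈ C) (k : ℕ) (hk : 0 < k) (hxk : x ^ k = 1) :
    ∃ K : Subgroup G, K.index ≠ 0 ∧ ∀ g ∈ K, g * x * g⁻¹ * x⁻¹ = 1 := by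
  let _ := cg C hab
  have h1 := (prm C hab h).fin k hk
  have h2 : {b : G | b ∈ C ∧ b ^ k = 1}.Finite := by
    refine (h1.image (fun b : Additive C => (b.toMul : G))).subset ?_
    rintro b ⟨hb, hbk⟩
    refine ⟨Additive.ofMul ⟨b, hb⟩, ?_, rfl⟩
    show (⟨b, hb⟩ : C) ^ (k : ℤ) = 1
    rw [zpow_natCast]
    exact Subtype.ext hbk
  have h3 : (MulAction.orbit (ConjAct G) x).Finite := by
    refine h2.subset ?_
    rintro _ ⟨g, rfl⟩
    refine ⟨hC.conj_mem x hx _, ?_⟩
    show (ConjAct.ofConjAct g * x * (ConjAct.ofConjAct g)⁻¹) ^ k = 1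
    rw [conj_pow, hxk, mul_one, mul_inv_cancel]
  have h4 : (MulAction.stabilizer (ConjAct G) x).index ≠ 0 := by
    rw [MulAction.index_stabilizer]
    exact (Set.ncard_pos h3).2 (MulAction.nonempty_orbit x) |>.ne'
  refine ⟨(MulAction.stabilizer (ConjAct G) x).comap ConjAct.toConjAct.toMonoidHom, ?_, ?_⟩
  · rw [Subgroup.index_comap_of_surjective _ ConjAct.toConjAct.surjective]
    exact h4
  · intro g hg
    have h5 : g * x * g⁻¹ = x := hg
    rw [h5, mul_inv_cancel]

/-- the isolator -/
def isol (N A : Subgroup G) (hN : N.Normal) (hab : ∀ a ∈ A, ∀ b ∈ A, a * b * a⁻¹ * b⁻¹ ∈ N) :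
    Subgroup G where
  carrier := {x | x ∈ A ∧ ∃ k : ℕ, 0 < k ∧ x ^ k ∈ N}
  one_mem' := ⟨A.one_mem, 1, one_pos, by rw [one_pow]; exact N.one_mem⟩
  mul_mem' := by
    rintro x y ⟨hx, k, hk, hxk⟩ ⟨hy, l, hl, hyl⟩
    refine ⟨A.mul_mem hx hy, k * l, Nat.mul_pos hk hl, ?_⟩
    have hc : Commute (QuotientGroup.mk' N x) (QuotientGroup.mk' N y) := by
      show _ * _ = _ * _
      rw [← mul_inv_eq_iff_eq_mul, ← mul_inv_eq_one, ← map_mul, ← map_inv, ← map_inv, ← map_mul,
        ← map_mul, ← MonoidHom.mem_ker, QuotientGroup.ker_mk']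
      exact hab x hx y hy
    rw [← QuotientGroup.ker_mk' N, MonoidHom.mem_ker] at hxk hyl ⊢
    rw [map_pow] at hxk hyl
    rw [map_pow, map_mul, hc.mul_pow, pow_mul, hxk, one_pow, one_mul, mul_comm k l, pow_mul, hyl,
      one_pow]
  inv_mem' := by
    rintro x ⟨hx, k, hk, hxk⟩
    exact ⟨A.inv_mem hx, k, hk, by rw [inv_pow]; exact N.inv_mem hxk⟩

lemma isol_normal (N A : Subgroup G) (hN : N.Normal) (hA : A.Normal)
    (hab : ∀ a ∈ A, ∀ b ∈ A, a * b * a⁻¹ * b⁻¹ ∈ N) : (isol N A hN hab).Normal := by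
  constructor
  rintro x ⟨hx, k, hk, hxk⟩ g
  exact ⟨hA.conj_mem x hx g, k, hk, by rw [conj_pow]; exact hN.conj_mem _ hxk g⟩

/-- quotients -/
lemma PR.quot {m : ℕ} (h : PR m (⊤ : Subgroup G)) (N A : Subgroup G) [N.Normal] :
    PR m (A.map (QuotientGroup.mk' N)) := by
  intro n x hx
  choose z hz hzx using hx
  obtain ⟨y, hy⟩ := h n z (fun _ => Subgroup.mem_top _)
  refine ⟨fun l => QuotientGroup.mk' N (y l), ?_⟩
  have h1 : x = fun i => QuotientGroup.mk' N (z i) := by
    funext i
    exact (hzx i).symm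
  rw [h1]
  have h2 := congrArg (Subgroup.map (QuotientGroup.mk' N)) hy
  rw [MonoidHom.map_closure, MonoidHom.map_closure, ← Set.range_comp, ← Set.range_comp] at h2
  exact h2

/-- the two factors -/
lemma two_factors {m : ℕ} (h : PR m (⊤ : Subgroup G)) (N A : Subgroup G) (hN : N.Normal)
    (hA : A.Normal) (hab : ∀ a ∈ A, ∀ b ∈ A, a * b * a⁻¹ * b⁻¹ ∈ N) :
    Factor m N (isol N A hN hab) ∧ Factor m (isol N A hN hab) A := by
  have hq := h.quot N A
  have habq : ∀ a ∈ A.map (QuotientGroup.mk' N), ∀ b ∈ A.map (QuotientGroup.mk' N),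
      a * b = b * a := by
    rintro _ ⟨x, hx, rfl⟩ _ ⟨y, hy, rfl⟩
    rw [← mul_inv_eq_iff_eq_mul, ← mul_inv_eq_one, ← map_mul, ← map_inv, ← map_inv, ← map_mul,
      ← map_mul, ← MonoidHom.mem_ker, QuotientGroup.ker_mk']
    exact hab x hx y hy
  have hsur := QuotientGroup.mk'_surjective N
  constructor
  · left
    rintro x ⟨hx, k, hk, hxk⟩
    obtain ⟨K, hK, hc⟩ := hq.fc (hA.map _ hsur) habq (QuotientGroup.mk' N x)
      (Subgroup.mem_map_of_mem _ hx) k hk (by
        rw [← map_pow, ← MonoidHom.mem_ker, QuotientGroup.ker_mk']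
        exact hxk)
    refine ⟨K.comap (QuotientGroup.mk' N), ?_, ?_⟩
    · rw [Subgroup.index_comap_of_surjective _ hsur]
      exact hK
    · intro g hg
      have h1 := hc _ hg
      rw [← map_mul, ← map_inv, ← map_inv, ← map_mul, ← map_mul, ← MonoidHom.mem_ker,
        QuotientGroup.ker_mk'] at h1
      exact h1
  · right
    have hN' : ∀ z ∈ A, z ∈ N → z ∈ isol N A hN hab := fun z hz hzN =>
      ⟨hz, 1, one_pos, by rw [pow_one]; exact hzN⟩
    refine ⟨?_, ?_, ?_⟩
    · intro a ha b hb
      exact hN' _ (A.mul_mem (A.mul_mem (A.mul_mem ha hb) (A.inv_mem ha)) (A.inv_mem hb))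
        (hab a ha b hb)
    · rintro a ha k hk ⟨_, l, hl, hakl⟩
      rw [← pow_mul] at hakl
      exact ⟨ha, k * l, Nat.mul_pos hk hl, hakl⟩
    · intro x hx
      obtain ⟨e, he, h1⟩ := hq.rank habq (fun j => QuotientGroup.mk' N (x j))
        (fun j => Subgroup.mem_map_of_mem _ (hx j))
      refine ⟨e, he, hN' _ ?_ ?_⟩
      · apply Subgroup.list_prod_mem
        intro y hy
        rw [List.mem_ofFn] at hy
        obtain ⟨j, rfl⟩ := hy
        exact A.zpow_mem (hx j) _
      · rw [← QuotientGroup.ker_mk' N, MonoidHom.mem_ker, map_list_prod, List.map_ofFn]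
        simpa only [Function.comp_def, map_zpow] using h1

end

/-- solvable groups of Prüfer rank at most `m` have a series -/
theorem series_of_PR {m : ℕ} (G : Type) [Group G] (hsol : Group.IsSolvable G)
    (h : PR m (⊤ : Subgroup G)) : ∃ n, Series m n G := by
  obtain ⟨n, hn⟩ := hsol.solvable
  have hD : ∀ k, (derivedSeries G k).Normal := fun k => inferInstance
  have hmono : ∀ k, derivedSeries G (k + 1) ≤ derivedSeries G k := fun k =>
    derivedSeries_antitone G (Nat.le_succ k)
  have hab : ∀ k, ∀ a ∈ derivedSeries G k, ∀ b ∈ derivedSeries G k,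
      a * b * a⁻¹ * b⁻¹ ∈ derivedSeries G (k + 1) := fun k a ha b hb => by
    rw [derivedSeries_succ]
    exact Subgroup.commutator_mem_commutator ha hb
  let T : ℕ → Subgroup G := fun k =>
    isol (derivedSeries G (k + 1)) (derivedSeries G k) (hD _) (hab k)
  have hTn : ∀ k, (T k).Normal := fun k => isol_normal _ _ _ (hD k) _
  have hT1 : ∀ k, derivedSeries G (k + 1) ≤ T k := fun k x hx =>
    ⟨hmono k hx, 1, one_pos, by rw [pow_one]; exact hx⟩
  have hT2 : ∀ k, T k ≤ derivedSeries G k := fun k x hx => hx.1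
  let N : ℕ → Subgroup G := fun j =>
    if j % 2 = 0 then derivedSeries G (n - j / 2)
    else if j < 2 * n then T (n - j / 2 - 1) else ⊤
  refine ⟨2 * n, N, ?_, ?_, ?_, ?_, ?_⟩
  · show derivedSeries G (n - 0 / 2) = ⊥
    rw [Nat.zero_div, Nat.sub_zero]
    exact hn
  · have h1 : N (2 * n) = derivedSeries G (n - 2 * n / 2) := if_pos (by omega)
    rw [h1, Nat.mul_div_cancel_left n (by norm_num), Nat.sub_self]
    exact derivedSeries_zero G
  · intro i
    show (if i % 2 = 0 then derivedSeries G (n - i / 2)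
      else if i < 2 * n then T (n - i / 2 - 1) else ⊤ : Subgroup G).Normal
    split_ifs
    · exact hD _
    · exact hTn _
    · infer_instance
  · intro i
    rcases Nat.even_or_odd' i with ⟨c, rfl | rfl⟩
    · have h1 : N (2 * c) = derivedSeries G (n - c) := by
        have : N (2 * c) = derivedSeries G (n - 2 * c / 2) := if_pos (by omega)
        rw [this, Nat.mul_div_cancel_left c (by norm_num)]
      have h2 : N (2 * c + 1) = if 2 * c + 1 < 2 * n then T (n - c - 1) else ⊤ := by
        have : N (2 * c + 1) = if 2 * c + 1 < 2 * n then T (n - (2 * c + 1) / 2 - 1) else ⊤ :=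
          if_neg (by omega)
        rw [this, show (2 * c + 1) / 2 = c by omega]
      rw [h1, h2]
      split_ifs with hlt
      · have h3 := hT1 (n - c - 1)
        rwa [show n - c - 1 + 1 = n - c by omega] at h3
      · exact le_top
    · have h2 : N (2 * c + 1) = if 2 * c + 1 < 2 * n then T (n - c - 1) else ⊤ := by
        have : N (2 * c + 1) = if 2 * c + 1 < 2 * n then T (n - (2 * c + 1) / 2 - 1) else ⊤ :=
          if_neg (by omega)
        rw [this, show (2 * c + 1) / 2 = c by omega]
      have h1 : N (2 * c + 1 + 1) = derivedSeries G (n - (c + 1)) := by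
        have : N (2 * c + 1 + 1) = derivedSeries G (n - (2 * c + 1 + 1) / 2) := if_pos (by omega)
        rw [this, show (2 * c + 1 + 1) / 2 = c + 1 by omega]
      rw [h1, h2]
      split_ifs with hlt
      · exact hT2 _
      · rw [show n - (c + 1) = 0 by omega, derivedSeries_zero]
  · intro i hi
    rcases Nat.even_or_odd' i with ⟨c, rfl | rfl⟩
    · have h1 : N (2 * c) = derivedSeries G (n - c - 1 + 1) := by
        have : N (2 * c) = derivedSeries G (n - 2 * c / 2) := if_pos (by omega)
        rw [this, Nat.mul_div_cancel_left c (by norm_num), show n - c - 1 + 1 = n - c by omega]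
      have h2 : N (2 * c + 1) = T (n - c - 1) := by
        have : N (2 * c + 1) = if 2 * c + 1 < 2 * n then T (n - (2 * c + 1) / 2 - 1) else ⊤ :=
          if_neg (by omega)
        rw [this, show (2 * c + 1) / 2 = c by omega, if_pos (by omega)]
      rw [h1, h2]
      exact (two_factors h _ _ (hD _) (hD _) (hab _)).1
    · have h2 : N (2 * c + 1) = T (n - c - 1) := by
        have : N (2 * c + 1) = if 2 * c + 1 < 2 * n then T (n - (2 * c + 1) / 2 - 1) else ⊤ :=
          if_neg (by omega)
        rw [this, show (2 * c + 1) / 2 = c by omega, if_pos (by omega)]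
      have h1 : N (2 * c + 1 + 1) = derivedSeries G (n - c - 1) := by
        have : N (2 * c + 1 + 1) = derivedSeries G (n - (2 * c + 1 + 1) / 2) := if_pos (by omega)
        rw [this, show n - (2 * c + 1 + 1) / 2 = n - c - 1 by omega]
      rw [h1, h2]
      exact (two_factors h _ _ (hD _) (hD _) (hab _)).2

end

end Pool.Agent.U350.PG
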