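import Mathlib
import Pool.Agent.U350.PG.Pruf
import Pool.Agent.U350.PG.Fin

/-!
# Solvable linear groups over the rational numbers
-/

set_option autoImplicit false

namespace Pool.Agent.U350.PG

open Module
open scoped commutatorElement TensorProduct

noncomputable section

section irr

variable {V : Type} [AddCommGroup V] [Module ℚ V] {G : Type} [Group G]

/-- the complexified representation -/
def rhoC (ρ : G →* (V →ₗ[ℚ] V)) : G →* ((ℂ ⊗[ℚ] V) →ₗ[ℂ] (ℂ ⊗[ℚ] V)) where
  toFun g := (ρ g).baseChange ℂ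
  map_one' := by
    rw [map_one]
    apply LinearMap.ext
    intro x
    induction x using TensorProduct.induction_on with
    | zero => rw [map_zero, map_zero]
    | tmul c v => rfl
    | add x y hx hy => rw [map_add, hx, hy, map_add]
  map_mul' g h := by
    rw [map_mul]
    apply LinearMap.ext
    intro x
    induction x using TensorProduct.induction_on with
    | zero => rw [map_zero, map_zero]
    | tmul c v => rfl
    | add x y hx hy => rw [map_add, hx, hy, map_add]

lemma coord_rhoC {ι : Type} [DecidableEq ι] (b : Basis ι ℚ ℂ) (ρ : G →* (V →ₗ[ℚ] V)) (g : G)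
    (x : ℂ ⊗[ℚ] V) (i : ι) : TensorProduct.equivFinsuppOfBasisLeft b (rhoC ρ g x) i =
      ρ g (TensorProduct.equivFinsuppOfBasisLeft b x i) := by
  induction x using TensorProduct.induction_on with
  | zero => simp
  | tmul c v =>
    show TensorProduct.equivFinsuppOfBasisLeft b (c ⊗ₜ ρ g v) i = _
    rw [TensorProduct.equivFinsuppOfBasisLeft_apply_tmul_apply,
      TensorProduct.equivFinsuppOfBasisLeft_apply_tmul_apply, map_smul]
  | add x y hx hy =>
    rw [map_add, map_add, map_add, Finsupp.add_apply, Finsupp.add_apply, map_add, hx, hy]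

/-- a rationally irreducible solvable linear group is virtually abelian -/
lemma irr_Q (hs : Group.IsSolvable G) [FiniteDimensional ℚ V] [Nontrivial V]
    (ρ : G →* (V →ₗ[ℚ] V))
    (hirr : ∀ W : Submodule ℚ V, W ≠ ⊥ → (∀ g, ∀ w ∈ W, ρ g w ∈ W) → W = ⊤) :
    ∃ K : Subgroup G, K.Normal ∧ K.index ≠ 0 ∧ ∀ a ∈ ⁅K, K⁆, ρ a = 1 := by
  classical
  have hnt : Nontrivial (ℂ ⊗[ℚ] V) := inferInstance
  obtain ⟨H, hH, v, hv, hχ⟩ := Pool.Agent.H652.SR.eigen G hs (ℂ ⊗[ℚ] V) (rhoC ρ)
  set K := H.normalCore with hK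
  have hKn : K.Normal := Subgroup.normalCore_normal H
  have hKH : K ≤ H := Subgroup.normalCore_le H
  have hfi : H.FiniteIndex := ⟨hH⟩
  have hK0 : K.index ≠ 0 := (Subgroup.finiteIndex_normalCore (H := H)).index_ne_zero
  refine ⟨K, hKn, hK0, ?_⟩
  set σ := rhoC ρ with hσ
  have hne : ∀ k ∈ K, ∃ c : ℂ, c ≠ 0 ∧ σ k v = c • v := by
    intro k hk
    obtain ⟨c, hc⟩ := hχ k (hKH hk)
    refine ⟨c, ?_, hc⟩
    rintro rfl
    rw [zero_smul] at hc
    exact eig_ne σ k hv hc
  have hfix : ∀ a ∈ ⁅K, K⁆, σ a v = v := by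
    let F : Subgroup G :=
      { carrier := {a | σ a v = v}
        one_mem' := by simp
        mul_mem' := by
          intro a b ha hb
          show σ (a * b) v = v
          rw [map_mul, Module.End.mul_apply]
          rw [show σ b v = v from hb, show σ a v = v from ha]
        inv_mem' := by
          intro a ha
          show σ a⁻¹ v = v
          conv_lhs => rw [← show σ a v = v from ha]
          exact eig_inv σ a v }
    have h1 : ⁅K, K⁆ ≤ F := by
      rw [Subgroup.commutator_le]
      intro a ha b hb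
      obtain ⟨c, hc0, hc⟩ := hne a ha
      obtain ⟨d, hd0, hd⟩ := hne b hb
      have ha' : σ a⁻¹ v = c⁻¹ • v := by
        have h2 := eig_inv σ a v
        rw [hc, map_smul] at h2
        rw [eq_inv_smul_iff₀ hc0]
        exact h2
      have hb' : σ b⁻¹ v = d⁻¹ • v := by
        have h2 := eig_inv σ b v
        rw [hd, map_smul] at h2
        rw [eq_inv_smul_iff₀ hd0]
        exact h2
      show σ ⁅a, b⁆ v = v
      simp only [commutatorElement_def, map_mul, Module.End.mul_apply, hb', map_smul, ha', hd, hc,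
        smul_smul]
      have : d⁻¹ * (c⁻¹ * (d * c)) = 1 := by field_simp
      rw [this, one_smul]
    intro a ha
    exact h1 ha
  have hKK : ⁅K, K⁆.Normal := Subgroup.commutator_normal K K
  let W : Submodule ℚ V :=
    { carrier := {w | ∀ a ∈ ⁅K, K⁆, ρ a w = w}
      zero_mem' := by intro a _; simp
      add_mem' := by
        intro x y hx hy a ha
        rw [map_add, hx a ha, hy a ha]
      smul_mem' := by
        intro c x hx a ha
        rw [map_smul, hx a ha] }
  have hW : W = ⊤ := by
    apply hirr W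
    · intro h0
      let b := Basis.ofVectorSpace ℚ ℂ
      have h1 : TensorProduct.equivFinsuppOfBasisLeft b v ≠ 0 := by
        intro h2
        exact hv ((LinearEquiv.map_eq_zero_iff _).1 h2)
      obtain ⟨i, hi⟩ := Finsupp.ne_iff.1 h1
      apply hi
      have h2 : TensorProduct.equivFinsuppOfBasisLeft b v i ∈ W := by
        intro a ha
        rw [← coord_rhoC b ρ a v i, ← hσ, hfix a ha]
      rw [h0, Submodule.mem_bot] at h2
      rw [h2]
      rfl
    · intro g w hw a ha
      have h1 : ρ a * ρ g = ρ g * ρ (g⁻¹ * a * g) := by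
        rw [← map_mul, ← map_mul]; congr 1; group
      have h2 := congrArg (fun T : V →ₗ[ℚ] V => T w) h1
      simp only [Module.End.mul_apply] at h2
      have h3 : g⁻¹ * a * g ∈ ⁅K, K⁆ := by simpa using hKK.conj_mem a ha g⁻¹
      rw [h2, hw _ h3]
  intro a ha
  apply LinearMap.ext
  intro w
  have h1 : w ∈ W := by rw [hW]; trivial
  exact h1 a ha

end irr

/-- the factor given by an additive map to a rational vector space -/
lemma factor_of_hom {G : Type} [Group G] {m : ℕ} {N A : Subgroup G}
    {E : Type} [AddCommGroup E] [Module ℚ E] [FiniteDimensional ℚ E] (hE : finrank ℚ E ≤ m)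
    (φ : G → E) (hφ : ∀ a ∈ A, ∀ b ∈ A, φ (a * b) = φ a + φ b)
    (h0 : ∀ a ∈ A, φ a = 0 ↔ a ∈ N) : Factor m N A := by
  right
  let Φ : A →* Multiplicative E := MonoidHom.mk' (fun a => Multiplicative.ofAdd (φ a))
    (fun a b => by
      show Multiplicative.ofAdd (φ (a * b)) = _
      rw [hφ a a.2 b b.2, ofAdd_add])
  have hΦ : ∀ a : A, Φ a = 1 ↔ (a : G) ∈ N := fun a => h0 a a.2
  refine ⟨?_, ?_, ?_⟩
  · intro a ha b hb
    have h1 : Φ (⟨a, ha⟩ * ⟨b, hb⟩ * ⟨a, ha⟩⁻¹ * ⟨b, hb⟩⁻¹) = 1 := by
      rw [map_mul, map_mul, map_mul, map_inv, map_inv, mul_inv_cancel_comm, mul_inv_cancel]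
    exact (hΦ _).1 h1
  · intro a ha k hk hak
    have h1 : Φ (⟨a, ha⟩ ^ k) = 1 := (hΦ _).2 hak
    rw [map_pow] at h1
    have h2 : k • φ a = 0 := h1
    apply (h0 a ha).1
    rw [← Nat.cast_smul_eq_nsmul ℚ, smul_eq_zero] at h2
    rcases h2 with h3 | h3
    · exact absurd (Nat.cast_eq_zero.1 h3) hk.ne'
    · exact h3
  · intro x hx
    have hli : ¬ LinearIndependent ℤ (fun j => φ (x j)) := by
      rw [LinearIndependent.iff_fractionRing ℤ ℚ]
      intro h
      have := h.fintype_card_le_finrank
      rw [Fintype.card_fin] at this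
      omega
    rw [Fintype.not_linearIndependent_iff] at hli
    obtain ⟨e, he, i, hi⟩ := hli
    refine ⟨e, fun h => hi (congrFun h i), ?_⟩
    have h1 : Φ ((List.ofFn fun j => (⟨x j, hx j⟩ : A) ^ e j).prod) = 1 := by
      rw [map_list_prod, List.map_ofFn, List.prod_ofFn]
      simp only [Function.comp_apply, map_zpow]
      exact he
    have h2 := (hΦ _).1 h1
    rw [coe_prod] at h2
    exact h2

/-- one step of a series -/
def Rst (m : ℕ) {G : Type} [Group G] (N A : Subgroup G) : Prop :=
  N.Normal ∧ A.Normal ∧ N ≤ A ∧ Factor m N A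

lemma Rst.inf {m : ℕ} {G : Type} [Group G] {N A C : Subgroup G} (hC : C.Normal) (h : Rst m N A) :
    Rst m (C ⊓ N) (C ⊓ A) := by
  obtain ⟨hN, hA, hle, hf⟩ := h
  refine ⟨inferInstance, inferInstance, inf_le_inf_left C hle, ?_⟩
  rcases hf with hfc | ⟨hab, htf, hr⟩
  · left
    rintro x ⟨hxC, hxA⟩
    obtain ⟨K, hK, hc⟩ := hfc x hxA
    exact ⟨K, hK, fun k hk => ⟨C.mul_mem (hC.conj_mem x hxC k) (C.inv_mem hxC), hc k hk⟩⟩
  · right
    refine ⟨?_, ?_, ?_⟩
    · rintro a ⟨haC, ha⟩ b ⟨hbC, hb⟩
      exact ⟨C.mul_mem (C.mul_mem (C.mul_mem haC hbC) (C.inv_mem haC)) (C.inv_mem hbC),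
        hab a ha b hb⟩
    · rintro a ⟨haC, ha⟩ k hk ⟨_, hak⟩
      exact ⟨haC, htf a ha k hk hak⟩
    · intro x hx
      obtain ⟨e, he, h1⟩ := hr x (fun j => (hx j).2)
      refine ⟨e, he, ?_, h1⟩
      apply Subgroup.list_prod_mem
      intro y hy
      rw [List.mem_ofFn] at hy
      obtain ⟨j, rfl⟩ := hy
      exact C.zpow_mem (hx j).1 _

lemma series_of_chain {m : ℕ} {G : Type} [Group G] {N : Subgroup G}
    (h : Relation.ReflTransGen (Rst m) N ⊤) : ∃ n, ∃ F : ℕ → Subgroup G, F 0 = N ∧ F n = ⊤ ∧
      (∀ i, (F i).Normal) ∧ (∀ i, F i ≤ F (i + 1)) ∧ ∀ i < n, Factor m (F i) (F (i + 1)) := by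
  induction h using Relation.ReflTransGen.head_induction_on with
  | refl =>
    exact ⟨0, fun _ => ⊤, rfl, rfl, fun _ => inferInstance, fun _ => le_rfl,
      fun i hi => absurd hi (Nat.not_lt_zero i)⟩
  | @head A B h1 _ ih =>
    obtain ⟨n, F, h0, hn, hF, hmono, hfac⟩ := ih
    refine ⟨n + 1, fun i => Nat.casesOn i A F, rfl, hn, ?_, ?_, ?_⟩
    · rintro (_ | i)
      · exact h1.1
      · exact hF i
    · rintro (_ | i)
      · show A ≤ F 0
        rw [h0]
        exact h1.2.2.1
      · exact hmono i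
    · rintro (_ | i) hi
      · show Factor m A (F 0)
        rw [h0]
        exact h1.2.2.2
      · exact hfac i (by omega)

/-- the restriction to an invariant subspace -/
def resW {V : Type} [AddCommGroup V] [Module ℚ V] {G : Type} [Group G] (ρ : G →* (V →ₗ[ℚ] V))
    (W : Submodule ℚ V) (hW : ∀ g, ∀ w ∈ W, ρ g w ∈ W) : G →* (W →ₗ[ℚ] W) where
  toFun g := (ρ g).restrict (hW g)
  map_one' := by
    ext w
    simp [LinearMap.restrict_apply]
  map_mul' g h := by
    ext w
    simp [LinearMap.restrict_apply, Module.End.mul_apply]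

/-- the action on the quotient -/
def quoW {V : Type} [AddCommGroup V] [Module ℚ V] {G : Type} [Group G] (ρ : G →* (V →ₗ[ℚ] V))
    (W : Submodule ℚ V) (hW : ∀ g, ∀ w ∈ W, ρ g w ∈ W) : G →* ((V ⧸ W) →ₗ[ℚ] (V ⧸ W)) where
  toFun g := W.mapQ W (ρ g) (fun w hw => hW g w hw)
  map_one' := by
    apply LinearMap.ext
    intro x
    obtain ⟨v, rfl⟩ := W.mkQ_surjective x
    simp [Submodule.mkQ_apply, Submodule.mapQ_apply]
  map_mul' g h := by
    apply LinearMap.ext
    intro x
    obtain ⟨v, rfl⟩ := W.mkQ_surjective x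
    simp [Submodule.mkQ_apply, Submodule.mapQ_apply, Module.End.mul_apply]

/-- the series of a rational linear representation of a solvable group -/
theorem lin_chain (m : ℕ) (d : ℕ) : ∀ (V : Type) [AddCommGroup V] [Module ℚ V]
    [FiniteDimensional ℚ V], finrank ℚ V = d → d ^ 2 ≤ m → ∀ (G : Type) [Group G],
    Group.IsSolvable G → ∀ ρ : G →* (V →ₗ[ℚ] V), Relation.ReflTransGen (Rst m) ρ.ker ⊤ := by
  induction d using Nat.strong_induction_on with
  | _ d ih =>
    intro V _ _ _ hd hdm G _ hsol ρ
    rcases subsingleton_or_nontrivial V with hV | hV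
    · have h1 : ρ.ker = ⊤ := by
        rw [eq_top_iff]
        intro g _
        rw [MonoidHom.mem_ker]
        apply LinearMap.ext
        intro v
        exact Subsingleton.elim _ _
      rw [h1]
    · by_cases hex : ∃ W : Submodule ℚ V, W ≠ ⊥ ∧ W ≠ ⊤ ∧ ∀ g, ∀ w ∈ W, ρ g w ∈ W
      · obtain ⟨W, hW0, hW1, hW⟩ := hex
        have hWd : finrank ℚ W < d := by
          rw [← hd]
          exact Submodule.finrank_lt hW1
        have hQd : finrank ℚ (V ⧸ W) < d := by
          have h1 := Submodule.finrank_quotient_add_finrank W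
          have h2 : 0 < finrank ℚ W :=
            Nat.pos_of_ne_zero fun h => hW0 (Submodule.finrank_eq_zero.1 h)
          omega
        have c1 := ih _ hWd W rfl ((Nat.pow_le_pow_left hWd.le 2).trans hdm) G hsol (resW ρ W hW)
        have c2 := ih _ hQd (V ⧸ W) rfl ((Nat.pow_le_pow_left hQd.le 2).trans hdm) G hsol
          (quoW ρ W hW)
        set N1 := (resW ρ W hW).ker with hN1
        set N2 := (quoW ρ W hW).ker with hN2
        have m1 : ∀ g ∈ N1, ∀ w ∈ W, ρ g w = w := by
          intro g hg w hw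
          have h1 := LinearMap.congr_fun (MonoidHom.mem_ker.1 hg) ⟨w, hw⟩
          exact congrArg Subtype.val h1
        have m2 : ∀ g ∈ N2, ∀ v, ρ g v - v ∈ W := by
          intro g hg v
          have h1 := LinearMap.congr_fun (MonoidHom.mem_ker.1 hg) (W.mkQ v)
          have h2 : W.mkQ (ρ g v) = W.mkQ v := h1
          rw [Submodule.mkQ_apply, Submodule.mkQ_apply, Submodule.Quotient.eq] at h2
          exact h2
        have hfac : Factor m ρ.ker (N1 ⊓ N2) := by
          refine factor_of_hom (E := V →ₗ[ℚ] V) ?_ (fun g => ρ g - 1) ?_ ?_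
          · rw [Module.finrank_linearMap, hd, ← pow_two]
            exact hdm
          · rintro a ⟨ha1, _⟩ b ⟨_, hb2⟩
            apply LinearMap.ext
            intro v
            simp only [map_mul, LinearMap.sub_apply, Module.End.mul_apply, Module.End.one_apply,
              LinearMap.add_apply]
            have h1 := m1 a ha1 _ (m2 b hb2 v)
            rw [map_sub] at h1
            rw [sub_eq_iff_eq_add] at h1
            rw [h1]
            abel
          · intro a _
            rw [sub_eq_zero, MonoidHom.mem_ker]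
        have hle : ρ.ker ≤ N1 ⊓ N2 := by
          intro g hg
          rw [MonoidHom.mem_ker] at hg
          refine ⟨?_, ?_⟩
          · show resW ρ W hW g = 1
            ext w
            show ((ρ g (w : V)) : V) = w
            rw [hg]
            rfl
          · show quoW ρ W hW g = 1
            apply LinearMap.ext
            intro x
            obtain ⟨v, rfl⟩ := W.mkQ_surjective x
            show W.mkQ (ρ g v) = W.mkQ v
            rw [hg]
            rfl
        have s1 : Relation.ReflTransGen (Rst m) ρ.ker (N1 ⊓ N2) :=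
          Relation.ReflTransGen.single ⟨inferInstance, inferInstance, hle, hfac⟩
        have s2 : Relation.ReflTransGen (Rst m) (N1 ⊓ N2) (N1 ⊓ ⊤) :=
          Relation.ReflTransGen.lift (r := Rst m) (p := Rst m) (fun B => N1 ⊓ B)
            (fun a b h => Rst.inf inferInstance h) _ _ c2
        rw [inf_top_eq] at s2
        exact (s1.trans s2).trans c1
      · have hirr : ∀ W : Submodule ℚ V, W ≠ ⊥ → (∀ g, ∀ w ∈ W, ρ g w ∈ W) → W = ⊤ := by
          intro W h0 hW
          by_contra h1
          exact hex ⟨W, h0, h1, hW⟩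
        obtain ⟨K, hKn, hKi, hK⟩ := irr_Q hsol ρ hirr
        have hBn : (ρ.ker ⊔ K).Normal := inferInstance
        have hBi : (ρ.ker ⊔ K).index ≠ 0 :=
          ne_zero_of_dvd_ne_zero hKi (Subgroup.index_dvd_of_le le_sup_right)
        have f1 : Factor m ρ.ker (ρ.ker ⊔ K) := by
          left
          intro x hx
          refine ⟨K, hKi, ?_⟩
          intro k hk
          obtain ⟨n, hn, y, hy, rfl⟩ := Subgroup.mem_sup_of_normal_right.1 hx
          rw [MonoidHom.mem_ker] at hn
          have hn' : ρ n⁻¹ = 1 := MonoidHom.mem_ker.1 ((ρ.ker).inv_mem (MonoidHom.mem_ker.2 hn))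
          have h1 := hK _ (Subgroup.commutator_mem_commutator hk hy)
          rw [MonoidHom.mem_ker]
          rw [commutatorElement_def] at h1
          have h2 : k * (n * y) * k⁻¹ * (n * y)⁻¹ = (k * n * k⁻¹) * (k * y * k⁻¹ * y⁻¹) * n⁻¹ := by
            group
          rw [h2, map_mul, map_mul, h1, hn', mul_one, mul_one]
          have h3 : k * n * k⁻¹ ∈ ρ.ker :=
            (inferInstance : (ρ.ker).Normal).conj_mem n (MonoidHom.mem_ker.2 hn) k
          exact MonoidHom.mem_ker.1 h3
        have f2 : Factor m (ρ.ker ⊔ K) ⊤ := by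
          left
          intro x _
          refine ⟨ρ.ker ⊔ K, hBi, ?_⟩
          intro k hk
          have h2 : k * x * k⁻¹ * x⁻¹ = k * (x * k⁻¹ * x⁻¹) := by group
          rw [h2]
          exact Subgroup.mul_mem _ hk (hBn.conj_mem _ (Subgroup.inv_mem _ hk) x)
        exact (Relation.ReflTransGen.single ⟨inferInstance, hBn, le_sup_left, f1⟩).trans
          (Relation.ReflTransGen.single ⟨hBn, inferInstance, le_top, f2⟩)

end

end Pool.Agent.U350.PG
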