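import Mathlib
import Pool.Agent.U350.PG.CStep
import Pool.Agent.U350.PG.Lin

/-!
# Solvable linear groups over the complex numbers
-/

set_option autoImplicit false

namespace Pool.Agent.U350.PG

open Module Polynomial
open scoped Pointwise commutatorElement

noncomputable section

/-- one step of a series: FC-central or complex linear factors -/
def CRst (m : ℕ) (y : ℝ) {G : Type} [Group G] (N A : Subgroup G) : Prop :=
  N.Normal ∧ A.Normal ∧
    ((∀ x ∈ A, ∃ K : Subgroup G, K.index ≠ 0 ∧ ∀ k ∈ K, k * x * k⁻¹ * x⁻¹ ∈ N) ∨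
    ∃ (E : Type) (_ : AddCommGroup E) (_ : Module ℂ E) (_ : FiniteDimensional ℂ E)
      (σ : G →* (E →ₗ[ℂ] E)) (φ : G → E), finrank ℂ E ≤ m ∧ CFac A N σ φ ∧
      ∀ g l, Module.End.HasEigenvalue (σ g) l → IsIntegral ℤ l → (∀ k > 0, l ^ k ≠ 1) →
        y ≤ Real.log (W963.GE.MM l))

theorem chain_gap {G : Type} [Group G] (hsol : Group.IsSolvable G) (S : Set G) (hfin : S.Finite)
    (hne : S.Nonempty) (hgen : Subgroup.closure S = ⊤) {y : ℝ} (hy0 : 0 ≤ y) (hy1 : y ≤ 1 / 2)
    (m : ℕ) {N : Subgroup G} (h : Relation.ReflTransGen (CRst m y) N ⊤) :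
    VNr N ∨ y / (24 * (m : ℝ) ^ 6) ≤ H746UG.rho S := by
  induction h using Relation.ReflTransGen.head_induction_on with
  | refl =>
    left
    refine ⟨⊤, ?_, 0, le_top⟩
    rw [Subgroup.index_top]
    exact one_ne_zero
  | @head N A h1 _ ih =>
    rcases ih with ih | ih
    · by_cases hN : VNr N
      · exact Or.inl hN
      · right
        obtain ⟨hNn, hAn, hf⟩ := h1
        rcases hf with hfc | ⟨E, _, _, _, σ, φ, hEm, hcf, hev⟩
        · exact absurd (vnr_fc' S hfin hgen A N hNn ih hfc) hN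
        · exact c_step hsol S hfin hne hgen hy0 hy1 m (finrank ℂ E) hEm E σ φ A N rfl hAn hcf ih hN
            hev
    · exact Or.inr ih

lemma CRst.inf {m : ℕ} {y : ℝ} {G : Type} [Group G] {N A C : Subgroup G} (hC : C.Normal)
    (h : CRst m y N A) : CRst m y (C ⊓ N) (C ⊓ A) := by
  obtain ⟨hN, hA, hf⟩ := h
  refine ⟨inferInstance, inferInstance, ?_⟩
  rcases hf with hfc | ⟨E, i1, i2, i3, σ, φ, hEm, hcf, hev⟩
  · left
    rintro x ⟨hxC, hxA⟩
    obtain ⟨K, hK, hc⟩ := hfc x hxA
    exact ⟨K, hK, fun k hk => ⟨C.mul_mem (hC.conj_mem x hxC k) (C.inv_mem hxC), hc k hk⟩⟩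
  · right
    refine ⟨E, i1, i2, i3, σ, φ, hEm, ⟨?_, ?_, ?_⟩, hev⟩
    · rintro a ⟨_, ha⟩ b ⟨_, hb⟩
      exact hcf.add a ha b hb
    · rintro a ⟨haC, ha⟩
      rw [hcf.zero a ha]
      exact ⟨fun h => ⟨haC, h⟩, fun h => h.2⟩
    · rintro g a ⟨_, ha⟩
      exact hcf.eqv g a ha

/-- an irreducible solvable linear group is virtually abelian -/
lemma irr_C {V : Type} [AddCommGroup V] [Module ℂ V] {G : Type} [Group G]
    (hs : Group.IsSolvable G) [FiniteDimensional ℂ V] [Nontrivial V] (ρ : G →* (V →ₗ[ℂ] V))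
    (hirr : ∀ W : Submodule ℂ V, W ≠ ⊥ → (∀ g, ∀ w ∈ W, ρ g w ∈ W) → W = ⊤) :
    ∃ K : Subgroup G, K.Normal ∧ K.index ≠ 0 ∧ ∀ a ∈ ⁅K, K⁆, ρ a = 1 := by
  classical
  obtain ⟨H, hH, v, hv, hχ⟩ := Pool.Agent.H652.SR.eigen G hs V ρ
  set K := H.normalCore with hK
  have hKn : K.Normal := Subgroup.normalCore_normal H
  have hKH : K ≤ H := Subgroup.normalCore_le H
  have hfi : H.FiniteIndex := ⟨hH⟩
  have hK0 : K.index ≠ 0 := (Subgroup.finiteIndex_normalCore (H := H)).index_ne_zero
  refine ⟨K, hKn, hK0, ?_⟩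
  have hne : ∀ k ∈ K, ∃ c : ℂ, c ≠ 0 ∧ ρ k v = c • v := by
    intro k hk
    obtain ⟨c, hc⟩ := hχ k (hKH hk)
    refine ⟨c, ?_, hc⟩
    rintro rfl
    rw [zero_smul] at hc
    exact eig_ne ρ k hv hc
  have hfix : ∀ a ∈ ⁅K, K⁆, ρ a v = v := by
    let F : Subgroup G :=
      { carrier := {a | ρ a v = v}
        one_mem' := by simp
        mul_mem' := by
          intro a b ha hb
          show ρ (a * b) v = v
          rw [map_mul, Module.End.mul_apply]
          rw [show ρ b v = v from hb, show ρ a v = v from ha]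
        inv_mem' := by
          intro a ha
          show ρ a⁻¹ v = v
          conv_lhs => rw [← show ρ a v = v from ha]
          exact eig_inv ρ a v }
    have h1 : ⁅K, K⁆ ≤ F := by
      rw [Subgroup.commutator_le]
      intro a ha b hb
      obtain ⟨c, hc0, hc⟩ := hne a ha
      obtain ⟨d, hd0, hd⟩ := hne b hb
      have ha' : ρ a⁻¹ v = c⁻¹ • v := by
        have h2 := eig_inv ρ a v
        rw [hc, map_smul] at h2
        rw [eq_inv_smul_iff₀ hc0]
        exact h2
      have hb' : ρ b⁻¹ v = d⁻¹ • v := by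
        have h2 := eig_inv ρ b v
        rw [hd, map_smul] at h2
        rw [eq_inv_smul_iff₀ hd0]
        exact h2
      show ρ ⁅a, b⁆ v = v
      simp only [commutatorElement_def, map_mul, Module.End.mul_apply, hb', map_smul, ha', hd, hc,
        smul_smul]
      have : d⁻¹ * (c⁻¹ * (d * c)) = 1 := by field_simp
      rw [this, one_smul]
    intro a ha
    exact h1 ha
  have hKK : ⁅K, K⁆.Normal := Subgroup.commutator_normal K K
  let W : Submodule ℂ V :=
    { carrier := {w | ∀ a ∈ ⁅K, K⁆, ρ a w = w}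
      zero_mem' := by intro a _; simp
      add_mem' := by
        intro x y hx hy a ha
        rw [map_add, hx a ha, hy a ha]
      smul_mem' := by
        intro c x hx a ha
        rw [map_smul, hx a ha] }
  have hW : W = ⊤ := by
    apply hirr W
    · intro h0
      have h1 : v ∈ W := hfix
      rw [h0, Submodule.mem_bot] at h1
      exact hv h1
    · intro g w hw a ha
      have h1 : ρ a * ρ g = ρ g * ρ (g⁻¹ * a * g) := by
        rw [← map_mul, ← map_mul]; congr 1; group
      have h2 := congrArg (fun T : V →ₗ[ℂ] V => T w) h1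
      simp only [Module.End.mul_apply] at h2
      have h3 : g⁻¹ * a * g ∈ ⁅K, K⁆ := by simpa using hKK.conj_mem a ha g⁻¹
      rw [h2, hw _ h3]
  intro a ha
  apply LinearMap.ext
  intro w
  have h1 : w ∈ W := by rw [hW]; trivial
  exact h1 a ha

section conj

variable {V : Type} [AddCommGroup V] [Module ℂ V] {G : Type} [Group G] (ρ : G →* (V →ₗ[ℂ] V))

/-- conjugation on the endomorphisms -/
def conjE : G →* ((V →ₗ[ℂ] V) →ₗ[ℂ] (V →ₗ[ℂ] V)) where
  toFun g :=
    { toFun := fun X => ρ g * X * ρ g⁻¹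
      map_add' := fun X Y => by rw [mul_add, add_mul]
      map_smul' := fun c X => by
        rw [mul_smul_comm, smul_mul_assoc, RingHom.id_apply] }
  map_one' := by
    apply LinearMap.ext
    intro X
    show ρ 1 * X * ρ 1⁻¹ = X
    rw [inv_one, map_one, one_mul, mul_one]
  map_mul' g h := by
    apply LinearMap.ext
    intro X
    show ρ (g * h) * X * ρ (g * h)⁻¹ = ρ g * (ρ h * X * ρ h⁻¹) * ρ g⁻¹
    rw [mul_inv_rev, map_mul, map_mul]
    simp only [mul_assoc]

lemma conjE_apply (g : G) (X : V →ₗ[ℂ] V) : conjE ρ g X = ρ g * X * ρ g⁻¹ := rfl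

lemma ev_ne_zero {g : G} {α : ℂ} (h : Module.End.HasEigenvalue (ρ g) α) : α ≠ 0 := by
  rw [ev_iff] at h
  obtain ⟨v, hv, h1⟩ := h
  rintro rfl
  rw [zero_smul] at h1
  exact eig_ne ρ g hv h1

/-- the eigenvalues of the conjugation are quotients of eigenvalues -/
lemma ev_conj [FiniteDimensional ℂ V] {g : G} {l : ℂ}
    (h : Module.End.HasEigenvalue (conjE ρ g) l) : ∃ α β, Module.End.HasEigenvalue (ρ g) α ∧
      Module.End.HasEigenvalue (ρ g) β ∧ l = α / β := by
  have hl : l ≠ 0 := ev_ne_zero (conjE ρ) h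
  rw [ev_iff] at h
  obtain ⟨X, hX, h1⟩ := h
  have h2 : ∀ v, ρ g (X v) = l • X (ρ g v) := by
    intro v
    have h3 : conjE ρ g X * ρ g = ρ g * X := by
      rw [conjE_apply, mul_assoc, ← map_mul, inv_mul_cancel, map_one, mul_one]
    rw [h1] at h3
    exact (LinearMap.congr_fun h3 v).symm
  -- an eigenvalue on the range
  have hnt : Nontrivial (LinearMap.range X) := by
    rw [Submodule.nontrivial_iff_ne_bot]
    intro h3
    exact hX (LinearMap.range_eq_bot.1 h3)
  have hinv : ∀ w ∈ LinearMap.range X, ρ g w ∈ LinearMap.range X := by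
    rintro _ ⟨v, rfl⟩
    rw [h2]
    exact ⟨l • ρ g v, by rw [map_smul]⟩
  obtain ⟨α, hα⟩ := Module.End.exists_eigenvalue ((ρ g).restrict hinv)
  rw [ev_iff] at hα
  obtain ⟨⟨u, v, rfl⟩, hu, hαu⟩ := hα
  have hαv : ρ g (X v) = α • X v := congrArg Subtype.val hαu
  have hXv : X v ≠ 0 := fun h3 => hu (Subtype.ext h3)
  refine ⟨α, α / l, ?_, ?_, ?_⟩
  · rw [ev_iff]
    exact ⟨X v, hXv, hαv⟩
  · by_contra hcon
    -- the map `ρ g - β` on the kernel
    set β := α / l with hβ
    have hinj : ∀ w, ρ g w - β • w = 0 → w = 0 := by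
      intro w hw
      by_contra hw0
      apply hcon
      rw [ev_iff]
      exact ⟨w, hw0, sub_eq_zero.1 hw⟩
    let f : V →ₗ[ℂ] V := ρ g - β • LinearMap.id
    have hfk : ∀ w ∈ LinearMap.ker X, f w ∈ LinearMap.ker X := by
      intro w hw
      rw [LinearMap.mem_ker] at hw ⊢
      have h3 := h2 w
      rw [hw, map_zero] at h3
      show X (ρ g w - β • w) = 0
      rw [map_sub, map_smul, hw, smul_zero, sub_zero]
      rcases smul_eq_zero.1 h3.symm with h4 | h4
      · exact absurd h4 hl
      · exact h4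
    have hsur : Function.Surjective (f.restrict hfk) := by
      apply LinearMap.surjective_of_injective
      rw [← LinearMap.ker_eq_bot, LinearMap.ker_eq_bot']
      intro w hw
      exact Subtype.ext (hinj w (congrArg Subtype.val hw))
    have hvk : f v ∈ LinearMap.ker X := by
      rw [LinearMap.mem_ker]
      show X (ρ g v - β • v) = 0
      have h3 := h2 v
      rw [hαv] at h3
      rw [map_sub, map_smul, hβ, div_eq_mul_inv, mul_comm α, mul_smul, h3, smul_smul,
        inv_mul_cancel₀ hl, one_smul, sub_self]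
    obtain ⟨w, hw⟩ := hsur ⟨f v, hvk⟩
    have h3 : f (w : V) = f v := congrArg Subtype.val hw
    have h4 : (w : V) - v = 0 := by
      apply hinj
      have h5 : f ((w : V) - v) = 0 := by rw [map_sub, h3, sub_self]
      exact h5
    apply hXv
    rw [← sub_eq_zero.1 h4]
    exact LinearMap.mem_ker.1 w.2
  · have hα0 : α ≠ 0 := by
      rintro rfl
      rw [zero_smul] at hαv
      exact eig_ne ρ g hXv hαv
    field_simp

end conj

/-- quotients of eigenvalues -/
def QE (y : ℝ) {V : Type} [AddCommGroup V] [Module ℂ V] {G : Type} [Group G]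
    (ρ : G →* (V →ₗ[ℂ] V)) : Prop :=
  ∀ g α β, Module.End.HasEigenvalue (ρ g) α → Module.End.HasEigenvalue (ρ g) β →
    IsIntegral ℤ (α / β) → (∀ k > 0, (α / β) ^ k ≠ 1) → y ≤ Real.log (W963.GE.MM (α / β))

/-- the series of a complex linear representation of a solvable group -/
theorem lin_chainC (m : ℕ) (y : ℝ) (d : ℕ) : ∀ (V : Type) [AddCommGroup V] [Module ℂ V]
    [FiniteDimensional ℂ V], finrank ℂ V = d → d ^ 2 ≤ m → ∀ (G : Type) [Group G],
    Group.IsSolvable G → ∀ ρ : G →* (V →ₗ[ℂ] V), QE y ρ →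
    Relation.ReflTransGen (CRst m y) ρ.ker ⊤ := by
  induction d using Nat.strong_induction_on with
  | _ d ih =>
    intro V _ _ _ hd hdm G _ hsol ρ hQ
    rcases subsingleton_or_nontrivial V with hV | hV
    · have h1 : ρ.ker = ⊤ := by
        rw [eq_top_iff]
        intro g _
        rw [MonoidHom.mem_ker]
        apply LinearMap.ext
        intro v
        exact Subsingleton.elim _ _
      rw [h1]
    · by_cases hex : ∃ W : Submodule ℂ V, W ≠ ⊥ ∧ W ≠ ⊤ ∧ ∀ g, ∀ w ∈ W, ρ g w ∈ W
      · obtain ⟨W, hW0, hW1, hW⟩ := hex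
        have hWd : finrank ℂ W < d := by
          rw [← hd]
          exact Submodule.finrank_lt hW1
        have hQd : finrank ℂ (V ⧸ W) < d := by
          have h1 := Submodule.finrank_quotient_add_finrank W
          have h2 : 0 < finrank ℂ W :=
            Nat.pos_of_ne_zero fun h => hW0 (Submodule.finrank_eq_zero.1 h)
          omega
        have c1 := ih _ hWd W rfl ((Nat.pow_le_pow_left hWd.le 2).trans hdm) G hsol (resC ρ W hW)
          (fun g α β hα hβ => hQ g α β (ev_res ρ W hW hα) (ev_res ρ W hW hβ))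
        have c2 := ih _ hQd (V ⧸ W) rfl ((Nat.pow_le_pow_left hQd.le 2).trans hdm) G hsol
          (quoC ρ W hW)
          (fun g α β hα hβ => hQ g α β (ev_quo ρ W hW hα) (ev_quo ρ W hW hβ))
        set N1 := (resC ρ W hW).ker with hN1
        set N2 := (quoC ρ W hW).ker with hN2
        have m1 : ∀ g ∈ N1, ∀ w ∈ W, ρ g w = w := by
          intro g hg w hw
          have h1 := LinearMap.congr_fun (MonoidHom.mem_ker.1 hg) ⟨w, hw⟩
          exact congrArg Subtype.val h1
        have m2 : ∀ g ∈ N2, ∀ v, ρ g v - v ∈ W := by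
          intro g hg v
          have h1 := LinearMap.congr_fun (MonoidHom.mem_ker.1 hg) (W.mkQ v)
          have h2 : W.mkQ (ρ g v) = W.mkQ v := h1
          rw [Submodule.mkQ_apply, Submodule.mkQ_apply, Submodule.Quotient.eq] at h2
          exact h2
        have hfac : CRst m y ρ.ker (N1 ⊓ N2) := by
          refine ⟨inferInstance, inferInstance, Or.inr ⟨V →ₗ[ℂ] V, inferInstance, inferInstance,
            inferInstance, conjE ρ, fun g => ρ g - 1, ?_, ⟨?_, ?_, ?_⟩, ?_⟩⟩
          · rw [Module.finrank_linearMap, hd, ← pow_two]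
            exact hdm
          · rintro a ⟨ha1, _⟩ b ⟨_, hb2⟩
            apply LinearMap.ext
            intro v
            simp only [map_mul, LinearMap.sub_apply, Module.End.mul_apply, Module.End.one_apply,
              LinearMap.add_apply]
            have h1 := m1 a ha1 _ (m2 b hb2 v)
            rw [map_sub] at h1
            rw [sub_eq_iff_eq_add] at h1
            rw [h1]
            abel
          · intro a _
            rw [sub_eq_zero, MonoidHom.mem_ker]
          · intro g a _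
            rw [conjE_apply, mul_sub, sub_mul, mul_one, ← map_mul, ← map_mul, ← map_mul,
              mul_inv_cancel, map_one]
          · intro g l hl hi hr
            obtain ⟨α, β, hα, hβ, rfl⟩ := ev_conj ρ hl
            exact hQ g α β hα hβ hi hr
        have s1 : Relation.ReflTransGen (CRst m y) ρ.ker (N1 ⊓ N2) :=
          Relation.ReflTransGen.single hfac
        have s2 : Relation.ReflTransGen (CRst m y) (N1 ⊓ N2) (N1 ⊓ ⊤) :=
          Relation.ReflTransGen.lift (r := CRst m y) (p := CRst m y) (fun B => N1 ⊓ B)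
            (fun a b h => CRst.inf inferInstance h) _ _ c2
        rw [inf_top_eq] at s2
        exact (s1.trans s2).trans c1
      · have hirr : ∀ W : Submodule ℂ V, W ≠ ⊥ → (∀ g, ∀ w ∈ W, ρ g w ∈ W) → W = ⊤ := by
          intro W h0 hW
          by_contra h1
          exact hex ⟨W, h0, h1, hW⟩
        obtain ⟨K, hKn, hKi, hK⟩ := irr_C hsol ρ hirr
        have hBn : (ρ.ker ⊔ K).Normal := inferInstance
        have hBi : (ρ.ker ⊔ K).index ≠ 0 :=
          ne_zero_of_dvd_ne_zero hKi (Subgroup.index_dvd_of_le le_sup_right)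
        have f1 : CRst m y ρ.ker (ρ.ker ⊔ K) := by
          refine ⟨inferInstance, hBn, Or.inl ?_⟩
          intro x hx
          refine ⟨K, hKi, ?_⟩
          intro k hk
          obtain ⟨n, hn, y, hy, rfl⟩ := Subgroup.mem_sup_of_normal_right.1 hx
          rw [MonoidHom.mem_ker] at hn
          have hn' : ρ n⁻¹ = 1 := MonoidHom.mem_ker.1 ((ρ.ker).inv_mem (MonoidHom.mem_ker.2 hn))
          have h1 := hK _ (Subgroup.commutator_mem_commutator hk hy)
          rw [MonoidHom.mem_ker]
          rw [commutatorElement_def] at h1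
          have h2 : k * (n * y) * k⁻¹ * (n * y)⁻¹ = (k * n * k⁻¹) * (k * y * k⁻¹ * y⁻¹) * n⁻¹ := by
            group
          rw [h2, map_mul, map_mul, h1, hn', mul_one, mul_one]
          have h3 : k * n * k⁻¹ ∈ ρ.ker :=
            (inferInstance : (ρ.ker).Normal).conj_mem n (MonoidHom.mem_ker.2 hn) k
          exact MonoidHom.mem_ker.1 h3
        have f2 : CRst m y (ρ.ker ⊔ K) ⊤ := by
          refine ⟨hBn, inferInstance, Or.inl ?_⟩
          intro x _
          refine ⟨ρ.ker ⊔ K, hBi, ?_⟩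
          intro k hk
          have h2 : k * x * k⁻¹ * x⁻¹ = k * (x * k⁻¹ * x⁻¹) := by group
          rw [h2]
          exact Subgroup.mul_mem _ hk (hBn.conj_mem _ (Subgroup.inv_mem _ hk) x)
        exact (Relation.ReflTransGen.single f1).trans (Relation.ReflTransGen.single f2)

/-- the gap for injective complex representations -/
theorem lin_gapC {G : Type} [Group G] (hsol : Group.IsSolvable G) (S : Set G) (hfin : S.Finite)
    (hgen : Subgroup.closure S = ⊤) (V : Type) [AddCommGroup V] [Module ℂ V]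
    [FiniteDimensional ℂ V] (ρ : G →* (V →ₗ[ℂ] V)) (hinj : Function.Injective ρ) {y : ℝ}
    (hy0 : 0 ≤ y) (hy1 : y ≤ 1 / 2) (hQ : QE y ρ) :
    Group.IsVirtuallyNilpotent G ∨ y / (24 * (finrank ℂ V : ℝ) ^ 12) ≤ H746UG.rho S := by
  rcases S.eq_empty_or_nonempty with rfl | hne
  · left
    rw [Subgroup.closure_empty] at hgen
    apply vn_of_vnr
    refine ⟨⊤, ?_, 0, ?_⟩
    · rw [Subgroup.index_top]
      exact one_ne_zero
    · rw [Subgroup.lowerCentralSeries_zero, hgen]
  · have hc := lin_chainC (finrank ℂ V ^ 2) y (finrank ℂ V) V rfl le_rfl G hsol ρ hQ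
    have hk : ρ.ker = ⊥ := (MonoidHom.ker_eq_bot_iff ρ).2 hinj
    rw [hk] at hc
    rcases chain_gap hsol S hfin hne hgen hy0 hy1 (finrank ℂ V ^ 2) hc with h | h
    · exact Or.inl (vn_of_vnr h)
    · right
      have h1 : (((finrank ℂ V ^ 2 : ℕ) : ℝ)) ^ 6 = (finrank ℂ V : ℝ) ^ 12 := by
        push_cast
        ring
      rw [h1] at h
      exact h

end

end Pool.Agent.U350.PG
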