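import Mathlib
import Pool.Agent.U350.PG.CLin

/-!
# Final forms
-/

set_option autoImplicit false

namespace Pool.Agent.U350.PG

open Module Polynomial Filter Topology
open scoped Pointwise commutatorElement

noncomputable section

lemma rho_inj {G G' : Type} [Group G] [Group G'] (f : G →* G') (hf : Function.Injective f)
    (S : Set G) : H746UG.rho (f '' S) = H746UG.rho S := by
  have h1 := H746UG.tendsto_rho (f '' S)
  have h2 := H746UG.tendsto_rho S
  refine tendsto_nhds_unique h1 (h2.congr fun n => ?_)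
  have h3 : (f '' S) ^ n = f '' (S ^ n) := (Set.image_pow f S n).symm
  rw [h3, Nat.card_image_of_injective hf]

/-- from generating sets to subsets -/
lemma sub_case {Γ : Type} [Group Γ] (S : Set Γ) (hS : S.Finite) {c : ℝ}
    (h : ∀ T : Set (Subgroup.closure S), T.Finite → Subgroup.closure T = ⊤ →
      Group.IsVirtuallyNilpotent (Subgroup.closure S) ∨ c ≤ H746UG.rho T) :
    ∃ ρ : ℝ, Tendsto (fun n : ℕ => Real.log (Nat.card ↥(S ^ n)) / n) atTop (𝓝 ρ) ∧
      (Group.IsVirtuallyNilpotent (Subgroup.closure S) ∨ c ≤ ρ) := by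
  refine ⟨H746UG.rho S, H746UG.tendsto_rho S, ?_⟩
  set T : Set (Subgroup.closure S) := Subtype.val ⁻¹' S with hT
  have h1 : (Subgroup.closure S).subtype '' T = S := by
    rw [hT]
    ext x
    constructor
    · rintro ⟨y, hy, rfl⟩
      exact hy
    · intro hx
      exact ⟨⟨x, Subgroup.subset_closure hx⟩, hx, rfl⟩
  have h2 := rho_inj (Subgroup.closure S).subtype (Subgroup.subtype_injective _) T
  rw [h1] at h2
  rw [h2]
  exact h T (hS.preimage Subtype.val_injective.injOn) Subgroup.closure_closure_coe_preimage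

/-- the representation given by a homomorphism to a matrix group -/
def repOf {G : Type} [Group G] {d : ℕ} (f : G →* GL (Fin d) ℂ) :
    G →* ((Fin d → ℂ) →ₗ[ℂ] (Fin d → ℂ)) where
  toFun g := Matrix.toLin' ((f g : GL (Fin d) ℂ) : Matrix (Fin d) (Fin d) ℂ)
  map_one' := by
    rw [map_one, Units.val_one, Matrix.toLin'_one]
    rfl
  map_mul' g h := by
    rw [map_mul, Units.val_mul, Matrix.toLin'_mul]
    rfl

lemma repOf_inj {G : Type} [Group G] {d : ℕ} {f : G →* GL (Fin d) ℂ}
    (hf : Function.Injective f) : Function.Injective (repOf f) := by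
  intro g h hgh
  apply hf
  apply Units.ext
  exact Matrix.toLin'.injective hgh

lemma repOf_ev {G : Type} [Group G] {d : ℕ} (f : G →* GL (Fin d) ℂ) (g : G) (α : ℂ) :
    Module.End.HasEigenvalue (repOf f g) α ↔
      ((f g : GL (Fin d) ℂ) : Matrix (Fin d) (Fin d) ℂ).charpoly.IsRoot α := by
  have h1 : repOf f g = Matrix.toLin' ((f g : GL (Fin d) ℂ) : Matrix (Fin d) (Fin d) ℂ) := rfl
  rw [h1, Module.End.hasEigenvalue_iff_isRoot_charpoly, Matrix.charpoly_toLin']

/-- complex linear groups -/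
theorem complex_case {d : ℕ} (S : Set (GL (Fin d) ℂ)) (hS : S.Finite)
    (hsol : Group.IsSolvable (Subgroup.closure S)) {y : ℝ} (hy0 : 0 ≤ y) (hy1 : y ≤ 1 / 2)
    (hQ : ∀ g ∈ Subgroup.closure S, ∀ α β : ℂ,
      (g : Matrix (Fin d) (Fin d) ℂ).charpoly.IsRoot α →
      (g : Matrix (Fin d) (Fin d) ℂ).charpoly.IsRoot β → IsIntegral ℤ (α / β) →
      (∀ k > 0, (α / β) ^ k ≠ 1) → y ≤ Real.log (W963.GE.MM (α / β))) :
    ∃ ρ : ℝ, Tendsto (fun n : ℕ => Real.log (Nat.card ↥(S ^ n)) / n) atTop (𝓝 ρ) ∧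
      (Group.IsVirtuallyNilpotent (Subgroup.closure S) ∨ y / (24 * (d : ℝ) ^ 12) ≤ ρ) := by
  refine sub_case S hS fun T hT hgen => ?_
  have h1 := lin_gapC hsol T hT hgen (Fin d → ℂ) (repOf (Subgroup.closure S).subtype)
    (repOf_inj (Subgroup.subtype_injective _)) hy0 hy1 (by
    intro g α β hα hβ hi hr
    rw [repOf_ev] at hα hβ
    exact hQ g g.2 α β hα hβ hi hr)
  rw [finrank_fin_fun] at h1
  exact h1

/-- the degree of a quotient -/
lemma deg_quot (K : Type) [Field K] [NumberField K] [Algebra K ℂ] [IsScalarTower ℚ K ℂ]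
    {d : ℕ} {α β : ℂ} {p : K[X]} (hp : p.Monic) (hd : p.natDegree = d) (hα : aeval α p = 0)
    (hβ : aeval β p = 0) (hi : IsIntegral ℤ (α / β)) :
    (minpoly ℤ (α / β)).natDegree ≤ finrank ℚ K * d ^ 2 := by
  have hαi : IsIntegral K α := ⟨p, hp, hα⟩
  have hβi : IsIntegral K β := ⟨p, hp, hβ⟩
  have f1 : FiniteDimensional K (IntermediateField.adjoin K {α}) :=
    IntermediateField.adjoin.finiteDimensional hαi
  have f2 : FiniteDimensional K (IntermediateField.adjoin K {β}) :=
    IntermediateField.adjoin.finiteDimensional hβi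
  have d1 : finrank K (IntermediateField.adjoin K {α}) ≤ d := by
    rw [IntermediateField.adjoin.finrank hαi, ← hd]
    exact natDegree_le_of_dvd (minpoly.dvd K α hα) hp.ne_zero
  have d2 : finrank K (IntermediateField.adjoin K {β}) ≤ d := by
    rw [IntermediateField.adjoin.finrank hβi, ← hd]
    exact natDegree_le_of_dvd (minpoly.dvd K β hβ) hp.ne_zero
  set L := IntermediateField.adjoin K {α} ⊔ IntermediateField.adjoin K {β} with hL
  have d3 : finrank K L ≤ d ^ 2 := by
    refine (IntermediateField.finrank_sup_le _ _).trans ?_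
    rw [pow_two]
    exact Nat.mul_le_mul d1 d2
  have f3 : FiniteDimensional K L := IntermediateField.finiteDimensional_sup _ _
  have f4 : FiniteDimensional ℚ L := FiniteDimensional.trans ℚ K L
  have hx : α / β ∈ L := by
    apply L.div_mem
    · exact (le_sup_left : IntermediateField.adjoin K {α} ≤ L)
        (IntermediateField.mem_adjoin_simple_self K α)
    · exact (le_sup_right : IntermediateField.adjoin K {β} ≤ L)
        (IntermediateField.mem_adjoin_simple_self K β)
  have h1 : (minpoly ℚ (⟨α / β, hx⟩ : L)).natDegree ≤ finrank ℚ L := minpoly.natDegree_le _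
  have h2 : minpoly ℚ (⟨α / β, hx⟩ : L) = minpoly ℚ (α / β) := by
    have := minpoly.algebraMap_eq (A := ℚ) (B := L) (B' := ℂ) (algebraMap L ℂ).injective
      (⟨α / β, hx⟩ : L)
    rw [← this]
    rfl
  have h3 : (minpoly ℤ (α / β)).natDegree = (minpoly ℚ (α / β)).natDegree := by
    rw [minpoly.isIntegrallyClosed_eq_field_fractions' ℚ hi,
      (minpoly.monic hi).natDegree_map]
  rw [h3, ← h2]
  refine h1.trans ?_
  rw [← Module.finrank_mul_finrank ℚ K L]
  exact Nat.mul_le_mul_left _ d3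

/-- number fields -/
theorem nf_case : ∃ κ : ℝ, 0 < κ ∧ ∀ (K : Type) [Field K] [NumberField K] (d : ℕ)
    (S : Set (GL (Fin d) K)), 0 < d → S.Finite → Group.IsSolvable (Subgroup.closure S) →
    ∃ ρ : ℝ, Tendsto (fun n : ℕ => Real.log (Nat.card ↥(S ^ n)) / n) atTop (𝓝 ρ) ∧
      (Group.IsVirtuallyNilpotent (Subgroup.closure S) ∨
        κ / ((d : ℝ) ^ 12 * (1 + Real.log (1 + d * finrank ℚ K)) ^ 3) ≤ ρ) := by
  obtain ⟨c1, hc1, hdob⟩ := dobM
  set c2 := min c1 (1 / 2) with hc2
  have hc20 : 0 < c2 := lt_min hc1 (by norm_num)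
  refine ⟨c2 / 192, by positivity, ?_⟩
  intro K _ _ d S hd hS hsol
  refine sub_case S hS fun T hT hgen => ?_
  obtain ⟨τ⟩ : Nonempty (K →+* ℂ) := inferInstance
  letI : Algebra K ℂ := τ.toAlgebra
  haveI : IsScalarTower ℚ K ℂ := IsScalarTower.of_algebraMap_eq' (Subsingleton.elim _ _)
  set n := finrank ℚ K with hn
  have hn0 : 0 < n := finrank_pos
  set f : Subgroup.closure S →* GL (Fin d) ℂ :=
    (Matrix.GeneralLinearGroup.map τ).comp (Subgroup.closure S).subtype with hf
  have hfi : Function.Injective f := by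
    intro g h hgh
    apply Subtype.ext
    apply Units.ext
    have h1 := congrArg (fun u : GL (Fin d) ℂ => (u : Matrix (Fin d) (Fin d) ℂ)) hgh
    exact Matrix.map_injective τ.injective h1
  have hlog : 0 ≤ Real.log (1 + ((n * d ^ 2 : ℕ) : ℝ)) := Real.log_nonneg (by
    have : (0 : ℝ) ≤ ((n * d ^ 2 : ℕ) : ℝ) := Nat.cast_nonneg _
    linarith)
  set y : ℝ := c2 / (1 + Real.log (1 + ((n * d ^ 2 : ℕ) : ℝ))) ^ 3 with hy
  have hy0 : 0 ≤ y := by positivity
  have hy1 : y ≤ 1 / 2 :=
    (div_le_self hc20.le (one_le_pow₀ (by linarith))).trans (min_le_right _ _)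
  have h1 := lin_gapC hsol T hT hgen (Fin d → ℂ) (repOf f) (repOf_inj hfi) hy0 hy1 (by
    intro g α β hα hβ hi hr
    rw [repOf_ev] at hα hβ
    have hcp : ((f g : GL (Fin d) ℂ) : Matrix (Fin d) (Fin d) ℂ).charpoly =
        (((g : GL (Fin d) K) : Matrix (Fin d) (Fin d) K).charpoly).map (algebraMap K ℂ) :=
      Matrix.charpoly_map _ _
    rw [hcp, IsRoot.def, eval_map_algebraMap] at hα hβ
    have hdeg := deg_quot K (Matrix.charpoly_monic _) (d := d)
      ((Matrix.charpoly_natDegree_eq_dim _).trans (Fintype.card_fin d)) hα hβ hi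
    have hne : α / β ≠ 0 := by
      intro h0
      have hα0 : α ≠ 0 := by
        apply ev_ne_zero (repOf f) (g := g)
        rw [repOf_ev, hcp, IsRoot.def, eval_map_algebraMap]
        exact hα
      have hβ0 : β ≠ 0 := by
        apply ev_ne_zero (repOf f) (g := g)
        rw [repOf_ev, hcp, IsRoot.def, eval_map_algebraMap]
        exact hβ
      exact (div_ne_zero hα0 hβ0) h0
    refine le_trans ?_ (hdob _ hi hne hr _ hdeg)
    exact div_le_div_of_nonneg_right (min_le_left _ _) (by positivity))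
  rcases h1 with h1 | h1
  · exact Or.inl h1
  · right
    refine le_trans ?_ h1
    rw [finrank_fin_fun, hy]
    have hdR : (1 : ℝ) ≤ d := by exact_mod_cast hd
    have hnR : (1 : ℝ) ≤ n := by exact_mod_cast hn0
    have hlog2 : 0 ≤ Real.log (1 + (d : ℝ) * n) := Real.log_nonneg (by nlinarith)
    have h2 : Real.log (1 + ((n * d ^ 2 : ℕ) : ℝ)) ≤ 2 * Real.log (1 + (d : ℝ) * n) := by
      have h3 : (2 : ℝ) * Real.log (1 + (d : ℝ) * n) = Real.log ((1 + (d : ℝ) * n) ^ 2) := by
        rw [Real.log_pow]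
        norm_num
      rw [h3]
      apply Real.log_le_log (by positivity)
      push_cast
      nlinarith [mul_nonneg (sub_nonneg.2 hnR) (mul_nonneg (by linarith : (0:ℝ) ≤ n)
        (sq_nonneg (d : ℝ))), mul_nonneg (by linarith : (0:ℝ) ≤ d) (by linarith : (0:ℝ) ≤ n)]
    have h3 : (1 + Real.log (1 + ((n * d ^ 2 : ℕ) : ℝ))) ^ 3 ≤
        8 * (1 + Real.log (1 + (d : ℝ) * n)) ^ 3 := by
      calc (1 + Real.log (1 + ((n * d ^ 2 : ℕ) : ℝ))) ^ 3
          ≤ (2 * (1 + Real.log (1 + (d : ℝ) * n))) ^ 3 := by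
            apply pow_le_pow_left₀ (by linarith)
            linarith
        _ = _ := by ring
    rw [div_div, div_div]
    apply div_le_div_of_nonneg_left hc20.le (by positivity)
    have hd12 : (0 : ℝ) < (d : ℝ) ^ 12 := by positivity
    nlinarith [mul_le_mul_of_nonneg_left h3 hd12.le]

end

end Pool.Agent.U350.PG
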